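import Pool.Agent.Work.MP_1ce445_topR.Lim
import Pool.Agent.Work.MP_1ce445_fin.Defs

/-!
MP_1ce445_co: the leading term of `P n k` for all `k`, `n` even (helper23).
-/

namespace Pool.Agent.Work.MP_1ce445_topR

open Finset Pool.Agent.Work.MP_1ce445_co_56 Pool.Agent.Work.MP_1ce445_lin
  Pool.Agent.Work.MP_1ce445_top Pool.Agent.Work.MP_1ce445_fin

/-- The theorem for `n - k → ∞`. -/
def Stmt_final : Prop :=
  ∀ ε : ℝ, 0 < ε → ∃ R n0 : ℕ, ∀ n k : ℕ, n0 ≤ n → 3 ≤ k → k + R ≤ n →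
      |(P n k : ℝ) / (F ((k : ℝ) / n) * ((2 * (n / 2) : ℕ) : ℝ) ^ k) - 1| ≤ ε

theorem Lam_le_one (R : ℕ) (hR : 1 ≤ R) : Lam R ≤ 1 := by
  have h1 := Lam_le_top R hR
  have hR0 : (1 : ℝ) ≤ R := by exact_mod_cast hR
  have h2 : ((R : ℝ) - 1) / (R + 1) ≤ 1 := by
    rw [div_le_one (by linarith)]
    linarith
  linarith

/-- `Lam R` tends to one. -/
theorem Lam_tendsto (δ : ℝ) (hδ : 0 < δ) : ∃ R0 : ℕ, ∀ R, R0 ≤ R → 1 - δ ≤ Lam R := by
  obtain ⟨q, hq⟩ := exists_nat_ge (2 / δ)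
  have hq0 : (0 : ℝ) < 2 / δ := by positivity
  have hq1 : 0 < q := by
    have : (0 : ℝ) < q := by linarith
    exact_mod_cast this
  have hqR : (0 : ℝ) < q := by exact_mod_cast hq1
  have hq2 : 1 / (q : ℝ) ≤ δ / 2 := by
    rw [div_le_iff₀ hδ] at hq
    rw [div_le_iff₀ hqR]
    linarith
  obtain ⟨x, hx⟩ : ∃ x : ℝ, x = 1 - 1 / (q : ℝ) := ⟨_, rfl⟩
  have hqq : 0 < 1 / (q : ℝ) := by positivity
  have hq3 : 1 / (q : ℝ) ≤ 1 := by
    rw [div_le_one hqR]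
    exact_mod_cast hq1
  have hx0 : 0 ≤ x := by rw [hx]; linarith
  have hx1 : x < 1 := by rw [hx]; linarith
  obtain ⟨s, hs⟩ := exists_pow_lt_of_lt_one (show (0 : ℝ) < δ / 2 by linarith) hx1
  refine ⟨s + 1, fun R hR => ?_⟩
  have h1 := ran_le_Lam R q hq1 (by omega)
  rw [← hx] at h1
  have h2 : x ^ (R - 1) ≤ x ^ s := pow_le_pow_of_le_one hx0 hx1.le (by omega)
  have h3 : 0 ≤ x ^ (R - 1) := pow_nonneg hx0 _
  have h4 : 1 - δ ≤ x * (1 - x ^ (R - 1)) := by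
    have h5 : 1 - δ / 2 ≤ x := by rw [hx]; linarith
    have h6 : x * x ^ (R - 1) ≤ 1 * x ^ (R - 1) := mul_le_mul_of_nonneg_right hx1.le h3
    nlinarith
  linarith

/-- Bounds for `F` near one. -/
theorem F_near (c : ℝ) (m : ℕ) (hm : 3 ≤ m) (hc0 : 2 / 3 ≤ c) (hc1 : c < 1)
    (hmc : ⌊1 / (1 - c)⌋₊ = m) :
    (1 - 1 / (m : ℝ)) ^ m ≤ F c ∧ F c ≤ Real.exp (-1) := by
  have hm3 : (3 : ℝ) ≤ m := by exact_mod_cast hm
  have hF : F c = max ((1 - 1 / (m : ℝ)) ^ m) (V m c) := by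
    unfold F
    rw [if_neg (by linarith), if_neg (by linarith), if_neg (by linarith),
      if_neg (by rintro ⟨_, h⟩; linarith), hmc]
  rw [hF]
  refine ⟨le_max_left _ _, max_le ?_ ?_⟩
  · have h1 := Real.one_sub_div_pow_le_exp_neg (n := m) (t := 1) (by linarith)
    exact h1
  · -- `m ≤ 1/(1-c) < m + 1`
    have h1c : 0 < 1 - c := by linarith
    have h1 : (m : ℝ) ≤ 1 / (1 - c) := by
      rw [← hmc]
      exact Nat.floor_le (by positivity)
    rw [le_div_iff₀ h1c] at h1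
    have h2 : c * (m - (m + 1) * c) / m ≤ 1 := by
      rw [div_le_one (by linarith)]
      nlinarith
    have h3 : √(c * (m - (m + 1) * c) / m) ≤ 1 := by
      calc √(c * (m - (m + 1) * c) / m) ≤ √1 := Real.sqrt_le_sqrt h2
        _ = 1 := Real.sqrt_one
    have h4 := Real.sqrt_nonneg (c * (m - (m + 1) * c) / m)
    have h5 : (c + √(c * (m - (m + 1) * c) / m)) / m ≤ 1 := by
      rw [div_le_one (by linarith)]
      linarith
    have h6 : c / m ≤ (c + √(c * (m - (m + 1) * c) / m)) / m := by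
      apply div_le_div_of_nonneg_right _ (by linarith)
      linarith
    have h7 : V m c ≤ c * (1 - c / m) ^ m := by
      unfold V
      apply mul_le_mul_of_nonneg_left _ (by linarith)
      apply pow_le_pow_left₀ (by linarith)
      linarith
    have h8 := Real.one_sub_div_pow_le_exp_neg (n := m) (t := c) (by linarith)
    have h9 : c * (1 - c / m) ^ m ≤ c * Real.exp (-c) :=
      mul_le_mul_of_nonneg_left h8 (by linarith)
    have h10 := Real.add_one_le_exp (c - 1)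
    have h11 : c * Real.exp (-c) ≤ Real.exp (c - 1) * Real.exp (-c) :=
      mul_le_mul_of_nonneg_right (by linarith) (Real.exp_pos _).le
    rw [← Real.exp_add] at h11
    have h12 : c - 1 + -c = -1 := by ring
    rw [h12] at h11
    linarith

/-- `F c` tends to `1/e`. -/
theorem F_tendsto (δ : ℝ) (hδ : 0 < δ) : ∃ c0 : ℝ, c0 < 1 ∧ ∀ c, c0 ≤ c → c < 1 →
    Real.exp (-1) - δ ≤ F c ∧ F c ≤ Real.exp (-1) := by
  have h1 := Real.tendsto_one_add_div_pow_exp (-1)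
  have h2 : ∀ᶠ m : ℕ in Filter.atTop, Real.exp (-1) - δ < (1 + -1 / (m : ℝ)) ^ m :=
    h1.eventually_const_lt (by linarith)
  obtain ⟨m0, hm0⟩ := Filter.eventually_atTop.1 h2
  obtain ⟨M, hM⟩ : ∃ M : ℕ, M = max m0 3 := ⟨_, rfl⟩
  have hM3 : 3 ≤ M := by rw [hM]; exact le_max_right _ _
  have hMm : m0 ≤ M := by rw [hM]; exact le_max_left _ _
  have hMR : (3 : ℝ) ≤ M := by exact_mod_cast hM3
  refine ⟨1 - 1 / (M : ℝ), ?_, fun c hc hc1 => ?_⟩
  · have : 0 < 1 / (M : ℝ) := by positivity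
    linarith
  · have h1c : 0 < 1 - c := by linarith
    have h3 : M ≤ ⌊1 / (1 - c)⌋₊ := by
      apply Nat.le_floor
      rw [le_div_iff₀ h1c]
      have h4 : 1 - c ≤ 1 / M := by linarith
      calc (M : ℝ) * (1 - c) ≤ M * (1 / M) := mul_le_mul_of_nonneg_left h4 (by linarith)
        _ = 1 := by field_simp
    have hc0 : 2 / 3 ≤ c := by
      have : 1 / (M : ℝ) ≤ 1 / 3 := one_div_le_one_div_of_le (by norm_num) hMR
      linarith
    have h5 := F_near c _ (le_trans hM3 h3) hc0 hc1 rfl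
    refine ⟨?_, h5.2⟩
    have h6 := hm0 ⌊1 / (1 - c)⌋₊ (le_trans hMm h3)
    have h7 : (1 + -1 / ((⌊1 / (1 - c)⌋₊ : ℕ) : ℝ)) = 1 - 1 / ((⌊1 / (1 - c)⌋₊ : ℕ) : ℝ) := by
      ring
    rw [h7] at h6
    exact h6.le.trans h5.1

/-- the case `n` even, `n - k = r` fixed -/
theorem fix_case (r : ℕ) (hr : 2 ≤ r) (ε : ℝ) (hε : 0 < ε) :
    ∃ n0 : ℕ, ∀ n : ℕ, n0 ≤ n → Even n →
      |(P n (n - r) : ℝ) / (F (((n - r : ℕ) : ℝ) / n) * Real.exp (1 - Lam r) *
        ((2 * (n / 2) : ℕ) : ℝ) ^ (n - r)) - 1| ≤ ε := by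
  have hT := tendsto_even r hr
  have hF : Filter.Tendsto (fun h : ℕ => F (((2 * h - r : ℕ) : ℝ) / ((2 * h : ℕ) : ℝ)))
      Filter.atTop (nhds (Real.exp (-1))) := by
    rw [Metric.tendsto_atTop]
    intro δ hδ
    obtain ⟨c0, hc0, h0⟩ := F_tendsto (δ / 2) (by linarith)
    obtain ⟨n1, hn1⟩ := exists_nat_ge ((r : ℝ) / (1 - c0))
    refine ⟨n1 + r + 1, fun h hh => ?_⟩
    have hn : (0 : ℝ) < ((2 * h : ℕ) : ℝ) := by exact_mod_cast (by omega : 0 < 2 * h)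
    have hcast : ((2 * h - r : ℕ) : ℝ) = ((2 * h : ℕ) : ℝ) - r := by
      rw [Nat.cast_sub (by omega)]
    have hr0 : (0 : ℝ) < r := by exact_mod_cast (by omega : 0 < r)
    have h1 := h0 (((2 * h - r : ℕ) : ℝ) / ((2 * h : ℕ) : ℝ)) (by
      rw [le_div_iff₀ hn, hcast]
      have h2 : (n1 : ℝ) ≤ ((2 * h : ℕ) : ℝ) := by exact_mod_cast (by omega : n1 ≤ 2 * h)
      rw [div_le_iff₀ (by linarith)] at hn1
      have h3 : (n1 : ℝ) * (1 - c0) ≤ ((2 * h : ℕ) : ℝ) * (1 - c0) :=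
        mul_le_mul_of_nonneg_right h2 (by linarith)
      linarith) (by
      rw [div_lt_one hn, hcast]
      linarith)
    rw [Real.dist_eq, abs_lt]
    constructor <;> linarith [h1.1, h1.2]
  have hQ := hT.div (hF.mul_const (Real.exp (1 - Lam r))) (by positivity)
  have hone : Real.exp (-Lam r) / (Real.exp (-1) * Real.exp (1 - Lam r)) = 1 := by
    rw [← Real.exp_add]
    have : -1 + (1 - Lam r) = -Lam r := by ring
    rw [this]
    exact div_self (Real.exp_pos _).ne'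
  rw [hone, Metric.tendsto_atTop] at hQ
  obtain ⟨h0, hh0⟩ := hQ ε hε
  refine ⟨2 * h0, fun n hn he => ?_⟩
  obtain ⟨h, hh⟩ := he
  have hn2 : n = 2 * h := by omega
  have h1 := hh0 h (by omega)
  rw [Real.dist_eq] at h1
  simp only [Pi.div_apply] at h1
  have h2 : 2 * (n / 2) = n := by omega
  rw [h2]
  rw [← hn2] at h1
  have h3 : (P n (n - r) : ℝ) / (F (((n - r : ℕ) : ℝ) / n) * Real.exp (1 - Lam r) *
        (n : ℝ) ^ (n - r)) = (P n (n - r) : ℝ) / (n : ℝ) ^ (n - r) /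
        (F (((n - r : ℕ) : ℝ) / n) * Real.exp (1 - Lam r)) := by
    rw [div_div, mul_comm ((n : ℝ) ^ (n - r))]
  rw [h3]
  exact h1.le

/-- **All `k`.** -/
theorem uniform (hfin : Stmt_final) (ε : ℝ) (hε : 0 < ε) :
    ∃ R n0 : ℕ, ∀ n k : ℕ, n0 ≤ n → 3 ≤ k → k + 2 ≤ n → (Even n ∨ k + R ≤ n) →
      |(P n k : ℝ) / (F ((k : ℝ) / n) * Real.exp (1 - Lam (n - k)) *
        ((2 * (n / 2) : ℕ) : ℝ) ^ k) - 1| ≤ ε := by
  obtain ⟨R1, n1, h1⟩ := hfin (ε / 2) (by linarith)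
  -- `exp (1 - Lam r)` is close to one
  obtain ⟨δ, hδ0, hδ⟩ : ∃ δ : ℝ, 0 < δ ∧ Real.exp δ ≤ 1 + ε / 2 := by
    refine ⟨Real.log (1 + ε / 2), Real.log_pos (by linarith), ?_⟩
    rw [Real.exp_log (by linarith)]
  obtain ⟨R2, hR2⟩ := Lam_tendsto δ hδ0
  choose! f hf using fun r (hr : 2 ≤ r) => fix_case r hr ε hε
  obtain ⟨R, hRd⟩ : ∃ R, R = R1 + R2 + 2 := ⟨_, rfl⟩
  refine ⟨R, n1 + ∑ r ∈ range (R + 1), f r, fun n k hn hk hk2 hor => ?_⟩
  by_cases hkR : k + R ≤ n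
  · have h2 := h1 n k (by omega) hk (by omega)
    have h3 := hR2 (n - k) (by omega)
    have h4 := Lam_le_one (n - k) (by omega)
    obtain ⟨x, hx⟩ : ∃ x : ℝ, x = (P n k : ℝ) / (F ((k : ℝ) / n) * ((2 * (n / 2) : ℕ) : ℝ) ^ k) :=
      ⟨_, rfl⟩
    obtain ⟨y, hy⟩ : ∃ y : ℝ, y = Real.exp (1 - Lam (n - k)) := ⟨_, rfl⟩
    have hy1 : 1 ≤ y := by
      rw [hy]
      exact Real.one_le_exp (by linarith)
    have hy2 : y ≤ 1 + ε / 2 := by
      rw [hy]
      exact (Real.exp_le_exp.2 (by linarith)).trans hδ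
    rw [← hx] at h2
    have h5 : (P n k : ℝ) / (F ((k : ℝ) / n) * Real.exp (1 - Lam (n - k)) *
        ((2 * (n / 2) : ℕ) : ℝ) ^ k) = x / y := by
      rw [hx, hy, div_div]
      congr 1
      ring
    rw [h5]
    have h6 : x / y - 1 = (x - y) / y := by field_simp
    rw [h6, abs_div, abs_of_pos (by linarith : 0 < y), div_le_iff₀ (by linarith)]
    have h7 := abs_le.1 h2
    have h8 : |x - y| ≤ ε := by
      rw [abs_le]
      constructor <;> linarith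
    nlinarith
  · have he : Even n := by
      rcases hor with h | h
      · exact h
      · exact absurd h hkR
    have h2 : f (n - k) ≤ ∑ r ∈ range (R + 1), f r :=
      Finset.single_le_sum (f := f) (fun _ _ => Nat.zero_le _)
        (Finset.mem_range.2 (by omega))
    have h3 := hf (n - k) (by omega) n (by omega) he
    have h4 : n - (n - k) = k := by omega
    rw [h4] at h3
    exact h3

end Pool.Agent.Work.MP_1ce445_topR
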