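import Pool.Agent.Work.MP_1ce445_topR.Succ
import Pool.Agent.Work.MP_1ce445_co_56.Odd
import Pool.Agent.Work.MP_1ce445_co_56.Excess

/-!
MP_1ce445_co: `1 - LamO R` is asymptotic to `log R / R` (helper23).
-/

namespace Pool.Agent.Work.MP_1ce445_topR

open Finset Pool.Agent.Work.MP_1ce445_co_56 Pool.Agent.Work.MP_1ce445_lin
  Pool.Agent.Work.MP_1ce445_top Pool.Agent.Work.MP_1ce445_oddR

/-- `e x^D (1 - x) ≤ 1 - x^e` for `e ≤ D` -/
theorem geo_aux (x : ℝ) (hx0 : 0 ≤ x) (hx1 : x ≤ 1) (D : ℕ) (e : ℕ) (he : e ≤ D) :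
    (e : ℝ) * (x ^ D * (1 - x)) ≤ 1 - x ^ e := by
  induction e with
  | zero => simp
  | succ e ih =>
    have h1 := ih (by omega)
    have h2 : x ^ D ≤ x ^ e := pow_le_pow_of_le_one hx0 hx1 (by omega)
    have h3 := mul_le_mul_of_nonneg_right h2 (by linarith : 0 ≤ 1 - x)
    have h4 : x ^ (e + 1) = x ^ e - x ^ e * (1 - x) := by ring
    push_cast
    rw [h4]
    nlinarith

/-- `e (1 - x^D) ≤ D (1 - x^e)` for `e ≤ D` -/
theorem chord (x : ℝ) (hx0 : 0 ≤ x) (hx1 : x ≤ 1) (D e : ℕ) (he : e ≤ D) :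
    (e : ℝ) * (1 - x ^ D) ≤ D * (1 - x ^ e) := by
  induction D with
  | zero =>
    have : e = 0 := by omega
    subst this
    simp
  | succ D ih =>
    rcases Nat.eq_or_lt_of_le he with h | h
    · rw [h]
    · have h1 := ih (by omega)
      have h2 := geo_aux x hx0 hx1 D e (by omega)
      have h4 : x ^ (D + 1) = x ^ D - x ^ D * (1 - x) := by ring
      rw [h4]
      push_cast
      nlinarith

/-- a function `x (1 - x^e) - lam e` is at least the minimum of its values at `1` and `E` -/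
theorem ends (x lam s : ℝ) (hx0 : 0 ≤ x) (hx1 : x ≤ 1) (E : ℕ)
    (h1 : lam + s ≤ x * (1 - x)) (hE : lam * E + s ≤ x * (1 - x ^ E)) (e : ℕ) (he1 : 1 ≤ e)
    (heE : e ≤ E) : lam * e + s ≤ x * (1 - x ^ e) := by
  by_cases hc : lam ≤ x ^ e * (1 - x)
  · -- increasing up to `e`
    have h2 : ∀ i : ℕ, 1 ≤ i → i ≤ e → lam * i + s ≤ x * (1 - x ^ i) := by
      intro i hi
      induction i, hi using Nat.le_induction with
      | base =>
        intro _
        push_cast
        rw [pow_one, mul_one]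
        exact h1
      | succ i hi ih =>
        intro hie
        have h3 := ih (by omega)
        have h4 : x ^ e ≤ x ^ (i + 1) := pow_le_pow_of_le_one hx0 hx1 hie
        have h5 := mul_le_mul_of_nonneg_right h4 (by linarith : 0 ≤ 1 - x)
        have h6 : x * (1 - x ^ (i + 1)) = x * (1 - x ^ i) + x ^ (i + 1) * (1 - x) := by ring
        push_cast
        rw [h6]
        linarith
    exact h2 e he1 le_rfl
  · push Not at hc
    -- decreasing from `e`
    have h2 : ∀ d : ℕ, x * (1 - x ^ (e + d)) - lam * ((e + d : ℕ) : ℝ) ≤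
        x * (1 - x ^ e) - lam * e := by
      intro d
      induction d with
      | zero => simp
      | succ d ih =>
        have h4 : x ^ (e + d + 1) ≤ x ^ e := pow_le_pow_of_le_one hx0 hx1 (by omega)
        have h5 := mul_le_mul_of_nonneg_right h4 (by linarith : 0 ≤ 1 - x)
        have h6 : x * (1 - x ^ (e + (d + 1))) =
            x * (1 - x ^ (e + d)) + x ^ (e + d + 1) * (1 - x) := by ring
        push_cast at ih ⊢
        rw [h6]
        linarith
    have h3 := h2 (E - e)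
    have h4 : e + (E - e) = E := by omega
    rw [h4] at h3
    linarith

/-- removing leaves at a vertex -/
theorem leaves_loss {V : Type} [Fintype V] [DecidableEq V] (G : SimpleGraph V)
    (hmin : ∀ v, ∃ w, G.Adj v w) (v : V) (L : Finset V)
    (hL : ∀ u ∈ L, G.Adj v u ∧ dg G u = 1) : gammaT G + L.card ≤ Fintype.card V + 1 := by
  classical
  rcases L.eq_empty_or_nonempty with h0 | ⟨u0, hu0⟩
  · subst h0
    have := gammaT_le_univ hmin
    simp
    omega
  · have h1 : gammaT G ≤ ((L.erase u0)ᶜ).card := by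
      apply gammaT_le_card
      intro w
      by_cases hw : w = v
      · subst hw
        exact ⟨u0, by simp, (hL u0 hu0).1⟩
      · obtain ⟨a, ha⟩ := hmin w
        refine ⟨a, ?_, ha⟩
        rw [Finset.mem_compl]
        intro haL
        have h2 := hL a (Finset.mem_of_mem_erase haL)
        -- `a` has only the neighbour `v`
        have h3 : dg G a = 1 := h2.2
        unfold dg at h3
        obtain ⟨b, hb⟩ := Finset.card_eq_one.1 h3
        have h4 : v ∈ univ.filter (fun z => G.Adj a z) := by simpa using h2.1.symm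
        have h5 : w ∈ univ.filter (fun z => G.Adj a z) := by simpa using ha.symm
        rw [hb, Finset.mem_singleton] at h4 h5
        exact hw (h5.trans h4.symm)
    rw [Finset.card_compl, Finset.card_erase_of_mem hu0] at h1
    have h2 := Finset.card_pos.2 ⟨u0, hu0⟩
    have h3 : L.card ≤ Fintype.card V := Finset.card_le_univ L
    omega

/-- The inequality for one graph of odd order. -/
theorem per_graph {V : Type} [Fintype V] [DecidableEq V] (G : SimpleGraph V)
    (hmin : ∀ v, ∃ w, G.Adj v w) (hodd : Odd (Fintype.card V)) (r q D : ℕ) (hq : 1 ≤ q)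
    (hr : 1 ≤ r) (hdeg : ∀ v, dg G v ≤ r) (lam s x : ℝ) (hx : x = 1 - 1 / (q : ℝ)) (hs : 0 < s)
    (hl0 : 0 ≤ lam) (hlr : lam * ((r - 1 : ℕ) : ℝ) ≤ 1)
    (A1 : lam * ((r - 1 : ℕ) : ℝ) + s ≤ x * (1 - x ^ (r - 1))) (A2 : lam + s ≤ x * (1 - x))
    (A3 : 2 * lam * D ≤ x * (1 - x ^ D)) (A4 : 2 ≤ s * D) :
    lam * ((∑ v, (dg G v - 1) : ℕ) - 12 : ℝ) ≤ (Fintype.card V : ℝ) - 1 - gammaT G := by
  classical
  have hq0 : (1 : ℝ) ≤ q := by exact_mod_cast hq
  have hx0 : 0 ≤ x := by
    rw [hx]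
    have : 1 / (q : ℝ) ≤ 1 := by rw [div_le_one (by linarith)]; exact hq0
    linarith
  have hx1 : x ≤ 1 := by
    rw [hx]
    have : 0 ≤ 1 / (q : ℝ) := by positivity
    linarith
  have hloss1 : (gammaT G : ℝ) + 1 ≤ Fintype.card V := by
    exact_mod_cast gammaT_add_one_le hmin hodd
  obtain ⟨E, hE⟩ : ∃ E : ℕ, E = ∑ v, (dg G v - 1) := ⟨_, rfl⟩
  rw [← hE]
  have hdg : ∀ v, 1 ≤ dg G v := fun v => dg_pos (hmin v)
  have hsumdg : ∑ v, dg G v = Fintype.card V + E := by
    rw [hE]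
    have : ∑ v, dg G v = ∑ v, (1 + (dg G v - 1)) := by
      apply Finset.sum_congr rfl
      intro v _
      have := hdg v
      omega
    rw [this, Finset.sum_add_distrib]
    simp
  by_cases hE12 : E ≤ 12
  · have h1 : (E : ℝ) ≤ 12 := by exact_mod_cast hE12
    have h2 : lam * ((E : ℝ) - 12) ≤ 0 := mul_nonpos_of_nonneg_of_nonpos hl0 (by linarith)
    linarith
  · -- the loss is at least 3
    have hloss3 : (gammaT G : ℝ) + 3 ≤ Fintype.card V := by
      have h1 := excess hmin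
      have h2 : gammaT G + 3 ≤ Fintype.card V := by
        by_contra hcon
        obtain ⟨l, hl⟩ : ∃ l, l = Fintype.card V - gammaT G := ⟨_, rfl⟩
        rw [← hl] at h1
        have hl2 : l ≤ 2 := by omega
        have h3 : 2 * l * (l + 1) ≤ 12 := by
          interval_cases l <;> omega
        omega
      exact_mod_cast h2
    -- RAN
    have hran : ∑ v, x * (1 - x ^ (dg G v - 1)) ≤ (Fintype.card V : ℝ) - gammaT G := by
      have h2 := stmt_RAN G q hq hmin
      rw [← hx] at h2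
      have h3 : (Fintype.card V : ℝ) = ∑ _v : V, (1 : ℝ) := by simp
      have h4 : ∑ v, x * (1 - x ^ (dg G v - 1)) =
          ∑ v : V, ((1 : ℝ) - (1 / (q : ℝ) + x ^ (dg G v))) := by
        apply Finset.sum_congr rfl
        intro v _
        have h5 : 1 ≤ dg G v := hdg v
        have h6 : x ^ (dg G v) = x * x ^ (dg G v - 1) := by
          rw [← pow_succ']
          congr 1
          omega
        have h7 : 1 / (q : ℝ) = 1 - x := by rw [hx]; ring
        rw [h6, h7]
        ring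
      rw [h4, Finset.sum_sub_distrib, ← h3]
      linarith
    have hER : (E : ℝ) = ∑ v, ((dg G v - 1 : ℕ) : ℝ) := by
      rw [hE]
      push_cast
      rfl
    -- slack
    obtain ⟨SL, hSL⟩ : ∃ SL : ℝ, SL = ∑ v, (x * (1 - x ^ (dg G v - 1)) -
        lam * ((dg G v - 1 : ℕ) : ℝ)) := ⟨_, rfl⟩
    have hSLE : lam * E + SL ≤ (Fintype.card V : ℝ) - gammaT G := by
      have h1 : lam * (E : ℝ) = ∑ v, lam * ((dg G v - 1 : ℕ) : ℝ) := by
        rw [hER, Finset.mul_sum]
      rw [hSL, Finset.sum_sub_distrib, ← h1]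
      linarith
    have hterm : ∀ v, 0 ≤ x * (1 - x ^ (dg G v - 1)) - lam * ((dg G v - 1 : ℕ) : ℝ) := by
      intro v
      rcases Nat.eq_zero_or_pos (dg G v - 1) with h0 | h0
      · rw [h0]
        simp
      · have := ends x lam s hx0 hx1 (r - 1) A2 A1 (dg G v - 1) h0 (by have := hdeg v; omega)
        linarith
    by_cases hSL1 : 1 ≤ SL
    · have : 0 ≤ lam * 12 := by positivity
      linarith
    · push Not at hSL1
      -- few vertices of positive excess
      obtain ⟨T, hT⟩ : ∃ T : Finset V, T = univ.filter (fun v => 2 ≤ dg G v) := ⟨_, rfl⟩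
      have hTs : (T.card : ℝ) * s ≤ SL := by
        rw [hSL]
        calc (T.card : ℝ) * s = ∑ _v ∈ T, s := by simp
          _ ≤ ∑ v ∈ T, (x * (1 - x ^ (dg G v - 1)) - lam * ((dg G v - 1 : ℕ) : ℝ)) := by
              apply Finset.sum_le_sum
              intro v hv
              rw [hT, Finset.mem_filter] at hv
              have := ends x lam s hx0 hx1 (r - 1) A2 A1 (dg G v - 1) (by omega)
                (by have := hdeg v; omega)
              linarith
          _ ≤ _ := Finset.sum_le_sum_of_subset_of_nonneg (Finset.subset_univ T)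
              (fun v _ _ => hterm v)
      have hT2 : (2 * T.card : ℝ) < D := by
        have h1 : (2 * T.card : ℝ) * s < D * s := by nlinarith
        exact lt_of_mul_lt_mul_right h1 hs.le
      have hT2n : 2 * T.card < D := by exact_mod_cast hT2
      have hET : (E : ℝ) ≤ T.card * ((r - 1 : ℕ) : ℝ) := by
        have h1 : E ≤ T.card * (r - 1) := by
          rw [hE]
          calc ∑ v, (dg G v - 1) = ∑ v ∈ T, (dg G v - 1) := by
                symm
                apply Finset.sum_subset (Finset.subset_univ T)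
                intro v _ hv
                rw [hT, Finset.mem_filter, not_and] at hv
                have := hv (mem_univ v)
                omega
            _ ≤ ∑ _v ∈ T, (r - 1) := Finset.sum_le_sum fun v _ => by
                have := hdeg v
                omega
            _ = T.card * (r - 1) := by simp
        exact_mod_cast h1
      have hlE : lam * E ≤ T.card := by
        calc lam * E ≤ lam * (T.card * ((r - 1 : ℕ) : ℝ)) := mul_le_mul_of_nonneg_left hET hl0
          _ = T.card * (lam * ((r - 1 : ℕ) : ℝ)) := by ring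
          _ ≤ T.card * 1 := mul_le_mul_of_nonneg_left hlr (by positivity)
          _ = T.card := by ring
      by_cases hbig : ∃ v, D + 1 < dg G v
      · obtain ⟨v, hv⟩ := hbig
        -- many leaves at `v`
        obtain ⟨L, hL⟩ : ∃ L : Finset V, L = univ.filter (fun u => G.Adj v u ∧ dg G u = 1) :=
          ⟨_, rfl⟩
        have h1 := leaves_loss G hmin v L (fun u hu => by
          rw [hL] at hu
          exact (Finset.mem_filter.1 hu).2)
        have h2 : dg G v ≤ L.card + T.card := by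
          unfold dg at *
          refine le_trans (Finset.card_le_card ?_) (Finset.card_union_le L T)
          intro u hu
          rw [Finset.mem_filter] at hu
          rw [Finset.mem_union]
          have h3 := hdg u
          by_cases h4 : 2 ≤ (univ.filter (fun w => G.Adj u w)).card
          · right
            rw [hT, Finset.mem_filter]
            exact ⟨mem_univ _, h4⟩
          · left
            rw [hL, Finset.mem_filter]
            exact ⟨mem_univ _, hu.2, by omega⟩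
        have h5 : gammaT G + T.card + 1 ≤ Fintype.card V := by omega
        have h6 : (gammaT G : ℝ) + T.card + 1 ≤ Fintype.card V := by exact_mod_cast h5
        have : 0 ≤ lam * 12 := by positivity
        linarith
      · push Not at hbig
        -- all excesses are at most `D`
        have h1 : lam * E ≤ SL := by
          rw [hSL, hER, Finset.mul_sum]
          apply Finset.sum_le_sum
          intro v _
          have h2 := hbig v
          have h3 : dg G v - 1 ≤ D := by omega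
          have h4 := chord x hx0 hx1 D (dg G v - 1) h3
          obtain ⟨e, he⟩ : ∃ e, e = dg G v - 1 := ⟨_, rfl⟩
          rw [← he] at h4 ⊢
          have hD0 : (0 : ℝ) < D := by
            by_contra hcon
            push Not at hcon
            nlinarith
          have h5 : (e : ℝ) * (2 * lam * D) ≤ e * (x * (1 - x ^ D)) :=
            mul_le_mul_of_nonneg_left A3 (by positivity)
          have h6 : x * ((e : ℝ) * (1 - x ^ D)) ≤ x * (D * (1 - x ^ e)) :=
            mul_le_mul_of_nonneg_left h4 hx0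
          have h7 : (D : ℝ) * (2 * (lam * e)) ≤ D * (x * (1 - x ^ e)) := by linarith
          have h8 := le_of_mul_le_mul_left h7 hD0
          linarith
        have : 0 ≤ lam * 12 := by positivity
        linarith

/-- the set in the definition of `LamO` is not empty -/
theorem LamO_nonempty (R : ℕ) (hR : 3 ≤ R) :
    {x : ℝ | ∃ (N : ℕ) (G : Fin (N - R) → SimpleGraph (Fin N)), Odd N ∧ R < N ∧
      Fam R N (N - R) G ∧ x = (∑ j, ((N : ℝ) - 1 - gammaT (G j))) / N}.Nonempty := by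
  obtain ⟨h0, hh0⟩ := odd_low (R - 1) (by omega) (Real.exp (-Lam (R - 1)) / 2)
    (by have := Real.exp_pos (-Lam (R - 1)); linarith)
  obtain ⟨h, hh⟩ : ∃ h, h = h0 + R + 1 := ⟨_, rfl⟩
  have h1 := hh0 h (by omega)
  have hn0 : (0 : ℝ) < ((2 * h : ℕ) : ℝ) := by exact_mod_cast (by omega : 0 < 2 * h)
  have h2 : (0 : ℝ) < (P (2 * h + 1) (2 * h - (R - 1)) : ℝ) := by
    refine lt_of_lt_of_le ?_ h1
    apply mul_pos _ (pow_pos hn0 _)
    have := Real.exp_pos (-Lam (R - 1))
    linarith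
  have h3 : P (2 * h + 1) (2 * h - (R - 1)) ≠ 0 := by
    intro h4
    rw [h4] at h2
    simp at h2
  have h5 : 2 * h - (R - 1) = 2 * h + 1 - R := by omega
  rw [h5] at h3
  rcases P_attained (2 * h + 1) (2 * h + 1 - R) with h6 | ⟨G, hG, _⟩
  · exact absurd h6 h3
  · exact ⟨_, 2 * h + 1, G, ⟨h, rfl⟩, by omega, fam_of_fac (by omega) (by omega) hG, rfl⟩

/-- lower bound for `LamO` from the numerical conditions -/
theorem LamO_ge (r q D : ℕ) (hq : 1 ≤ q) (hr : 3 ≤ r) (lam s x : ℝ) (hx : x = 1 - 1 / (q : ℝ))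
    (hs : 0 < s) (hl0 : 0 ≤ lam) (hlr : lam * ((r - 1 : ℕ) : ℝ) ≤ 1)
    (A1 : lam * ((r - 1 : ℕ) : ℝ) + s ≤ x * (1 - x ^ (r - 1))) (A2 : lam + s ≤ x * (1 - x))
    (A3 : 2 * lam * D ≤ x * (1 - x ^ D)) (A4 : 2 ≤ s * D) :
    lam * (((r - 1 : ℕ) : ℝ) - 12) ≤ LamO r := by
  apply le_csInf (LamO_nonempty r hr)
  rintro y ⟨N, G, hodd, hrN, hG, rfl⟩
  have hN0 : (0 : ℝ) < N := by exact_mod_cast (by omega : 0 < N)
  rw [le_div_iff₀ hN0]
  have h1 : ∀ j : Fin (N - r), lam * (((∑ v, (dg (G j) v - 1) : ℕ) : ℝ) - 12) ≤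
      (N : ℝ) - 1 - gammaT (G j) := by
    intro j
    have := per_graph (G j) (hG.min j) (by simpa using hodd) r q D hq (by omega)
      (fun v => (hG.le (by omega) j v).2) lam s x hx hs hl0 hlr A1 A2 A3 A4
    rwa [Fintype.card_fin] at this
  have h2 := Finset.sum_le_sum (fun j (_ : j ∈ univ) => h1 j)
  rw [← Finset.mul_sum, Finset.sum_sub_distrib, ← Nat.cast_sum, hG.total] at h2
  simp only [Finset.sum_const, Finset.card_univ, Fintype.card_fin, nsmul_eq_mul] at h2
  refine le_trans ?_ h2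
  have h3 : (((N - r : ℕ)) : ℝ) ≤ N := by exact_mod_cast (by omega : N - r ≤ N)
  push_cast
  have h4 : lam * ((((N - r : ℕ)) : ℝ) * 12) ≤ lam * (N * 12) :=
    mul_le_mul_of_nonneg_left (by linarith) hl0
  nlinarith

/-- the numbers -/
theorem numq (ε : ℝ) (hε0 : 0 < ε) (hε1 : ε < 1) : ∃ R0 : ℕ, ∀ R : ℕ, R0 ≤ R →
    9 ≤ R ∧ 80 / ε ≤ Real.log R ∧ Real.log R / R ≤ 1 / 16 ∧ ∃ q : ℕ, 1 ≤ q ∧
      1 / (q : ℝ) ≤ (1 + ε) * (Real.log R / R) ∧ Real.log R / (R - 1) ≤ 1 / (q : ℝ) := by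
  have hlog : Filter.Tendsto (fun R : ℕ => Real.log (R : ℝ)) Filter.atTop Filter.atTop :=
    Real.tendsto_log_atTop.comp tendsto_natCast_atTop_atTop
  have hL := hlog.eventually_ge_atTop (80 / ε)
  have h1 := (isLittleO_log_rpow_atTop (show (0 : ℝ) < 1 / 2 by norm_num)).bound
    (show (0 : ℝ) < 1 by norm_num)
  have h2 : Filter.Tendsto (fun x : ℝ => x ^ (1 / 2 : ℝ)) Filter.atTop Filter.atTop :=
    tendsto_rpow_atTop (by norm_num)
  have h3 := h2.eventually_ge_atTop (32 / ε)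
  have h4 : ∀ᶠ R : ℕ in Filter.atTop, ‖Real.log (R : ℝ)‖ ≤ 1 * ‖(R : ℝ) ^ (1 / 2 : ℝ)‖ ∧
      32 / ε ≤ (R : ℝ) ^ (1 / 2 : ℝ) :=
    tendsto_natCast_atTop_atTop.eventually (h1.and h3)
  obtain ⟨B, hB⟩ := Filter.eventually_atTop.1 (hL.and h4)
  refine ⟨B + 9, fun R hR => ?_⟩
  obtain ⟨hl8, h5, h6⟩ := hB R (by omega)
  refine ⟨by omega, hl8, ?_⟩
  have hR1 : (1 : ℝ) ≤ R := by exact_mod_cast (by omega : 1 ≤ R)
  have hR0 : (0 : ℝ) < R := by linarith
  obtain ⟨l, hl⟩ : ∃ l, l = Real.log (R : ℝ) := ⟨_, rfl⟩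
  rw [← hl] at hl8 h5 ⊢
  obtain ⟨y, hy⟩ : ∃ y : ℝ, y = (R : ℝ) ^ (1 / 2 : ℝ) := ⟨_, rfl⟩
  have hy2 : y * y = R := by
    rw [hy, ← Real.rpow_add hR0]
    norm_num
  have hy0 : 0 < y := by rw [hy]; positivity
  have hl0 : 0 < l := lt_of_lt_of_le (by positivity) hl8
  rw [Real.norm_of_nonneg hl0.le, Real.norm_of_nonneg (by positivity), one_mul, ← hy] at h5
  rw [← hy] at h6
  rw [div_le_iff₀ hε0] at hl8 h6
  have h32 : 32 ≤ y := by nlinarith
  have hlR : l / R ≤ 1 / 16 := by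
    rw [div_le_iff₀ hR0, ← hy2]
    nlinarith
  refine ⟨hlR, ?_⟩
  -- `q`
  obtain ⟨t, ht⟩ : ∃ t : ℝ, t = ((R : ℝ) - 1) / l := ⟨_, rfl⟩
  have hR9 : (9 : ℝ) ≤ R := by exact_mod_cast (by omega : 9 ≤ R)
  have ht0 : 0 ≤ t := by rw [ht]; exact div_nonneg (by linarith) hl0.le
  obtain ⟨q, hq⟩ : ∃ q, q = ⌊t⌋₊ := ⟨_, rfl⟩
  have hqt : (q : ℝ) ≤ t := by rw [hq]; exact Nat.floor_le ht0
  have htq : t < (q : ℝ) + 1 := by rw [hq]; exact Nat.lt_floor_add_one t
  have hly : l * y ≤ R := by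
    calc l * y ≤ y * y := mul_le_mul_of_nonneg_right h5 hy0.le
      _ = R := hy2
  have htl : t * l = R - 1 := by rw [ht]; field_simp
  have hq1 : 1 ≤ q := by
    rw [hq]
    apply Nat.le_floor
    rw [ht, le_div_iff₀ hl0]
    push_cast
    nlinarith
  have hqR : (0 : ℝ) < q := by exact_mod_cast hq1
  refine ⟨q, hq1, ?_, ?_⟩
  · have h12 : (R : ℝ) ≤ (1 + ε) * l * q := by
      have h13 : (R : ℝ) - 1 - l ≤ q * l := by
        have := mul_le_mul_of_nonneg_right htq.le hl0.le
        linarith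
      have h14 : (1 + ε) * ((R : ℝ) - 1 - l) ≤ (1 + ε) * (q * l) :=
        mul_le_mul_of_nonneg_left h13 (by linarith)
      have h15 : (R : ℝ) ≤ (1 + ε) * ((R : ℝ) - 1 - l) := by
        have h16 : 32 * y ≤ ε * R := by
          calc 32 * y ≤ (y * ε) * y := mul_le_mul_of_nonneg_right h6 hy0.le
            _ = ε * (y * y) := by ring
            _ = ε * R := by rw [hy2]
        nlinarith
      calc (R : ℝ) ≤ (1 + ε) * ((R : ℝ) - 1 - l) := h15
        _ ≤ (1 + ε) * (q * l) := h14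
        _ = (1 + ε) * l * q := by ring
    rw [mul_div_assoc', div_le_div_iff₀ hqR hR0]
    linarith
  · rw [div_le_div_iff₀ (by linarith) hqR, one_mul, ← htl, mul_comm l]
    exact mul_le_mul_of_nonneg_right hqt hl0.le

/-- the upper half for `LamO` -/
theorem upper_halfO (ε : ℝ) (hε0 : 0 < ε) (hε1 : ε ≤ 1 / 4) : ∃ R0 : ℕ, ∀ R : ℕ, R0 ≤ R →
    1 - LamO R ≤ (1 + 4 * ε) * (Real.log R / R) := by
  obtain ⟨R0, hR0⟩ := numq ε hε0 (by linarith)
  refine ⟨R0, fun R hR => ?_⟩
  obtain ⟨hR9, hl80, hlR, q, hq1, hqu, hql⟩ := hR0 R hR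
  obtain ⟨l, hl⟩ : ∃ l, l = Real.log (R : ℝ) := ⟨_, rfl⟩
  rw [← hl] at hl80 hlR hqu hql ⊢
  rw [div_le_iff₀ hε0] at hl80
  have hR9' : (9 : ℝ) ≤ R := by exact_mod_cast hR9
  have hRp : (0 : ℝ) < R := by linarith
  have hqR : (0 : ℝ) < q := by exact_mod_cast hq1
  have hl320 : 320 ≤ l := by nlinarith
  obtain ⟨b, hb⟩ : ∃ b : ℝ, b = l / R := ⟨_, rfl⟩
  rw [← hb] at hlR hqu ⊢
  have hb0 : 0 < b := by rw [hb]; positivity
  have hbR : b * R = l := by rw [hb]; field_simp
  have hR1c : (((R - 1 : ℕ)) : ℝ) = (R : ℝ) - 1 := by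
    rw [Nat.cast_sub (by omega)]; simp
  have hR1p : (0 : ℝ) < (R : ℝ) - 1 := by linarith
  -- `x`
  obtain ⟨x, hx⟩ : ∃ x : ℝ, x = 1 - 1 / (q : ℝ) := ⟨_, rfl⟩
  have hq8 : 1 / (q : ℝ) ≤ 1 / 8 := by nlinarith
  have hx0 : 0 ≤ x := by rw [hx]; linarith
  have hx78 : 7 / 8 ≤ x := by rw [hx]; linarith
  have hx1 : x ≤ 1 := by
    rw [hx]
    have : 0 < 1 / (q : ℝ) := by positivity
    linarith
  have hxe : ∀ m : ℕ, x ^ m ≤ Real.exp (-(m * (l / (R - 1)))) := by
    intro m
    have h9 : x ≤ Real.exp (-(1 / (q : ℝ))) := by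
      have := Real.add_one_le_exp (-(1 / (q : ℝ)))
      rw [hx]
      linarith
    calc x ^ m ≤ Real.exp (-(1 / (q : ℝ))) ^ m := pow_le_pow_left₀ hx0 h9 _
      _ = Real.exp ((m : ℝ) * -(1 / (q : ℝ))) := by rw [← Real.exp_nat_mul]
      _ ≤ _ := by
          apply Real.exp_le_exp.2
          have := mul_le_mul_of_nonneg_left hql (by positivity : (0 : ℝ) ≤ m)
          linarith
  have hxR : x ^ (R - 1) ≤ 1 / R := by
    have h1 := hxe (R - 1)
    rw [hR1c] at h1
    have h2 : ((R : ℝ) - 1) * (l / (R - 1)) = l := by field_simp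
    rw [h2, Real.exp_neg, hl, Real.exp_log hRp, ← one_div] at h1
    exact h1
  have h1R : 1 / (R : ℝ) ≤ ε * b := by
    rw [div_le_iff₀ hRp, mul_assoc, hbR]
    linarith
  -- `lam`, `s`, `D`
  obtain ⟨lam, hlam⟩ : ∃ lam : ℝ, lam = (1 - (1 + 3 * ε) * b) / (R - 1) := ⟨_, rfl⟩
  have hnum0 : 0 ≤ 1 - (1 + 3 * ε) * b := by nlinarith
  have hl0 : 0 ≤ lam := by rw [hlam]; exact div_nonneg hnum0 hR1p.le
  have hlr : lam * ((R : ℝ) - 1) = 1 - (1 + 3 * ε) * b := by rw [hlam]; field_simp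
  have hlam1 : lam * ((R : ℝ) - 1) ≤ 1 := by
    rw [hlr]
    have : 0 ≤ (1 + 3 * ε) * b := by positivity
    linarith
  have hlam2 : lam ≤ 2 / R := by
    rw [le_div_iff₀ hRp]
    nlinarith
  obtain ⟨D, hD⟩ : ∃ D : ℕ, D = R / 4 := ⟨_, rfl⟩
  have hD1 : (R : ℝ) - 3 ≤ 4 * D := by
    have : R ≤ 4 * D + 3 := by omega
    have h : (R : ℝ) ≤ 4 * D + 3 := by exact_mod_cast this
    linarith
  have hD2 : 4 * (D : ℝ) ≤ R := by
    have : 4 * D ≤ R := by omega
    exact_mod_cast this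
  have hD8 : ((R : ℝ) - 1) / 8 ≤ D := by linarith
  have hxD : x ^ D ≤ 1 / 8 := by
    have h1 := hxe D
    have h2 : 1 / 8 * l ≤ (D : ℝ) * (l / (R - 1)) := by
      calc 1 / 8 * l = ((R : ℝ) - 1) / 8 * (l / (R - 1)) := by field_simp
        _ ≤ D * (l / (R - 1)) := mul_le_mul_of_nonneg_right hD8 (by positivity)
    have h3 : Real.exp (-((D : ℝ) * (l / (R - 1)))) ≤ Real.exp (-40) :=
      Real.exp_le_exp.2 (by linarith)
    have h4 : Real.exp (-40) ≤ 1 / 8 := by
      rw [Real.exp_neg]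
      have h5 := Real.add_one_le_exp (40 : ℝ)
      rw [inv_le_comm₀ (Real.exp_pos _) (by norm_num)]
      norm_num
      linarith
    linarith
  have A1 : lam * ((R - 1 : ℕ) : ℝ) + ε * b ≤ x * (1 - x ^ (R - 1)) := by
    rw [hR1c, hlr]
    have h20 : x * x ^ (R - 1) ≤ 1 * x ^ (R - 1) :=
      mul_le_mul_of_nonneg_right hx1 (pow_nonneg hx0 _)
    have h21 : 1 - x = 1 / (q : ℝ) := by rw [hx]; ring
    nlinarith
  have A2 : lam + ε * b ≤ x * (1 - x) := by
    have h21 : 1 - x = 1 / (q : ℝ) := by rw [hx]; ring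
    rw [h21]
    have h22 : b ≤ 1 / (q : ℝ) := by
      refine le_trans ?_ hql
      rw [hb]
      exact div_le_div_of_nonneg_left (by linarith) hR1p (by linarith)
    have h23 : 7 / 8 * b ≤ x * (1 / (q : ℝ)) := mul_le_mul hx78 h22 hb0.le hx0
    have h24 : 2 / (R : ℝ) ≤ 1 / 8 * b := by
      rw [div_le_iff₀ hRp, mul_assoc, hbR]
      linarith
    nlinarith
  have A3 : 2 * lam * D ≤ x * (1 - x ^ D) := by
    have h30 : 2 * lam * D ≤ 9 / 16 := by
      have h31 : 4 * (2 * lam * D) ≤ 2 * lam * R := by nlinarith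
      have h32 : lam * R ≤ 9 / 8 := by
        have : lam * R = lam * ((R : ℝ) - 1) + lam := by ring
        have h33 : 2 / (R : ℝ) ≤ 1 / 8 * b := by
          rw [div_le_iff₀ hRp, mul_assoc, hbR]
          linarith
        linarith
      linarith
    have h34 : 7 / 8 * (7 / 8) ≤ x * (1 - x ^ D) :=
      mul_le_mul hx78 (by linarith) (by norm_num) hx0
    linarith
  have A4 : 2 ≤ ε * b * D := by
    have h40 : ε * b * (((R : ℝ) - 1) / 8) ≤ ε * b * D :=
      mul_le_mul_of_nonneg_left hD8 (by positivity)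
    have h41 : ε * b * (((R : ℝ) - 1) / 8) = (ε * (b * R) - ε * b) / 8 := by ring
    rw [h41, hbR] at h40
    nlinarith
  have hfin := LamO_ge R q D hq1 (by omega) lam (ε * b) x hx (by positivity) hl0
    (by rw [hR1c]; exact hlam1) A1 A2 A3 A4
  rw [hR1c] at hfin
  -- `12 lam ≤ ε b`
  have h50 : 12 * lam ≤ ε * b := by
    have h51 : 12 * lam ≤ 24 / R := by
      have : (24 : ℝ) / R = 12 * (2 / R) := by ring
      rw [this]
      linarith
    have h52 : (24 : ℝ) / R ≤ ε * b := by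
      rw [div_le_iff₀ hRp, mul_assoc, hbR]
      linarith
    linarith
  nlinarith

/-- the lower half for `LamO` -/
theorem lower_halfO (hO : Stmt_TND) (ε : ℝ) (hε0 : 0 < ε) (hε1 : ε < 1) :
    ∃ R0 : ℕ, ∀ R : ℕ, R0 ≤ R → (1 - ε) * (Real.log R / R) ≤ 1 - LamO R := by
  obtain ⟨R0, hR0⟩ := lower_half ε hε0 hε1
  refine ⟨R0 + 5, fun R hR => ?_⟩
  obtain ⟨r, rfl⟩ : ∃ r, R = r + 1 := ⟨R - 1, by omega⟩
  have h1 := hR0 r (by omega)
  have h2 := LamO_le hO r (by omega)
  have hr4 : (4 : ℝ) ≤ r := by exact_mod_cast (by omega : 4 ≤ r)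
  have h3 : Real.log ((r + 1 : ℕ) : ℝ) / ((r + 1 : ℕ) : ℝ) ≤ Real.log r / r := by
    apply Real.log_div_self_antitoneOn
    · have := Real.exp_one_lt_d9
      show Real.exp 1 ≤ (r : ℝ)
      linarith
    · have := Real.exp_one_lt_d9
      show Real.exp 1 ≤ ((r + 1 : ℕ) : ℝ)
      push_cast
      linarith
    · push_cast
      linarith
  have h4 := mul_le_mul_of_nonneg_left h3 (by linarith : 0 ≤ 1 - ε)
  linarith

/-- `1 - LamO R` is asymptotic to `log R / R`. -/
theorem LamO_asymp (hO : Stmt_TND) :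
    Filter.Tendsto (fun R : ℕ => (1 - LamO R) / (Real.log R / R)) Filter.atTop (nhds 1) := by
  rw [Metric.tendsto_atTop]
  intro ε hε
  obtain ⟨δ, hδ⟩ : ∃ δ : ℝ, δ = min (ε / 8) (1 / 4) := ⟨_, rfl⟩
  have hδ0 : 0 < δ := by rw [hδ]; positivity
  have hδ1 : δ ≤ 1 / 4 := by rw [hδ]; exact min_le_right _ _
  have hδε : δ ≤ ε / 8 := by rw [hδ]; exact min_le_left _ _
  obtain ⟨R1, hR1⟩ := lower_halfO hO δ hδ0 (by linarith)
  obtain ⟨R2, hR2⟩ := upper_halfO δ hδ0 hδ1
  refine ⟨R1 + R2 + 2, fun R hR => ?_⟩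
  have h1 := hR1 R (by omega)
  have h2 := hR2 R (by omega)
  have hRR : (1 : ℝ) < R := by exact_mod_cast (by omega : 1 < R)
  have hpos : 0 < Real.log R / R := div_pos (Real.log_pos hRR) (by linarith)
  rw [Real.dist_eq, abs_lt]
  constructor
  · have : 1 - δ ≤ (1 - LamO R) / (Real.log R / R) := by
      rw [le_div_iff₀ hpos]
      exact h1
    linarith
  · have : (1 - LamO R) / (Real.log R / R) ≤ 1 + 4 * δ := by
      rw [div_le_iff₀ hpos]
      exact h2
    linarith

end Pool.Agent.Work.MP_1ce445_topR
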