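import Pool.Agent.Work.MP_1ce445_oddR.Interface
import Pool.Agent.Work.MP_1ce445_co_56.Odd
import Pool.Agent.Work.MP_1ce445_n3odd.End

/-!
MP_1ce445_co: `LamO 2 = LamO 3 = LamO 4 = 0` (helper23).
-/

namespace Pool.Agent.Work.MP_1ce445_topR

open Finset Pool.Agent.Work.MP_1ce445_co_56 Pool.Agent.Work.MP_1ce445_oddR

theorem LamO_zero (hO : Stmt_TND) (r : ℕ) (hr : 2 ≤ r)
    (h : Filter.Tendsto (fun h : ℕ => (P (2 * h + 1) (2 * h + 1 - r) : ℝ) /
      (((2 * h : ℕ) : ℝ)) ^ (2 * h + 1 - r)) Filter.atTop (nhds 1)) : LamO r = 0 := by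
  have h1 := tendsto_nhds_unique (hO r hr) h
  rw [Real.exp_eq_one_iff] at h1
  linarith

theorem LamO_two (hO : Stmt_TND) : LamO 2 = 0 := by
  apply LamO_zero hO 2 le_rfl
  refine tendsto_const_nhds.congr' ?_
  rw [Filter.EventuallyEq, Filter.eventually_atTop]
  refine ⟨3, fun h hh => ?_⟩
  rw [odd_value (by omega) ⟨h, rfl⟩]
  have h1 : 2 * h + 1 - 1 = 2 * h := by omega
  rw [h1, Nat.cast_pow, div_self]
  apply pow_ne_zero
  exact_mod_cast (by omega : 2 * h ≠ 0)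

theorem LamO_three (hO : Stmt_TND) : LamO 3 = 0 := by
  apply LamO_zero hO 3 (by omega)
  refine tendsto_const_nhds.congr' ?_
  rw [Filter.EventuallyEq, Filter.eventually_atTop]
  refine ⟨4, fun h hh => ?_⟩
  rw [Pool.Agent.Work.MP_1ce445_n3odd.h_odd3 (by omega) ⟨h, rfl⟩]
  have h1 : 2 * h + 1 - 1 = 2 * h := by omega
  rw [h1, Nat.cast_pow, div_self]
  apply pow_ne_zero
  exact_mod_cast (by omega : 2 * h ≠ 0)

theorem LamO_four (hO : Stmt_TND) : LamO 4 = 0 := by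
  apply LamO_zero hO 4 (by omega)
  have h0 : Filter.Tendsto (fun h : ℕ => 1 - 1 / (h : ℝ)) Filter.atTop (nhds (1 - 0)) :=
    tendsto_const_nhds.sub (tendsto_const_div_atTop_nhds_zero_nat 1)
  rw [sub_zero] at h0
  refine h0.congr' ?_
  rw [Filter.EventuallyEq, Filter.eventually_atTop]
  refine ⟨6, fun h hh => ?_⟩
  rw [Pool.Agent.Work.MP_1ce445_n3odd.h_odd4 (by omega) ⟨h, rfl⟩]
  have h1 : 2 * h + 1 - 1 = 2 * h := by omega
  have h2 : 2 * h + 1 - 4 = (2 * h + 1 - 5) + 1 := by omega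
  have h3 : 2 * h + 1 - 3 = 2 * h - 2 := by omega
  have h4 : (((2 * h - 2 : ℕ)) : ℝ) = ((2 * h : ℕ) : ℝ) - 2 := by
    rw [Nat.cast_sub (by omega)]
    norm_num
  have h5 : ((2 * h : ℕ) : ℝ) ≠ 0 := by exact_mod_cast (by omega : 2 * h ≠ 0)
  have h6 : (h : ℝ) ≠ 0 := by exact_mod_cast (by omega : h ≠ 0)
  rw [h1, h3, Nat.cast_mul, Nat.cast_pow, h2, pow_succ, h4, mul_div_mul_left _ _ (pow_ne_zero _ h5)]
  push_cast
  field_simp

end Pool.Agent.Work.MP_1ce445_topR
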