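import Pool.Agent.Work.MP_1ce445_topR.Ran2

/-!
MP_1ce445_co: `1 - Lam R` is asymptotic to `log R / R` (helper23).
-/

namespace Pool.Agent.Work.MP_1ce445_topR

open Finset Pool.Agent.Work.MP_1ce445_co_56 Pool.Agent.Work.MP_1ce445_lin
  Pool.Agent.Work.MP_1ce445_top

/-- the growth condition -/
theorem grow (δ : ℝ) (hδ : 0 < δ) (k : ℕ) : ∃ B : ℕ, 3 ≤ B ∧ ∀ b : ℕ, B ≤ b →
    (k : ℝ) ^ 2 * (Real.log b) ^ 2 * ((k : ℝ) * (Real.log b) ^ 2 + 2) ≤ (b : ℝ) ^ δ := by
  have h1 := (isLittleO_log_rpow_atTop (show 0 < δ / 5 by linarith)).bound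
    (show (0 : ℝ) < 1 by norm_num)
  have h2 : Filter.Tendsto (fun x : ℝ => x ^ (δ / 5)) Filter.atTop Filter.atTop :=
    tendsto_rpow_atTop (by linarith)
  have h3 := h2.eventually_ge_atTop ((k : ℝ) ^ 3 + 2 * (k : ℝ) ^ 2)
  have h4 : ∀ᶠ b : ℕ in Filter.atTop, ‖Real.log (b : ℝ)‖ ≤ 1 * ‖(b : ℝ) ^ (δ / 5)‖ ∧
      (k : ℝ) ^ 3 + 2 * (k : ℝ) ^ 2 ≤ (b : ℝ) ^ (δ / 5) :=
    tendsto_natCast_atTop_atTop.eventually (h1.and h3)
  obtain ⟨B, hB⟩ := Filter.eventually_atTop.1 h4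
  refine ⟨B + 3, by omega, fun b hb => ?_⟩
  obtain ⟨h5, h6⟩ := hB b (by omega)
  have hb1 : (1 : ℝ) ≤ b := by exact_mod_cast (by omega : 1 ≤ b)
  have hb0 : (0 : ℝ) ≤ b := by linarith
  obtain ⟨y, hy⟩ : ∃ y : ℝ, y = (b : ℝ) ^ (δ / 5) := ⟨_, rfl⟩
  have hy1 : 1 ≤ y := by rw [hy]; exact Real.one_le_rpow hb1 (by linarith)
  have hlog0 : 0 ≤ Real.log b := Real.log_nonneg hb1
  rw [Real.norm_of_nonneg hlog0, Real.norm_of_nonneg (by positivity), one_mul, ← hy] at h5
  rw [← hy] at h6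
  have h7 : (b : ℝ) ^ δ = y ^ 5 := by
    rw [hy, ← Real.rpow_natCast, ← Real.rpow_mul hb0]
    congr 1
    push_cast
    ring
  rw [h7]
  have h8 : (Real.log b) ^ 2 ≤ y ^ 2 := pow_le_pow_left₀ hlog0 h5 2
  have hk0 : (0 : ℝ) ≤ k := by positivity
  calc (k : ℝ) ^ 2 * (Real.log b) ^ 2 * ((k : ℝ) * (Real.log b) ^ 2 + 2)
      ≤ (k : ℝ) ^ 2 * y ^ 2 * ((k : ℝ) * y ^ 2 + 2 * y ^ 2) := by
        apply mul_le_mul
        · exact mul_le_mul_of_nonneg_left h8 (by positivity)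
        · have h9 : (k : ℝ) * (Real.log b) ^ 2 ≤ k * y ^ 2 := mul_le_mul_of_nonneg_left h8 hk0
          have h10 : (1 : ℝ) ≤ y ^ 2 := one_le_pow₀ hy1
          linarith
        · positivity
        · positivity
    _ = ((k : ℝ) ^ 3 + 2 * (k : ℝ) ^ 2) * y ^ 4 := by ring
    _ ≤ y * y ^ 4 := mul_le_mul_of_nonneg_right h6 (by positivity)
    _ = y ^ 5 := by ring

/-- the sets exist -/
theorem exists_large (δ : ℝ) (hδ0 : 0 < δ) (hδ1 : δ < 1) (k : ℕ) (hk : 1 ≤ k) :
    ∃ R0 : ℕ, ∀ R : ℕ, R0 ≤ R →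
      Lam R ≤ 1 - (1 - δ) * k * Real.log ((k + 2) * R) / ((k + 2) * R) := by
  obtain ⟨B, hB3, hB⟩ := grow δ hδ0 k
  have hk0 : (1 : ℝ) ≤ k := by exact_mod_cast hk
  -- the Chernoff constants
  obtain ⟨z, hz⟩ : ∃ z : ℝ, z = 1 - 1 / (2 * ((k : ℝ) + 2)) := ⟨_, rfl⟩
  have ht : 1 / (2 * ((k : ℝ) + 2)) ≤ 1 / 6 := one_div_le_one_div_of_le (by norm_num) (by linarith)
  have ht0 : 0 < 1 / (2 * ((k : ℝ) + 2)) := by positivity
  have hz0 : 0 < z := by rw [hz]; linarith
  have hz1 : z ≤ 1 := by rw [hz]; linarith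
  have hzk : ((k : ℝ) + z) / (k + 1) < 1 := by
    rw [div_lt_one (by linarith)]
    rw [hz]
    linarith
  have hw : (((k : ℝ) + z) / (k + 1)) ^ (k + 2) < z := by
    obtain ⟨u, hu⟩ : ∃ u : ℝ, u = 1 / (2 * ((k : ℝ) + 2)) / (k + 1) := ⟨_, rfl⟩
    have hu0 : 0 < u := by rw [hu]; positivity
    have e1 : ((k : ℝ) + z) / (k + 1) = 1 - u := by
      rw [hz, hu]
      field_simp
      ring
    have h1 : 1 + ((k + 2 : ℕ) : ℝ) * u ≤ (1 + u) ^ (k + 2) :=
      one_add_mul_le_pow (by linarith) (k + 2)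
    have hu1 : u < 1 := by
      have h0 : 0 < ((k : ℝ) + z) / (k + 1) := by positivity
      rw [e1] at h0
      linarith
    have h2 : (1 - u) ^ (k + 2) * (1 + u) ^ (k + 2) ≤ 1 := by
      rw [← mul_pow]
      apply pow_le_one₀
      · nlinarith
      · nlinarith
    have h3 : 0 < (1 - u) ^ (k + 2) := pow_pos (by linarith) _
    have h4 : (1 - u) ^ (k + 2) * (1 + ((k + 2 : ℕ) : ℝ) * u) ≤ 1 :=
      (mul_le_mul_of_nonneg_left h1 h3.le).trans h2
    -- `z (1 + (k + 2) u) > 1`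
    have h5 : 1 < z * (1 + ((k + 2 : ℕ) : ℝ) * u) := by
      have e2 : ((k + 2 : ℕ) : ℝ) * u = 1 / (2 * ((k : ℝ) + 1)) := by
        rw [hu]
        push_cast
        field_simp
      rw [e2, hz]
      have e3 : (1 - 1 / (2 * ((k : ℝ) + 2))) * (1 + 1 / (2 * ((k : ℝ) + 1))) - 1 =
          1 / (4 * ((k : ℝ) + 1) * (k + 2)) := by
        field_simp
        ring
      have e4 : 0 < 1 / (4 * ((k : ℝ) + 1) * (k + 2)) := by positivity
      linarith
    rw [e1]
    by_contra hn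
    push Not at hn
    have h6 : 0 < 1 + ((k + 2 : ℕ) : ℝ) * u := by positivity
    have h7 := mul_le_mul_of_nonneg_right hn h6.le
    linarith
  have hw0 : 0 ≤ (((k : ℝ) + z) / (k + 1)) ^ (k + 2) / z := by positivity
  have hw1 : (((k : ℝ) + z) / (k + 1)) ^ (k + 2) / z < 1 := by
    rw [div_lt_one hz0]
    exact hw
  obtain ⟨R1, hR1⟩ := exists_pow_lt_of_lt_one (show (0 : ℝ) < 1 / 2 by norm_num) hw1
  refine ⟨B + R1 + 9, fun R hR => ?_⟩
  obtain ⟨b, hb⟩ : ∃ b, b = (k + 2) * R := ⟨_, rfl⟩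
  have hbR : R ≤ b := by rw [hb]; exact Nat.le_mul_of_pos_left _ (by omega)
  have hb3 : 9 ≤ b := by omega
  have hb1 : (1 : ℝ) ≤ b := by exact_mod_cast (by omega : 1 ≤ b)
  have hb0 : (0 : ℝ) < b := by linarith
  have : NeZero b := ⟨by omega⟩
  have hgrow := hB b (by omega)
  obtain ⟨l, hl⟩ : ∃ l, l = Real.log b := ⟨_, rfl⟩
  rw [← hl] at hgrow
  have hl1 : 1 ≤ l := by
    rw [hl, Real.le_log_iff_exp_le hb0]
    have h9 : (9 : ℝ) ≤ b := by exact_mod_cast hb3
    linarith [Real.exp_one_lt_d9]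
  obtain ⟨x, hx⟩ : ∃ x : ℝ, x = (1 - δ) * k * l := ⟨_, rfl⟩
  have hx0 : 0 ≤ x := by rw [hx]; have : 0 ≤ 1 - δ := by linarith
                         positivity
  obtain ⟨g, hg⟩ : ∃ g, g = ⌊x⌋₊ := ⟨_, rfl⟩
  have hgx : (g : ℝ) ≤ x := by rw [hg]; exact Nat.floor_le hx0
  have hxg : x < (g : ℝ) + 1 := by rw [hg]; exact Nat.lt_floor_add_one x
  have hxk : x ≤ k * l := by
    rw [hx]
    have : (1 - δ) * k ≤ 1 * k := mul_le_mul_of_nonneg_right (by linarith) (by linarith)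
    have := mul_le_mul_of_nonneg_right this (by linarith : 0 ≤ l)
    linarith
  have hcast : ((k : ℝ) + 2) * R = b := by rw [hb]; push_cast; ring
  rw [hcast, ← hl, ← hx]
  -- it is enough to treat the bound with `g + 1`
  have hmain : Lam R ≤ 1 - ((g : ℝ) + 1) / b → Lam R ≤ 1 - x / b := by
    intro h
    have : x / b ≤ ((g : ℝ) + 1) / b := div_le_div_of_nonneg_right hxg.le hb0.le
    linarith
  apply hmain
  have hbδ : (b : ℝ) ^ δ ≤ b := by
    calc (b : ℝ) ^ δ ≤ (b : ℝ) ^ (1 : ℝ) := Real.rpow_le_rpow_of_exponent_le hb1 hδ1.le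
      _ = b := Real.rpow_one _
  have hg2 : (g : ℝ) * g * (k * l ^ 2 + 2) ≤ (b : ℝ) ^ δ := by
    have h1 : (g : ℝ) * g ≤ (k * l) * (k * l) :=
      mul_le_mul (hgx.trans hxk) (hgx.trans hxk) (by positivity) (by positivity)
    have h2 := mul_le_mul_of_nonneg_right h1 (by positivity : 0 ≤ (k : ℝ) * l ^ 2 + 2)
    have h3 : (k * l) * (k * l) * ((k : ℝ) * l ^ 2 + 2) =
        (k : ℝ) ^ 2 * l ^ 2 * ((k : ℝ) * l ^ 2 + 2) := by ring
    linarith
  rcases Nat.eq_zero_or_pos g with hg0 | hg1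
  · -- `g = 0`: trivial bound
    rw [hg0]
    have h1 := Lam_le_top R (by omega)
    have hR0 : (0 : ℝ) < R := by exact_mod_cast (by omega : 0 < R)
    have h2 : ((R : ℝ) - 1) / (R + 1) ≤ 1 - (((0 : ℕ) : ℝ) + 1) / b := by
      have h3 : (((0 : ℕ) : ℝ) + 1) / b ≤ 2 / (R + 1) := by
        have hRb : (R : ℝ) ≤ b := by exact_mod_cast hbR
        have h4 : (3 : ℝ) * R ≤ b := by
          rw [← hcast]
          exact mul_le_mul_of_nonneg_right (by linarith) hR0.le
        rw [div_le_div_iff₀ hb0 (by linarith)]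
        push_cast
        linarith
      have h5 : ((R : ℝ) - 1) / (R + 1) = 1 - 2 / (R + 1) := by
        field_simp
        ring
      linarith
    linarith
  · have hgb : g ≤ b := by
      have h1 : (g : ℝ) * g ≤ b := by
        have h2 : (g : ℝ) * g * 1 ≤ (g : ℝ) * g * (k * l ^ 2 + 2) := by
          apply mul_le_mul_of_nonneg_left _ (by positivity)
          have : 0 ≤ (k : ℝ) * l ^ 2 := by positivity
          linarith
        linarith
      have h3 : g * g ≤ b := by exact_mod_cast h1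
      exact (Nat.le_mul_self g).trans h3
    obtain ⟨S, hS1, hS2⟩ := exists_set k R g b z hz0 hz1 hg1 hgb (by
      -- Chernoff
      have h1 : ((((k : ℝ) + z) / (k + 1)) ^ (k + 2) / z) ^ R < 1 / 2 :=
        lt_of_le_of_lt (pow_le_pow_of_le_one hw0 hw1.le (by omega)) hR1
      have hkk : (0 : ℝ) < (k : ℝ) + 1 := by linarith
      rw [div_pow, ← pow_mul, div_pow, ← hb, div_div, div_lt_iff₀ (by positivity)] at h1
      have h2 : 2 * ((k : ℝ) + z) ^ b < 2 * (1 / 2 * (((k : ℝ) + 1) ^ b * z ^ R)) := by linarith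
      calc 2 * ((k : ℝ) + z) ^ b < 2 * (1 / 2 * (((k : ℝ) + 1) ^ b * z ^ R)) := h2
        _ = z ^ R * ((k : ℝ) + 1) ^ b := by ring) (by
      -- the union bound
      obtain ⟨p, hp⟩ : ∃ p : ℝ, p = ((k : ℝ) / (k + 1)) ^ g := ⟨_, rfl⟩
      rw [← hp]
      have hp1 : p ≤ 1 := by
        rw [hp]
        apply pow_le_one₀ (by positivity)
        rw [div_le_one (by linarith)]
        linarith
      -- `p ≥ exp (-(1 - δ) l)`
      have hpl : Real.exp (-((1 - δ) * l)) ≤ p := by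
        have h1 : Real.exp (-(1 / (k : ℝ))) ≤ (k : ℝ) / (k + 1) := by
          rw [Real.exp_neg, inv_le_comm₀ (Real.exp_pos _) (by positivity)]
          have h2 := Real.add_one_le_exp (1 / (k : ℝ))
          have h3 : ((k : ℝ) / (k + 1))⁻¹ = 1 / (k : ℝ) + 1 := by
            field_simp
            ring
          rw [h3]
          exact h2
        have h4 : Real.exp (-(1 / (k : ℝ))) ^ g ≤ p := by
          rw [hp]
          exact pow_le_pow_left₀ (Real.exp_pos _).le h1 g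
        refine le_trans ?_ h4
        rw [← Real.exp_nat_mul]
        apply Real.exp_le_exp.2
        have h5 : (g : ℝ) * (1 / k) ≤ (1 - δ) * l := by
          rw [mul_one_div, div_le_iff₀ (by linarith)]
          rw [hx] at hgx
          linarith
        linarith
      have hbδ2 : Real.exp (-((1 - δ) * l)) * b = (b : ℝ) ^ δ := by
        have h1 : (b : ℝ) = Real.exp l := by rw [hl, Real.exp_log hb0]
        rw [Real.rpow_def_of_pos hb0, ← hl]
        nth_rewrite 1 [h1]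
        rw [← Real.exp_add]
        congr 1
        ring
      -- exponent
      obtain ⟨M, hM⟩ : ∃ M, M = b / (g * g) := ⟨_, rfl⟩
      rw [← hM]
      have hgg : 0 < g * g := Nat.mul_pos hg1 hg1
      have hM1 : (b : ℝ) < ((M : ℝ) + 1) * ((g : ℝ) * g) := by
        have h1 : b < (M + 1) * (g * g) := by
          rw [hM, mul_comm]
          exact Nat.lt_mul_div_succ b hgg
        exact_mod_cast h1
      have hpM : g * l + 1 ≤ p * M := by
        have hggR : (0 : ℝ) < (g : ℝ) * g := by exact_mod_cast hgg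
        have hp0 : 0 ≤ p := by rw [hp]; positivity
        have h1 : p * b ≤ p * (((M : ℝ) + 1) * ((g : ℝ) * g)) :=
          mul_le_mul_of_nonneg_left hM1.le hp0
        have h2 : (b : ℝ) ^ δ ≤ p * b := by
          rw [← hbδ2]
          exact mul_le_mul_of_nonneg_right hpl hb0.le
        have h3 : (g : ℝ) * g * (k * l ^ 2 + 2) ≤ (g : ℝ) * g * (p * ((M : ℝ) + 1)) := by
          calc (g : ℝ) * g * (k * l ^ 2 + 2) ≤ (b : ℝ) ^ δ := hg2
            _ ≤ p * (((M : ℝ) + 1) * ((g : ℝ) * g)) := h2.trans h1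
            _ = (g : ℝ) * g * (p * ((M : ℝ) + 1)) := by ring
        have h4 := le_of_mul_le_mul_left h3 hggR
        have h5 : (g : ℝ) * l ≤ k * l ^ 2 := by
          have := mul_le_mul_of_nonneg_right (hgx.trans hxk) (by linarith : 0 ≤ l)
          calc (g : ℝ) * l ≤ k * l * l := this
            _ = k * l ^ 2 := by ring
        have h6 : p * ((M : ℝ) + 1) ≤ p * M + 1 := by
          rw [mul_add, mul_one]
          linarith
        linarith
      have h7 : (1 - p) ^ M ≤ Real.exp (-(p * M)) := by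
        have h8 : (1 - p) ≤ Real.exp (-p) := by
          have := Real.add_one_le_exp (-p)
          linarith
        calc (1 - p) ^ M ≤ Real.exp (-p) ^ M := pow_le_pow_left₀ (by linarith) h8 M
          _ = Real.exp (-(p * M)) := by
            rw [← Real.exp_nat_mul]
            congr 1
            ring
      have h8 : (b : ℝ) ^ g = Real.exp (g * l) := by
        rw [Real.exp_nat_mul, hl, Real.exp_log hb0]
      rw [h8]
      calc 2 * Real.exp (g * l) * (1 - p) ^ M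
          ≤ 2 * Real.exp (g * l) * Real.exp (-(p * M)) :=
            mul_le_mul_of_nonneg_left h7 (by positivity)
        _ = 2 * Real.exp (g * l + -(p * M)) := by rw [Real.exp_add]; ring
        _ ≤ 2 * Real.exp (-1) := by
            apply mul_le_mul_of_nonneg_left _ (by norm_num)
            apply Real.exp_le_exp.2
            linarith
        _ ≤ 1 := by
            rw [Real.exp_neg]
            have h9 : (2 : ℝ) ≤ Real.exp 1 := by
              have := Real.add_one_le_exp 1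
              linarith
            rw [← div_eq_mul_inv, div_le_one (Real.exp_pos _)]
            exact h9)
    exact Lam_le_set (by omega) S hS1 hS2

/-- the lower half -/
theorem lower_half (ε : ℝ) (hε0 : 0 < ε) (hε1 : ε < 1) : ∃ R0 : ℕ, ∀ R : ℕ, R0 ≤ R →
    (1 - ε) * (Real.log R / R) ≤ 1 - Lam R := by
  obtain ⟨k, hk⟩ := exists_nat_ge (4 / ε)
  have hk0 : (0 : ℝ) < k := lt_of_lt_of_le (by positivity) hk
  have hk1 : 1 ≤ k := by
    have : 0 < k := by exact_mod_cast hk0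
    omega
  rw [div_le_iff₀ hε0] at hk
  obtain ⟨R0, hR0⟩ := exists_large (ε / 2) (by linarith) (by linarith) k hk1
  refine ⟨R0 + 1, fun R hR => ?_⟩
  have h1 := hR0 R (by omega)
  have hRR : (0 : ℝ) < R := by exact_mod_cast (by omega : 0 < R)
  have hR1 : (1 : ℝ) ≤ R := by exact_mod_cast (by omega : 1 ≤ R)
  have hlog : Real.log R ≤ Real.log ((k + 2) * R) := by
    apply Real.log_le_log hRR
    nlinarith
  have hlog0 : 0 ≤ Real.log R := Real.log_nonneg hR1
  have h2 : (1 - ε) * (Real.log R / R) ≤ (1 - ε / 2) * k * Real.log ((k + 2) * R) / ((k + 2) * R) := by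
    have h3 : (1 - ε) * (k + 2) ≤ (1 - ε / 2) * k := by nlinarith
    have h4 : (1 - ε) * ((k : ℝ) + 2) * Real.log R ≤
        (1 - ε / 2) * k * Real.log ((k + 2) * R) := by
      have h5 : 0 ≤ (1 - ε / 2) * (k : ℝ) := mul_nonneg (by linarith) hk0.le
      exact (mul_le_mul_of_nonneg_right h3 hlog0).trans (mul_le_mul_of_nonneg_left hlog h5)
    have h6 : (1 - ε) * (Real.log R / R) =
        (1 - ε) * ((k : ℝ) + 2) * Real.log R / ((k + 2) * R) := by
      field_simp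
    rw [h6]
    exact div_le_div_of_nonneg_right h4 (by positivity)
  linarith

/-- the upper half -/
theorem upper_half (ε : ℝ) (hε0 : 0 < ε) (hε1 : ε < 1) : ∃ R0 : ℕ, ∀ R : ℕ, R0 ≤ R →
    1 - Lam R ≤ (1 + ε) * (Real.log R / R) := by
  -- conditions for large `R`
  have hlog : Filter.Tendsto (fun R : ℕ => Real.log (R : ℝ)) Filter.atTop Filter.atTop :=
    Real.tendsto_log_atTop.comp tendsto_natCast_atTop_atTop
  have hL := hlog.eventually_ge_atTop (8 / ε)
  have h1 := (isLittleO_log_rpow_atTop (show (0 : ℝ) < 1 / 2 by norm_num)).bound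
    (show (0 : ℝ) < 1 by norm_num)
  have h2 : Filter.Tendsto (fun x : ℝ => x ^ (1 / 2 : ℝ)) Filter.atTop Filter.atTop :=
    tendsto_rpow_atTop (by norm_num)
  have h3 := h2.eventually_ge_atTop (32 / ε)
  have h4 : ∀ᶠ R : ℕ in Filter.atTop, ‖Real.log (R : ℝ)‖ ≤ 1 * ‖(R : ℝ) ^ (1 / 2 : ℝ)‖ ∧
      32 / ε ≤ (R : ℝ) ^ (1 / 2 : ℝ) :=
    tendsto_natCast_atTop_atTop.eventually (h1.and h3)
  obtain ⟨B, hB⟩ := Filter.eventually_atTop.1 (hL.and h4)
  refine ⟨B + 9, fun R hR => ?_⟩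
  obtain ⟨hl8, h5, h6⟩ := hB R (by omega)
  have hR1 : (1 : ℝ) ≤ R := by exact_mod_cast (by omega : 1 ≤ R)
  have hR0 : (0 : ℝ) < R := by linarith
  obtain ⟨l, hl⟩ : ∃ l, l = Real.log (R : ℝ) := ⟨_, rfl⟩
  rw [← hl] at hl8 h5 ⊢
  obtain ⟨y, hy⟩ : ∃ y : ℝ, y = (R : ℝ) ^ (1 / 2 : ℝ) := ⟨_, rfl⟩
  have hy2 : y * y = R := by
    rw [hy, ← Real.rpow_add hR0]
    norm_num
  have hy0 : 0 < y := by rw [hy]; positivity
  have hl0 : 0 < l := lt_of_lt_of_le (by positivity) hl8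
  rw [Real.norm_of_nonneg hl0.le, Real.norm_of_nonneg (by positivity), one_mul, ← hy] at h5
  rw [← hy] at h6
  rw [div_le_iff₀ hε0] at hl8 h6
  -- `q`
  obtain ⟨t, ht⟩ : ∃ t : ℝ, t = ((R : ℝ) - 1) / l := ⟨_, rfl⟩
  have hR9 : (9 : ℝ) ≤ R := by exact_mod_cast (by omega : 9 ≤ R)
  have ht0 : 0 ≤ t := by rw [ht]; exact div_nonneg (by linarith) hl0.le
  obtain ⟨q, hq⟩ : ∃ q, q = ⌊t⌋₊ := ⟨_, rfl⟩
  have hqt : (q : ℝ) ≤ t := by rw [hq]; exact Nat.floor_le ht0
  have htq : t < (q : ℝ) + 1 := by rw [hq]; exact Nat.lt_floor_add_one t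
  -- `l ≤ y`, `32 ≤ ε y`
  have hly : l * y ≤ R := by
    calc l * y ≤ y * y := mul_le_mul_of_nonneg_right h5 hy0.le
      _ = R := hy2
  have htl : t * l = R - 1 := by rw [ht]; field_simp
  have hq1 : 1 ≤ q := by
    rw [hq]
    apply Nat.le_floor
    rw [ht, le_div_iff₀ hl0]
    push_cast
    have : 32 ≤ y := by nlinarith
    nlinarith
  have hqR : (0 : ℝ) < q := by exact_mod_cast hq1
  have h7 := ran_le_Lam R q hq1 (by omega)
  -- `x^(R-1) ≤ exp (-(R-1)/q) ≤ exp (-l) = 1/R`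
  obtain ⟨x, hx⟩ : ∃ x : ℝ, x = 1 - 1 / (q : ℝ) := ⟨_, rfl⟩
  rw [← hx] at h7
  have hq3 : 1 / (q : ℝ) ≤ 1 := by
    rw [div_le_one hqR]
    exact_mod_cast hq1
  have hx0 : 0 ≤ x := by rw [hx]; linarith
  have hx1 : x ≤ 1 := by
    rw [hx]
    have : 0 < 1 / (q : ℝ) := by positivity
    linarith
  have h8 : x ^ (R - 1) ≤ 1 / R := by
    have h9 : x ≤ Real.exp (-(1 / (q : ℝ))) := by
      have := Real.add_one_le_exp (-(1 / (q : ℝ)))
      rw [hx]
      linarith
    calc x ^ (R - 1) ≤ Real.exp (-(1 / (q : ℝ))) ^ (R - 1) := pow_le_pow_left₀ hx0 h9 _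
      _ = Real.exp (((R - 1 : ℕ) : ℝ) * -(1 / (q : ℝ))) := by rw [← Real.exp_nat_mul]
      _ ≤ Real.exp (-l) := by
          apply Real.exp_le_exp.2
          rw [Nat.cast_sub (by omega : 1 ≤ R), Nat.cast_one]
          have h10 : l ≤ ((R : ℝ) - 1) * (1 / q) := by
            rw [mul_one_div, le_div_iff₀ hqR, ← htl]
            have := mul_le_mul_of_nonneg_left hqt hl0.le
            linarith
          linarith
      _ = 1 / R := by
          rw [Real.exp_neg, hl, Real.exp_log hR0, one_div]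
  -- `1/q ≤ (1 + ε/2) l / R`
  have h11 : 1 / (q : ℝ) ≤ (1 + ε / 2) * (l / R) := by
    have h12 : (R : ℝ) ≤ (1 + ε / 2) * l * q := by
      have h13 : (R : ℝ) - 1 - l ≤ q * l := by
        have := mul_le_mul_of_nonneg_right htq.le hl0.le
        linarith
      have h14 : (1 + ε / 2) * ((R : ℝ) - 1 - l) ≤ (1 + ε / 2) * (q * l) :=
        mul_le_mul_of_nonneg_left h13 (by linarith)
      have h15 : (R : ℝ) ≤ (1 + ε / 2) * ((R : ℝ) - 1 - l) := by
        -- `ε R / 2 ≥ (1 + ε/2) (1 + l)`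
        have h16 : 32 * y ≤ ε * R := by
          calc 32 * y ≤ (y * ε) * y := mul_le_mul_of_nonneg_right h6 hy0.le
            _ = ε * (y * y) := by ring
            _ = ε * R := by rw [hy2]
        have h17 : 1 ≤ y := by nlinarith
        nlinarith
      calc (R : ℝ) ≤ (1 + ε / 2) * ((R : ℝ) - 1 - l) := h15
        _ ≤ (1 + ε / 2) * (q * l) := h14
        _ = (1 + ε / 2) * l * q := by ring
    rw [mul_div_assoc', div_le_div_iff₀ hqR hR0]
    linarith
  have h18 : 1 / (R : ℝ) ≤ ε / 2 * (l / R) := by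
    rw [mul_div_assoc', div_le_div_iff₀ hR0 hR0]
    have : 1 ≤ ε / 2 * l := by linarith
    have := mul_le_mul_of_nonneg_right this hR0.le
    linarith
  have h19 : 1 - x * (1 - x ^ (R - 1)) ≤ 1 / (q : ℝ) + 1 / R := by
    have h20 : x * x ^ (R - 1) ≤ 1 * x ^ (R - 1) :=
      mul_le_mul_of_nonneg_right hx1 (pow_nonneg hx0 _)
    have h21 : 1 - x = 1 / (q : ℝ) := by rw [hx]; ring
    nlinarith
  have h22 : (1 + ε) * (l / R) = (1 + ε / 2) * (l / R) + ε / 2 * (l / R) := by ring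
  linarith

/-- `1 - Lam R` is asymptotic to `log R / R`. -/
theorem Lam_asymp : Filter.Tendsto (fun R : ℕ => (1 - Lam R) / (Real.log R / R)) Filter.atTop
    (nhds 1) := by
  rw [Metric.tendsto_atTop]
  intro ε hε
  obtain ⟨δ, hδ⟩ : ∃ δ : ℝ, δ = min (ε / 2) (1 / 2) := ⟨_, rfl⟩
  have hδ0 : 0 < δ := by rw [hδ]; positivity
  have hδ1 : δ < 1 := by
    have : δ ≤ 1 / 2 := by rw [hδ]; exact min_le_right _ _
    linarith
  have hδε : δ < ε := by
    have : δ ≤ ε / 2 := by rw [hδ]; exact min_le_left _ _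
    linarith
  obtain ⟨R1, hR1⟩ := lower_half δ hδ0 hδ1
  obtain ⟨R2, hR2⟩ := upper_half δ hδ0 hδ1
  refine ⟨R1 + R2 + 2, fun R hR => ?_⟩
  have h1 := hR1 R (by omega)
  have h2 := hR2 R (by omega)
  have hRR : (1 : ℝ) < R := by exact_mod_cast (by omega : 1 < R)
  have hpos : 0 < Real.log R / R := div_pos (Real.log_pos hRR) (by linarith)
  rw [Real.dist_eq, abs_lt]
  constructor
  · have : 1 - δ ≤ (1 - Lam R) / (Real.log R / R) := by
      rw [le_div_iff₀ hpos]
      exact h1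
    linarith
  · have : (1 - Lam R) / (Real.log R / R) ≤ 1 + δ := by
      rw [div_le_iff₀ hpos]
      exact h2
    linarith

end Pool.Agent.Work.MP_1ce445_topR
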