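import Pool.Agent.Work.MP_1ce445_topR.Low
import Pool.Agent.Work.MP_1ce445_top.RAN
import Pool.Agent.Work.MP_1ce445_top.SUB

/-!
MP_1ce445_co: the corollaries of `topR` for the complete graph and for the bipartite complement of the Heawood
graph, and upper bounds for `P n (n - R)` (helper23).
-/

namespace Pool.Agent.Work.MP_1ce445_topR

open Finset Pool.Agent.Work.MP_1ce445_co_56 Pool.Agent.Work.MP_1ce445_lin
  Pool.Agent.Work.MP_1ce445_top

open Classical in
/-- `topR` with a lower bound `g` for the total domination number. -/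
theorem topR_ge {R b : ℕ} (hb : 0 < b) (H : SimpleGraph (Fin b))
    (hreg : ∀ x, (univ.filter (fun y => H.Adj x y)).card = R + 1) (g : ℕ) (hg : g ≤ gammaT H)
    (ε : ℝ) (hε : 0 < ε) :
    ∃ n0 : ℕ, ∀ n : ℕ, n0 ≤ n → Even n →
      (Real.exp (-(1 - (g : ℝ) / b)) - ε) * (n : ℝ) ^ (n - (R + 1)) ≤
        (P n (n - (R + 1)) : ℝ) := by
  obtain ⟨n0, h0⟩ := topR hb H hreg ε hε
  refine ⟨n0, fun n hn he => le_trans ?_ (h0 n hn he)⟩
  apply mul_le_mul_of_nonneg_right _ (by positivity)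
  have h1 : (g : ℝ) / b ≤ (gammaT H : ℝ) / b := by
    apply div_le_div_of_nonneg_right _ (by positivity)
    exact_mod_cast hg
  have h2 := Real.exp_le_exp.2 (by linarith : -(1 - (g : ℝ) / b) ≤ -(1 - (gammaT H : ℝ) / b))
  linarith

/-- The complete graph: `P n (n - R) ≥ (exp (-(R - 1) / (R + 1)) - ε) n ^ (n - R)` for large even `n`. -/
theorem clique (R : ℕ) (hR : 1 ≤ R) (ε : ℝ) (hε : 0 < ε) :
    ∃ n0 : ℕ, ∀ n : ℕ, n0 ≤ n → Even n →
      (Real.exp (-(((R : ℝ) - 1) / (R + 1))) - ε) * (n : ℝ) ^ (n - R) ≤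
        (P n (n - R) : ℝ) := by
  classical
  obtain ⟨r, rfl⟩ : ∃ r, R = r + 1 := ⟨R - 1, by omega⟩
  have hreg : ∀ x, (univ.filter (fun y => (⊤ : SimpleGraph (Fin (r + 2))).Adj x y)).card =
      r + 1 := by
    intro x
    have h1 : univ.filter (fun y => (⊤ : SimpleGraph (Fin (r + 2))).Adj x y) = univ.erase x := by
      ext y
      simp [eq_comm]
    rw [h1, Finset.card_erase_of_mem (mem_univ x), Finset.card_univ, Fintype.card_fin]
    omega
  have hg : 2 ≤ gammaT (⊤ : SimpleGraph (Fin (r + 2))) := by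
    obtain ⟨S, hS, hc⟩ := exists_tds (G := (⊤ : SimpleGraph (Fin (r + 2)))) (fun v => by
      have h0 : 0 < (univ.filter (fun y => (⊤ : SimpleGraph (Fin (r + 2))).Adj v y)).card := by
        rw [hreg v]; omega
      obtain ⟨w, hw⟩ := Finset.card_pos.1 h0
      exact ⟨w, (Finset.mem_filter.1 hw).2⟩)
    rw [← hc]
    obtain ⟨w, hw, _⟩ := hS 0
    obtain ⟨w', hw', ha⟩ := hS w
    have hne : w ≠ w' := ha.ne
    exact Finset.one_lt_card.2 ⟨w, hw, w', hw', hne⟩
  obtain ⟨n0, h0⟩ := topR_ge (R := r) (b := r + 2) (by omega) ⊤ (fun x => by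
    refine Eq.trans ?_ (hreg x)
    congr) 2 hg ε hε
  refine ⟨n0, fun n hn he => ?_⟩
  have h1 := h0 n hn he
  have h2 : (1 - ((2 : ℕ) : ℝ) / ((r + 2 : ℕ) : ℝ)) =
      (((r + 1 : ℕ) : ℝ) - 1) / (((r + 1 : ℕ) : ℝ) + 1) := by
    push_cast
    field_simp
    ring
  rw [h2] at h1
  exact h1

/-- the bipartite complement of the Heawood graph -/
def hea : SimpleGraph (Fin 14) where
  Adj x y := (x.val < 7 ∧ 7 ≤ y.val ∧ (y.val - x.val) % 7 ∈ ({1, 2, 3, 6} : Finset ℕ)) ∨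
    (y.val < 7 ∧ 7 ≤ x.val ∧ (x.val - y.val) % 7 ∈ ({1, 2, 3, 6} : Finset ℕ))
  symm := ⟨fun x y h => h.symm⟩
  loopless := ⟨fun x h => by
    rcases h with h | h <;> omega⟩

instance : DecidableRel hea.Adj := fun x y => by
  unfold hea
  infer_instance

set_option maxRecDepth 100000 in
theorem hea_reg : ∀ x, (univ.filter (fun y => hea.Adj x y)).card = 3 + 1 := by
  decide

set_option maxRecDepth 100000 in
theorem hea_two : ∀ y z : Fin 14, (∃ x : Fin 14, x.val < 7 ∧ ¬ hea.Adj x y ∧ ¬ hea.Adj x z) ∧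
    (∃ x : Fin 14, 7 ≤ x.val ∧ ¬ hea.Adj x y ∧ ¬ hea.Adj x z) := by
  decide

theorem hea_side {x y : Fin 14} (h : hea.Adj x y) :
    (x.val < 7 ↔ 7 ≤ y.val) := by
  rcases h with h | h <;> omega

theorem two_cover {α : Type} [DecidableEq α] [Nonempty α] (s : Finset α) (h : s.card ≤ 2) :
    ∃ y z, ∀ w ∈ s, w = y ∨ w = z := by
  obtain ⟨a⟩ := ‹Nonempty α›
  interval_cases hs : s.card
  · rw [Finset.card_eq_zero] at hs
    exact ⟨a, a, by simp [hs]⟩
  · obtain ⟨y, rfl⟩ := Finset.card_eq_one.1 hs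
    exact ⟨y, y, by simp⟩
  · obtain ⟨y, z, _, rfl⟩ := Finset.card_eq_two.1 hs
    exact ⟨y, z, by simp⟩

theorem hea_gamma : 6 ≤ gammaT hea := by
  classical
  obtain ⟨S, hS, hc⟩ := exists_tds (G := hea) (fun v => by
      have h0 : 0 < (univ.filter (fun y => hea.Adj v y)).card := by
        rw [hea_reg v]; omega
      obtain ⟨w, hw⟩ := Finset.card_pos.1 h0
      exact ⟨w, (Finset.mem_filter.1 hw).2⟩)
  rw [← hc]
  have h1 : 3 ≤ (S.filter (fun x => 7 ≤ x.val)).card := by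
    by_contra hn
    obtain ⟨y, z, hyz⟩ := two_cover (S.filter (fun x => 7 ≤ x.val)) (by omega)
    obtain ⟨x, hx, hxy, hxz⟩ := (hea_two y z).1
    obtain ⟨w, hw, ha⟩ := hS x
    have h7 := (hea_side ha).1 hx
    rcases hyz w (Finset.mem_filter.2 ⟨hw, h7⟩) with rfl | rfl
    · exact hxy ha
    · exact hxz ha
  have h2 : 3 ≤ (S.filter (fun x => ¬ 7 ≤ x.val)).card := by
    by_contra hn
    obtain ⟨y, z, hyz⟩ := two_cover (S.filter (fun x => ¬ 7 ≤ x.val)) (by omega)
    obtain ⟨x, hx, hxy, hxz⟩ := (hea_two y z).2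
    obtain ⟨w, hw, ha⟩ := hS x
    have h7 : ¬ 7 ≤ w.val := by
      intro h8
      have := (hea_side ha).2 h8
      omega
    rcases hyz w (Finset.mem_filter.2 ⟨hw, h7⟩) with rfl | rfl
    · exact hxy ha
    · exact hxz ha
  have h3 := Finset.card_filter_add_card_filter_not (s := S) (fun x => 7 ≤ x.val)
  omega

/-- `P n (n - 4) ≥ (exp (-4/7) - ε) n ^ (n - 4)` for large even `n`. -/
theorem four (ε : ℝ) (hε : 0 < ε) :
    ∃ n0 : ℕ, ∀ n : ℕ, n0 ≤ n → Even n →
      (Real.exp (-(4 / 7)) - ε) * (n : ℝ) ^ (n - 4) ≤ (P n (n - 4) : ℝ) := by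
  classical
  obtain ⟨n0, h0⟩ := topR_ge (R := 3) (b := 14) (by omega) hea (fun x => by
    refine Eq.trans ?_ (hea_reg x)
    congr) 6 hea_gamma ε hε
  refine ⟨n0, fun n hn he => ?_⟩
  have h1 := h0 n hn he
  have h2 : (1 - ((6 : ℕ) : ℝ) / ((14 : ℕ) : ℝ)) = 4 / 7 := by norm_num
  rw [h2] at h1
  exact h1

/-! ### Upper bounds -/

/-- From a lower bound for the sum of the losses to an upper bound for `P`. -/
theorem up_gen (n k : ℕ) (hn : 1 ≤ n) (L : ℝ)
    (h : ∀ G : Fin k → SimpleGraph (Fin n), IsFactorization G →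
      L * n ≤ ∑ j, ((n : ℝ) - gammaT (G j))) :
    (P n k : ℝ) ≤ Real.exp (-L) * (n : ℝ) ^ k := by
  rcases P_attained n k with h0 | ⟨G, hG, h0⟩
  · rw [h0]
    push_cast
    positivity
  · rw [h0]
    have h1 := h G hG
    have hn0 : (0 : ℝ) < n := by exact_mod_cast hn
    have h2 : ∀ j, (gammaT (G j) : ℝ) ≤ n * Real.exp (-(((n : ℝ) - gammaT (G j)) / n)) := by
      intro j
      have h3 := Real.add_one_le_exp (-(((n : ℝ) - gammaT (G j)) / n))
      have h4 : (gammaT (G j) : ℝ) = n * (-(((n : ℝ) - gammaT (G j)) / n) + 1) := by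
        field_simp
        ring
      calc (gammaT (G j) : ℝ) = n * (-(((n : ℝ) - gammaT (G j)) / n) + 1) := h4
        _ ≤ _ := mul_le_mul_of_nonneg_left h3 hn0.le
    push_cast
    calc ∏ j, (gammaT (G j) : ℝ)
        ≤ ∏ j, (n * Real.exp (-(((n : ℝ) - gammaT (G j)) / n))) :=
          Finset.prod_le_prod (fun j _ => by positivity) (fun j _ => h2 j)
      _ = (n : ℝ) ^ k * Real.exp (∑ j, -(((n : ℝ) - gammaT (G j)) / n)) := by
          rw [Finset.prod_mul_distrib, Real.exp_sum]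
          simp
      _ ≤ (n : ℝ) ^ k * Real.exp (-L) := by
          apply mul_le_mul_of_nonneg_left _ (by positivity)
          apply Real.exp_le_exp.2
          rw [Finset.sum_neg_distrib, ← Finset.sum_div]
          apply neg_le_neg
          rw [le_div_iff₀ hn0]
          exact h1
      _ = _ := by ring

/-- `P n (n - R) ≤ exp (-(1 - 1/q) (1 - (1 - 1/q) ^ (R - 1))) n ^ (n - R)`. -/
theorem up_ran (n R q : ℕ) (hq : 1 ≤ q) (hR : 1 ≤ R) (hn : R < n) :
    (P n (n - R) : ℝ) ≤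
      Real.exp (-((1 - 1 / (q : ℝ)) * (1 - (1 - 1 / (q : ℝ)) ^ (R - 1)))) * (n : ℝ) ^ (n - R) := by
  classical
  apply up_gen n (n - R) (by omega)
  intro G hG
  obtain ⟨x, hx⟩ : ∃ x : ℝ, x = 1 - 1 / (q : ℝ) := ⟨_, rfl⟩
  have hq0 : (1 : ℝ) ≤ q := by exact_mod_cast hq
  have hx0 : 0 ≤ x := by
    rw [hx]
    have : 1 / (q : ℝ) ≤ 1 := by rw [div_le_one (by linarith)]; exact hq0
    linarith
  have hx1 : x ≤ 1 := by
    rw [hx]
    have : 0 ≤ 1 / (q : ℝ) := by positivity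
    linarith
  have h1 : ∀ j, ∑ v, x * (1 - x ^ (dg (G j) v - 1)) ≤ (n : ℝ) - gammaT (G j) := by
    intro j
    have h2 := stmt_RAN (G j) q hq (hG.minDeg j)
    rw [← hx] at h2
    have h3 : (n : ℝ) = ∑ _v : Fin n, (1 : ℝ) := by simp
    have h4 : ∑ v, x * (1 - x ^ (dg (G j) v - 1)) =
        ∑ v : Fin n, ((1 : ℝ) - (1 / (q : ℝ) + x ^ (dg (G j) v))) := by
      apply Finset.sum_congr rfl
      intro v _
      have h5 : 1 ≤ dg (G j) v := by
        obtain ⟨w, hw⟩ := hG.minDeg j v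
        exact Finset.card_pos.2 ⟨w, by simpa using hw⟩
      have h6 : x ^ (dg (G j) v) = x * x ^ (dg (G j) v - 1) := by
        rw [← pow_succ']
        congr 1
        omega
      have h7 : 1 / (q : ℝ) = 1 - x := by rw [hx]; ring
      rw [h6, h7]
      ring
    rw [h4, Finset.sum_sub_distrib, ← h3]
    linarith
  have h2 : ∀ v : Fin n, 1 - x ^ (R - 1) ≤ ∑ j, (1 - x ^ (dg (G j) v - 1)) := by
    intro v
    have h3 : ∑ j, (dg (G j) v - 1) = R - 1 := by
      have h4 := sum_degree hG v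
      have h5 : ∀ j, 1 ≤ dg (G j) v := by
        intro j
        obtain ⟨w, hw⟩ := hG.minDeg j v
        exact Finset.card_pos.2 ⟨w, by simpa using hw⟩
      have h6 : ∑ j, ((dg (G j) v - 1) + 1) = n - 1 := by
        rw [Fintype.card_fin] at h4
        rw [← h4]
        apply Finset.sum_congr rfl
        intro j _
        have := h5 j
        show dg (G j) v - 1 + 1 = dg (G j) v
        omega
      rw [Finset.sum_add_distrib] at h6
      simp only [Finset.sum_const, Finset.card_univ, Fintype.card_fin, smul_eq_mul, mul_one] at h6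
      omega
    rw [← h3]
    exact stmt_SUB univ (fun j => dg (G j) v - 1) x hx0 hx1
  rw [← hx]
  calc x * (1 - x ^ (R - 1)) * n = ∑ _v : Fin n, x * (1 - x ^ (R - 1)) := by simp; ring
    _ ≤ ∑ v : Fin n, ∑ j, x * (1 - x ^ (dg (G j) v - 1)) := by
        apply Finset.sum_le_sum
        intro v _
        rw [← Finset.mul_sum]
        exact mul_le_mul_of_nonneg_left (h2 v) hx0
    _ = ∑ j, ∑ v, x * (1 - x ^ (dg (G j) v - 1)) := Finset.sum_comm
    _ ≤ _ := Finset.sum_le_sum fun j _ => h1 j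

end Pool.Agent.Work.MP_1ce445_topR
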