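import Pool.Agent.Work.MP_1ce445_co_56.Never

/-!
The constants `Lam R` (MP_1ce445_co): `P n (n - R)` is asymptotic to `exp (-Lam R) n ^ (n - R)` for fixed `R` and
even `n`. `gammaT` is the total domination number. For odd `n` it is asymptotic to
`exp (-LamO R) (n - 1) ^ (n - R)`.
-/

namespace Pool.Agent.Work.MP_1ce445_topR

open Finset Pool.Agent.Work.MP_1ce445_co_56

open Classical in
/-- A family of graphs without isolated vertices on the same set of `N` vertices, such that for every vertex the
degrees (numbers of neighbours), each diminished by one, add up to `R - 1`. -/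
structure Fam (R N J : ℕ) (G : Fin J → SimpleGraph (Fin N)) : Prop where
  min : ∀ j v, ∃ w, (G j).Adj v w
  exc : ∀ v, ∑ j, ((univ.filter (fun w => (G j).Adj v w)).card - 1) = R - 1

/-- The loss of a family of graphs, per vertex. -/
noncomputable def lossR {N J : ℕ} (G : Fin J → SimpleGraph (Fin N)) : ℝ :=
  (∑ j, ((N : ℝ) - gammaT (G j))) / N

/-- The least loss per vertex (infimum over all families). -/
noncomputable def Lam (R : ℕ) : ℝ :=
  sInf {x : ℝ | ∃ (N J : ℕ) (G : Fin J → SimpleGraph (Fin N)), 0 < N ∧ Fam R N J G ∧ x = lossR G}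

end Pool.Agent.Work.MP_1ce445_topR

namespace Pool.Agent.Work.MP_1ce445_oddR

open Finset Pool.Agent.Work.MP_1ce445_co_56 Pool.Agent.Work.MP_1ce445_topR

/-- The least cost per vertex of a family of `N - R` graphs without isolated vertices on `N` vertices, `N` odd, such
that for every vertex the degrees, each diminished by one, add up to `R - 1`. -/
noncomputable def LamO (R : ℕ) : ℝ :=
  sInf {x : ℝ | ∃ (N : ℕ) (G : Fin (N - R) → SimpleGraph (Fin N)), Odd N ∧ R < N ∧
    Fam R N (N - R) G ∧ x = (∑ j, ((N : ℝ) - 1 - gammaT (G j))) / N}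

/-- The total domination constant of both parities. -/
noncomputable def LamA (n r : ℕ) : ℝ := if Even n then Lam r else LamO r

end Pool.Agent.Work.MP_1ce445_oddR
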