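import Pool.Agent.Work.MP_1ce445_topR.Low

/-!
MP_1ce445_co: the limit of `P n (n - R) / n ^ (n - R)` for fixed `R`, `n` even (helper23): the factorization.
-/

namespace Pool.Agent.Work.MP_1ce445_topR

open Finset Pool.Agent.Work.MP_1ce445_co_56 Pool.Agent.Work.MP_1ce445_lin
  Pool.Agent.Work.MP_1ce445_top

/-! ### Graphs on two copies of a set -/

/-- the adjacency relation of `cross` -/
def crossR {α : Type} (D : α → α → Prop) : α ⊕ α → α ⊕ α → Prop
  | Sum.inl x, Sum.inr y => D x y
  | Sum.inr y, Sum.inl x => D x y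
  | Sum.inl _, Sum.inl _ => False
  | Sum.inr _, Sum.inr _ => False

/-- the bipartite graph of the relation `D` between two copies of a set -/
def cross {α : Type} (D : α → α → Prop) : SimpleGraph (α ⊕ α) where
  Adj := crossR D
  symm := ⟨by
    rintro (x | x) (y | y) h
    · exact h
    · exact h
    · exact h
    · exact h⟩
  loopless := ⟨by
    rintro (x | x) h
    · exact h
    · exact h⟩

/-- the partner of a vertex in the class `c` -/
def mu {h : ℕ} (c : ZMod h) : ZMod h ⊕ ZMod h → ZMod h ⊕ ZMod h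
  | Sum.inl x => if x + x = c then Sum.inr x else Sum.inl (c - x)
  | Sum.inr x => if x + x = c then Sum.inl x else Sum.inr (c - x)

theorem mu_mu {h : ℕ} (c : ZMod h) (v : ZMod h ⊕ ZMod h) : mu c (mu c v) = v := by
  rcases v with x | x
  · by_cases hc : x + x = c
    · simp [mu, hc]
    · simp only [mu, if_neg hc, if_neg (TDA_double c x hc)]
      congr 1
      ring
  · by_cases hc : x + x = c
    · simp [mu, hc]
    · simp only [mu, if_neg hc, if_neg (TDA_double c x hc)]
      congr 1
      ring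

theorem mu_ne {h : ℕ} (c : ZMod h) (v : ZMod h ⊕ ZMod h) : mu c v ≠ v := by
  rcases v with x | x
  · by_cases hc : x + x = c
    · simp [mu, hc]
    · simp only [mu, if_neg hc, ne_eq, Sum.inl.injEq]
      intro h
      apply hc
      linear_combination -h
  · by_cases hc : x + x = c
    · simp [mu, hc]
    · simp only [mu, if_neg hc, ne_eq, Sum.inr.injEq]
      intro h
      apply hc
      linear_combination -h

theorem mu_dis {h : ℕ} (c c' : ZMod h) (v : ZMod h ⊕ ZMod h) (h1 : mu c v = mu c' v) :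
    c = c' := by
  rcases v with x | x
  · by_cases hc : x + x = c
    · by_cases hc' : x + x = c'
      · rw [← hc, ← hc']
      · simp only [mu, if_pos hc, if_neg hc'] at h1
        simp at h1
    · by_cases hc' : x + x = c'
      · simp only [mu, if_neg hc, if_pos hc'] at h1
        simp at h1
      · simp only [mu, if_neg hc, if_neg hc', Sum.inl.injEq] at h1
        linear_combination h1
  · by_cases hc : x + x = c
    · by_cases hc' : x + x = c'
      · rw [← hc, ← hc']
      · simp only [mu, if_pos hc, if_neg hc'] at h1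
        simp at h1
    · by_cases hc' : x + x = c'
      · simp only [mu, if_neg hc, if_pos hc'] at h1
        simp at h1
      · simp only [mu, if_neg hc, if_neg hc', Sum.inr.injEq] at h1
        linear_combination h1

/-- a class does not meet the pairs `x ≠ y` between the two copies -/
theorem mu_cross {h : ℕ} (c : ZMod h) (D : ZMod h → ZMod h → Prop) (hD : ∀ x, ¬ D x x)
    (v w : ZMod h ⊕ ZMod h) (h1 : mu c v = w) (h2 : crossR D v w) : False := by
  rcases v with x | x <;> rcases w with y | y
  · exact h2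
  · by_cases hc : x + x = c
    · simp only [mu, if_pos hc, Sum.inr.injEq] at h1
      rw [← h1] at h2
      exact hD _ h2
    · simp only [mu, if_neg hc] at h1
      simp at h1
  · by_cases hc : x + x = c
    · simp only [mu, if_pos hc, Sum.inl.injEq] at h1
      rw [← h1] at h2
      exact hD _ h2
    · simp only [mu, if_neg hc] at h1
      simp at h1
  · exact h2

/-- the graph of the class `c` -/
def muG {h : ℕ} (c : ZMod h) : SimpleGraph (ZMod h ⊕ ZMod h) where
  Adj v w := mu c v = w
  symm := ⟨fun v w h1 => by rw [← h1]; exact mu_mu c v⟩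
  loopless := ⟨fun v h1 => mu_ne c v h1⟩

theorem muG_gamma {h : ℕ} [NeZero h] (c : ZMod h) : 2 * h ≤ gammaT (muG c) := by
  have h1 := card_le_gammaT (G := muG c) (fun v => ⟨mu c v, rfl⟩) (fun v => v) (fun v => mu c v)
    (fun v w h => by
      have h2 := congrArg (mu c) h
      simpa only [mu_mu] using h2) (fun v w h => (show mu c v = w from h).symm)
  rw [Fintype.card_sum, ZMod.card] at h1
  omega

theorem cross_gamma {h : ℕ} [NeZero h] (M : ZMod h ≃ ZMod h) :
    2 * h ≤ gammaT (cross (fun x y => M x = y)) := by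
  have h1 := card_le_gammaT (G := cross (fun x y => M x = y))
    (fun v => by
      rcases v with x | x
      · exact ⟨Sum.inr (M x), rfl⟩
      · exact ⟨Sum.inl (M.symm x), M.apply_symm_apply x⟩)
    (fun v => v) (fun v => Sum.elim (fun x => Sum.inr (M x)) (fun x => Sum.inl (M.symm x)) v)
    (by
      rintro (v | v) (w | w) h
      · simpa using h
      · simp at h
      · simp at h
      · simpa using h)
    (by
      rintro (v | v) (w | w) h
      · exact False.elim h
      · exact congrArg Sum.inr (show M v = w from h).symm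
      · have h2 : M w = v := h
        simp [← h2]
      · exact False.elim h)
  rw [Fintype.card_sum, ZMod.card] at h1
  omega

/-- the assembly -/
theorem asmB {h k : ℕ} {Q : Type} [Fintype Q] [NeZero h] (M : Fin k → (ZMod h ≃ ZMod h))
    (B : Q → ZMod h → ZMod h → Prop) (hMne : ∀ i x, M i x ≠ x)
    (hMinj : ∀ i j x, M i x = M j x → i = j) (hB : ∀ q x, ¬ B q x x)
    (hBB : ∀ q q' x y, B q x y → B q' x y → q = q') (hBM : ∀ q i x, ¬ B q x (M i x))
    (hrow : ∀ q x, ∃ y, B q x y) (hcol : ∀ q y, ∃ x, B q x y)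
    (hcov : ∀ x y, x ≠ y → (∃ q, B q x y) ∨ ∃ i, M i x = y) :
    (2 * h) ^ (h + k) * ∏ q, gammaT (cross (B q)) ≤ P (2 * h) (h + k + Fintype.card Q) := by
  classical
  obtain ⟨F, hF⟩ : ∃ F : (ZMod h ⊕ Fin k) ⊕ Q → SimpleGraph (ZMod h ⊕ ZMod h),
      F = Sum.elim (Sum.elim muG (fun i => cross (fun x y => M i x = y)))
        (fun q => cross (B q)) := ⟨_, rfl⟩
  have hMM : ∀ i j v w, crossR (fun x y => M i x = y) v w → crossR (fun x y => M j x = y) v w →
      i = j := by
    rintro i j (v | v) (w | w) h1 h2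
    · exact False.elim h1
    · have h3 : M i v = w := h1
      have h4 : M j v = w := h2
      exact hMinj i j v (h3.trans h4.symm)
    · have h3 : M i w = v := h1
      have h4 : M j w = v := h2
      exact hMinj i j w (h3.trans h4.symm)
    · exact False.elim h1
  have hBMv : ∀ q i v w, crossR (B q) v w → crossR (fun x y => M i x = y) v w → False := by
    rintro q i (v | v) (w | w) h1 h2
    · exact h1
    · have h3 : M i v = w := h2
      have h4 : B q v w := h1
      rw [← h3] at h4
      exact hBM q i v h4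
    · have h3 : M i w = v := h2
      have h4 : B q w v := h1
      rw [← h3] at h4
      exact hBM q i w h4
    · exact h1
  have hBBv : ∀ q q' v w, crossR (B q) v w → crossR (B q') v w → q = q' := by
    rintro q q' (v | v) (w | w) h1 h2
    · exact False.elim h1
    · exact hBB q q' v w h1 h2
    · exact hBB q q' w v h1 h2
    · exact False.elim h1
  have hfac : IsFactorization F := by
    rw [hF]
    apply IsFactorization.of_adj
    · rintro ((c | i) | q) ((c' | i') | q') v w h1 h2
      · rw [mu_dis c c' v ((show mu c v = w from h1).trans (show mu c' v = w from h2).symm)]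
      · exact False.elim (mu_cross c _ (fun x => hMne i' x) v w h1 h2)
      · exact False.elim (mu_cross c _ (hB q') v w h1 h2)
      · exact False.elim (mu_cross c' _ (fun x => hMne i x) v w h2 h1)
      · rw [hMM i i' v w h1 h2]
      · exact False.elim (hBMv q' i v w h2 h1)
      · exact False.elim (mu_cross c' _ (hB q) v w h2 h1)
      · exact False.elim (hBMv q i' v w h1 h2)
      · rw [hBBv q q' v w h1 h2]
    · rintro (x | x) (y | y) h
      · have hxy : x ≠ y := fun h' => h (by rw [h'])
        refine ⟨Sum.inl (Sum.inl (x + y)), ?_⟩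
        show mu (x + y) (Sum.inl x) = Sum.inl y
        have hc : ¬ x + x = x + y := fun h' => hxy (add_left_cancel h')
        simp only [mu, if_neg hc]
        congr 1
        ring
      · by_cases hxy : x = y
        · refine ⟨Sum.inl (Sum.inl (x + x)), ?_⟩
          show mu (x + x) (Sum.inl x) = Sum.inr y
          simp [mu, hxy]
        · rcases hcov x y hxy with ⟨q, hq⟩ | ⟨i, hi⟩
          · exact ⟨Sum.inr q, hq⟩
          · exact ⟨Sum.inl (Sum.inr i), hi⟩
      · by_cases hxy : x = y
        · refine ⟨Sum.inl (Sum.inl (x + x)), ?_⟩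
          show mu (x + x) (Sum.inr x) = Sum.inl y
          simp [mu, hxy]
        · rcases hcov y x (Ne.symm hxy) with ⟨q, hq⟩ | ⟨i, hi⟩
          · exact ⟨Sum.inr q, hq⟩
          · exact ⟨Sum.inl (Sum.inr i), hi⟩
      · have hxy : x ≠ y := fun h' => h (by rw [h'])
        refine ⟨Sum.inl (Sum.inl (x + y)), ?_⟩
        show mu (x + y) (Sum.inr x) = Sum.inr y
        have hc : ¬ x + x = x + y := fun h' => hxy (add_left_cancel h')
        simp only [mu, if_neg hc]
        congr 1
        ring
    · rintro ((c | i) | q) v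
      · exact ⟨mu c v, rfl⟩
      · rcases v with x | x
        · exact ⟨Sum.inr (M i x), rfl⟩
        · exact ⟨Sum.inl ((M i).symm x), (M i).apply_symm_apply x⟩
      · rcases v with x | x
        · obtain ⟨y, hy⟩ := hrow q x
          exact ⟨Sum.inr y, hy⟩
        · obtain ⟨y, hy⟩ := hcol q x
          exact ⟨Sum.inl y, hy⟩
  have hV : Fintype.card (ZMod h ⊕ ZMod h) = 2 * h := by
    rw [Fintype.card_sum, ZMod.card]; ring
  have hI : Fintype.card ((ZMod h ⊕ Fin k) ⊕ Q) = h + k + Fintype.card Q := by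
    rw [Fintype.card_sum, Fintype.card_sum, ZMod.card, Fintype.card_fin]
  have h1 := le_P hV hI hfac
  refine le_trans ?_ h1
  rw [Fintype.prod_sum_type, Fintype.prod_sum_type, hF]
  simp only [Sum.elim_inl, Sum.elim_inr]
  apply Nat.mul_le_mul_right
  rw [pow_add]
  apply Nat.mul_le_mul
  · calc (2 * h) ^ h = ∏ _c : ZMod h, 2 * h := by
          rw [Finset.prod_const, Finset.card_univ, ZMod.card]
      _ ≤ _ := Finset.prod_le_prod' fun c _ => muG_gamma c
  · calc (2 * h) ^ k = ∏ _c : Fin k, 2 * h := by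
          rw [Finset.prod_const, Finset.card_univ, Fintype.card_fin]
      _ ≤ _ := Finset.prod_le_prod' fun i _ => cross_gamma (M i)

/-- the remaining pairs are a union of bijections -/
theorem rest {h K : ℕ} [NeZero h] (U : ZMod h → ZMod h → Prop)
    (hrow : ∀ x, ∀ s : Finset (ZMod h), (∀ y, y ∈ s ↔ (x = y ∨ U x y)) → s.card = K + 1)
    (hcol : ∀ y, ∀ s : Finset (ZMod h), (∀ x, x ∈ s ↔ (x = y ∨ U x y)) → s.card = K + 1) :
    ∃ M : Fin (h - 1 - K) → (ZMod h ≃ ZMod h),
      (∀ i x, M i x ≠ x) ∧ (∀ i i' x, M i x = M i' x → i = i') ∧ (∀ i x, ¬ U x (M i x)) ∧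
      (∀ x y, x ≠ y → U x y ∨ ∃ i, M i x = y) := by
  classical
  have hsum : ∀ P : ZMod h → Prop, [DecidablePred P] → (univ.filter P).card = K + 1 →
      ∑ y, (if P y then 0 else 1) = h - 1 - K := by
    intro P _ hP
    have h1 : ∑ y, (if P y then 0 else 1) = (univ.filter (fun y => ¬ P y)).card := by
      rw [Finset.card_filter]
      apply Finset.sum_congr rfl
      intro y _
      by_cases hy : P y <;> simp [hy]
    have h2 := Finset.card_filter_add_card_filter_not (s := (univ : Finset (ZMod h))) P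
    rw [Finset.card_univ, ZMod.card] at h2
    rw [h1]
    omega
  obtain ⟨π, hπ⟩ := Pool.Agent.Work.MP_1ce445_lin.stmt_KOE (ZMod h) (ZMod h) (h - 1 - K)
    (fun x y => if (x = y ∨ U x y) then 0 else 1) rfl
    (fun x => hsum _ (hrow x _ (by simp))) (fun y => hsum _ (hcol y _ (by simp)))
  have hzero : ∀ x y, (x = y ∨ U x y) → ∀ i, π i x ≠ y := by
    intro x y hxy i hi
    have h1 := hπ x y
    rw [if_pos hxy] at h1
    have h2 := Finset.card_eq_zero.1 h1.symm
    have h3 : i ∈ univ.filter (fun z => π z x = y) := by simp [hi]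
    rw [h2] at h3
    simp at h3
  have hone : ∀ x y, ¬ (x = y ∨ U x y) →
      (univ.filter (fun z => π z x = y)).card = 1 := by
    intro x y hxy
    have h1 := hπ x y
    rw [if_neg hxy] at h1
    exact h1.symm
  refine ⟨π, ?_, ?_, ?_, ?_⟩
  · intro i x
    exact hzero x x (Or.inl rfl) i
  · intro i i' x hii
    by_cases hxy : (x = π i x ∨ U x (π i x))
    · exact absurd rfl (hzero x (π i x) hxy i)
    · have h1 := hone x (π i x) hxy
      rw [Finset.card_eq_one] at h1
      obtain ⟨a, ha⟩ := h1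
      have h2 : i ∈ univ.filter (fun z => π z x = π i x) := by simp
      have h3 : i' ∈ univ.filter (fun z => π z x = π i x) := by simp [hii]
      rw [ha, Finset.mem_singleton] at h2 h3
      rw [h2, h3]
  · intro i x hU
    exact hzero x (π i x) (Or.inr hU) i rfl
  · intro x y hxy
    by_cases ht : U x y
    · exact Or.inl ht
    · right
      have h1 := hone x y (by rintro (h | h); exacts [hxy h, ht h])
      have h2 : 0 < (univ.filter (fun z => π z x = y)).card := by rw [h1]; exact Nat.one_pos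
      obtain ⟨i, hi⟩ := Finset.card_pos.1 h2
      exact ⟨i, (Finset.mem_filter.1 hi).2⟩

/-! ### The big factors -/

section big

variable {m J N A r K : ℕ}

/-- The cross pairs of the big factor `q`: on the cluster `q.1` copies of `G q.2`, on the other clusters a shift. -/
def Bq (G : Fin J → SimpleGraph (Fin N)) (σ : Fin J → Fin N → ZMod A)
    (sA : Fin m × Fin J → ZMod A) (wr : Fin K → ZMod r) (own : Fin K → Fin m × Fin J)
    (q : Fin m × Fin J) : Z m A N r → Z m A N r → Prop
  | Sum.inl (u, a, v), Sum.inl (u', a', v') => u' = u ∧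
      ((u = q.1 ∧ (G q.2).Adj v v' ∧ a' = a + (σ q.2 v' - σ q.2 v)) ∨
        (u ≠ q.1 ∧ v' = v ∧ a' = a + sA q))
  | Sum.inr z, Sum.inr z' => ∃ i, own i = q ∧ z' = z + wr i
  | Sum.inl _, Sum.inr _ => False
  | Sum.inr _, Sum.inl _ => False

variable (G : Fin J → SimpleGraph (Fin N)) (σ : Fin J → Fin N → ZMod A)
    (sA : Fin m × Fin J → ZMod A) (wr : Fin K → ZMod r) (own : Fin K → Fin m × Fin J)

theorem Bq_rev (q : Fin m × Fin J) (x y : Z m A N r) :
    Bq G σ sA wr own q x y ↔ Bq G σ (fun q => -sA q) (fun i => -wr i) own q y x := by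
  rcases x with ⟨u, a, v⟩ | z <;> rcases y with ⟨u', a', v'⟩ | z'
  · constructor
    · rintro ⟨rfl, h | h⟩
      · refine ⟨rfl, Or.inl ⟨h.1, h.2.1.symm, ?_⟩⟩
        rw [h.2.2]
        ring
      · refine ⟨rfl, Or.inr ⟨h.1, h.2.1.symm, ?_⟩⟩
        rw [h.2.2]
        ring
    · rintro ⟨rfl, h | h⟩
      · refine ⟨rfl, Or.inl ⟨h.1, h.2.1.symm, ?_⟩⟩
        rw [h.2.2]
        ring
      · refine ⟨rfl, Or.inr ⟨h.1, h.2.1.symm, ?_⟩⟩
        rw [h.2.2]
        ring
  · exact Iff.rfl
  · exact Iff.rfl
  · constructor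
    · rintro ⟨i, h1, rfl⟩
      exact ⟨i, h1, by ring⟩
    · rintro ⟨i, h1, rfl⟩
      exact ⟨i, h1, by ring⟩

theorem Bq_irr (hs : ∀ q, sA q ≠ 0) (hw : ∀ i, wr i ≠ 0) (q : Fin m × Fin J) (x : Z m A N r) :
    ¬ Bq G σ sA wr own q x x := by
  rcases x with ⟨u, a, v⟩ | z
  · rintro ⟨_, h | h⟩
    · exact (G q.2).loopless.irrefl _ h.2.1
    · exact hs q (left_eq_add.1 h.2.2)
  · rintro ⟨i, _, h⟩
    exact hw i (left_eq_add.1 h)

theorem Bq_dis (hσ : ∀ j j' v v', v ≠ v' → σ j v' - σ j v = σ j' v' - σ j' v → j = j')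
    (hs : ∀ q q', sA q = sA q' → q = q') (hw : ∀ i i', wr i = wr i' → i = i')
    (q q' : Fin m × Fin J) (x y : Z m A N r) (h1 : Bq G σ sA wr own q x y)
    (h2 : Bq G σ sA wr own q' x y) : q = q' := by
  rcases x with ⟨u, a, v⟩ | z <;> rcases y with ⟨u', a', v'⟩ | z'
  · obtain ⟨_, h1⟩ := h1
    obtain ⟨_, h2⟩ := h2
    rcases h1 with h1 | h1 <;> rcases h2 with h2 | h2
    · have h3 : v ≠ v' := h1.2.1.ne
      have h4 := h1.2.2.symm.trans h2.2.2
      exact Prod.ext (h1.1.symm.trans h2.1) (hσ _ _ v v' h3 (add_left_cancel h4))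
    · exact absurd h2.2.1.symm h1.2.1.ne
    · exact absurd h1.2.1.symm h2.2.1.ne
    · exact hs _ _ (add_left_cancel (h1.2.2.symm.trans h2.2.2))
  · exact False.elim h1
  · exact False.elim h1
  · obtain ⟨i, h1, h3⟩ := h1
    obtain ⟨i', h2, h4⟩ := h2
    have h5 := hw _ _ (add_left_cancel (h3.symm.trans h4))
    rw [← h1, ← h2, h5]

theorem Bq_row (hmin : ∀ j v, ∃ w, (G j).Adj v w) (hown : ∀ q, ∃ i, own i = q)
    (q : Fin m × Fin J) (x : Z m A N r) : ∃ y, Bq G σ sA wr own q x y := by
  rcases x with ⟨u, a, v⟩ | z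
  · by_cases hu : u = q.1
    · obtain ⟨w, hw⟩ := hmin q.2 v
      exact ⟨Sum.inl (u, a + (σ q.2 w - σ q.2 v), w), rfl, Or.inl ⟨hu, hw, rfl⟩⟩
    · exact ⟨Sum.inl (u, a + sA q, v), rfl, Or.inr ⟨hu, rfl, rfl⟩⟩
  · obtain ⟨i, hi⟩ := hown q
    exact ⟨Sum.inr (z + wr i), i, hi, rfl⟩

theorem Bq_col (hmin : ∀ j v, ∃ w, (G j).Adj v w) (hown : ∀ q, ∃ i, own i = q)
    (q : Fin m × Fin J) (y : Z m A N r) : ∃ x, Bq G σ sA wr own q x y := by
  obtain ⟨x, hx⟩ := Bq_row G σ (fun q => -sA q) (fun i => -wr i) own hmin hown q y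
  exact ⟨x, (Bq_rev G σ sA wr own q x y).2 hx⟩

/-- the number of pairs of the big factors at a vertex -/
theorem Bq_card [NeZero A] [NeZero r]
    (hσ : ∀ j j' v v', v ≠ v' → σ j v' - σ j v = σ j' v' - σ j' v → j = j')
    (hs : ∀ q q', sA q = sA q' → q = q') (hw : ∀ i i', wr i = wr i' → i = i')
    (hdeg : ∀ v, ∑ j, dg (G j) v + (m - 1) * J = K)
    (x : Z m A N r) (s : Finset (Z m A N r))
    (hmem : ∀ y, y ∈ s ↔ ∃ q, Bq G σ sA wr own q x y) : s.card = K := by
  classical
  rcases x with ⟨u, a, v⟩ | z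
  · have h1 : s = univ.biUnion (fun q => univ.filter (fun y => Bq G σ sA wr own q
        (Sum.inl (u, a, v)) y)) := by
      ext y
      rw [hmem]
      simp
    rw [h1, Finset.card_biUnion]
    · have h2 : ∀ q : Fin m × Fin J, (univ.filter (fun y => Bq G σ sA wr own q
          (Sum.inl (u, a, v)) y)).card = if q.1 = u then dg (G q.2) v else 1 := by
        intro q
        by_cases hu : u = q.1
        · rw [if_pos hu.symm]
          have h3 : univ.filter (fun y => Bq G σ sA wr own q (Sum.inl (u, a, v)) y) =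
              (univ.filter (fun w => (G q.2).Adj v w)).image
                (fun w => (Sum.inl (u, a + (σ q.2 w - σ q.2 v), w) : Z m A N r)) := by
            ext y
            simp only [mem_filter, mem_univ, true_and, mem_image]
            constructor
            · intro h
              rcases y with ⟨u', a', v'⟩ | z'
              · obtain ⟨rfl, h | h⟩ := h
                · exact ⟨v', h.2.1, by rw [h.2.2]⟩
                · exact absurd hu h.1
              · exact False.elim h
            · rintro ⟨w, hw, rfl⟩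
              exact ⟨rfl, Or.inl ⟨hu, hw, rfl⟩⟩
          rw [h3, Finset.card_image_of_injective]
          · rfl
          · intro w w' hww
            simp only [Sum.inl.injEq, Prod.mk.injEq, true_and] at hww
            exact hww.2
        · rw [if_neg (Ne.symm hu)]
          have h3 : univ.filter (fun y => Bq G σ sA wr own q (Sum.inl (u, a, v)) y) =
              {Sum.inl (u, a + sA q, v)} := by
            ext y
            simp only [mem_filter, mem_univ, true_and, mem_singleton]
            constructor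
            · intro h
              rcases y with ⟨u', a', v'⟩ | z'
              · obtain ⟨rfl, h | h⟩ := h
                · exact absurd h.1 hu
                · rw [h.2.1, h.2.2]
              · exact False.elim h
            · rintro rfl
              exact ⟨rfl, Or.inr ⟨hu, rfl, rfl⟩⟩
          rw [h3, Finset.card_singleton]
      rw [Finset.sum_congr rfl (fun q _ => h2 q), Fintype.sum_prod_type,
        ← Finset.add_sum_erase univ _ (mem_univ u)]
      have h4 : ∑ t ∈ univ.erase u, ∑ j : Fin J, (if t = u then dg (G j) v else 1) =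
          (m - 1) * J := by
        have h5 : ∀ t ∈ univ.erase u, ∑ j : Fin J, (if t = u then dg (G j) v else 1) = J := by
          intro t ht
          simp [Finset.ne_of_mem_erase ht]
        rw [Finset.sum_congr rfl h5, Finset.sum_const, Finset.card_erase_of_mem (mem_univ u),
          Finset.card_univ, Fintype.card_fin, smul_eq_mul]
      rw [h4]
      simpa using hdeg v
    · intro q _ q' _ hqq
      rw [Function.onFun, Finset.disjoint_left]
      intro y h2 h3
      simp only [mem_filter, mem_univ, true_and] at h2 h3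
      exact hqq (Bq_dis G σ sA wr own hσ hs hw q q' _ y h2 h3)
  · have h1 : s = univ.image (fun i : Fin K => (Sum.inr (z + wr i) : Z m A N r)) := by
      ext y
      rw [hmem]
      simp only [mem_image, mem_univ, true_and]
      constructor
      · rintro ⟨q, h⟩
        rcases y with y | z'
        · exact False.elim h
        · obtain ⟨i, _, h2⟩ := h
          exact ⟨i, by rw [h2]⟩
      · rintro ⟨i, rfl⟩
        exact ⟨own i, i, rfl, rfl⟩
    rw [h1, Finset.card_image_of_injective, Finset.card_univ, Fintype.card_fin]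
    intro i i' hii
    simp only [Sum.inr.injEq] at hii
    exact hw _ _ (add_left_cancel hii)

theorem Bq_card' [NeZero A] [NeZero r]
    (hσ : ∀ j j' v v', v ≠ v' → σ j v' - σ j v = σ j' v' - σ j' v → j = j')
    (hs : ∀ q q', sA q = sA q' → q = q') (hw : ∀ i i', wr i = wr i' → i = i')
    (hdeg : ∀ v, ∑ j, dg (G j) v + (m - 1) * J = K)
    (y : Z m A N r) (s : Finset (Z m A N r))
    (hmem : ∀ x, x ∈ s ↔ ∃ q, Bq G σ sA wr own q x y) : s.card = K := by
  refine Bq_card G σ (fun q => -sA q) (fun i => -wr i) own hσ ?_ ?_ hdeg y s ?_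
  · intro q q' h
    exact hs q q' (neg_injective h)
  · intro q q' h
    exact hw q q' (neg_injective h)
  · intro x
    rw [hmem x]
    exact exists_congr fun q => Bq_rev G σ sA wr own q x y

/-- the sum over the blocks -/
theorem count' [NeZero A] (t : Fin m) (g : ℕ) (f : Fin m → ZMod A → Fin N → ℕ)
    (h1 : ∀ u, u ≠ t → ∀ a x, f u a x = 1) (h2 : A * g ≤ ∑ a, ∑ x, f t a x) :
    A * (g + (m - 1) * N) ≤ ∑ u, ∑ a, ∑ x, f u a x := by
  rw [← Finset.add_sum_erase univ _ (mem_univ t)]
  have h4 : ∑ u ∈ univ.erase t, ∑ a, ∑ x, f u a x = A * ((m - 1) * N) := by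
    have h5 : ∀ u ∈ univ.erase t, ∑ a, ∑ x, f u a x = A * N := by
      intro u hu
      have hu' := Finset.ne_of_mem_erase hu
      calc ∑ a, ∑ x, f u a x = ∑ _a : ZMod A, ∑ _x : Fin N, 1 :=
            Finset.sum_congr rfl fun a _ => Finset.sum_congr rfl fun x _ => h1 u hu' a x
        _ = A * N := by simp [ZMod.card]
    rw [Finset.sum_congr rfl h5, Finset.sum_const, Finset.card_erase_of_mem (mem_univ t),
      Finset.card_univ, Fintype.card_fin, smul_eq_mul]
    ring
  rw [h4, mul_add]
  exact Nat.add_le_add_right h2 _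

/-- the total domination number of the big factor `q` -/
theorem Bq_gamma {h : ℕ} [NeZero h] [NeZero A] [NeZero r] (e : Z m A N r ≃ ZMod h)
    (hmin : ∀ j v, ∃ w, (G j).Adj v w) (hown : ∀ q, ∃ i, own i = q) (q : Fin m × Fin J) :
    2 * (A * (gammaT (G q.2) + (m - 1) * N)) ≤
      gammaT (cross (fun x y => Bq G σ sA wr own q (e.symm x) (e.symm y))) := by
  classical
  obtain ⟨S, hS, hc⟩ := exists_tds
    (G := cross (fun x y => Bq G σ sA wr own q (e.symm x) (e.symm y))) (fun v => by
      rcases v with x | x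
      · obtain ⟨y, hy⟩ := Bq_row G σ sA wr own hmin hown q (e.symm x)
        exact ⟨Sum.inr (e y), by
          show Bq G σ sA wr own q (e.symm x) (e.symm (e y))
          rwa [e.symm_apply_apply]⟩
      · obtain ⟨y, hy⟩ := Bq_col G σ sA wr own hmin hown q (e.symm x)
        exact ⟨Sum.inl (e y), by
          show Bq G σ sA wr own q (e.symm (e y)) (e.symm x)
          rwa [e.symm_apply_apply]⟩)
  rw [← hc]
  have K1 : ∀ z : Z m A N r, ∃ z', Sum.inr (e z') ∈ S ∧ Bq G σ sA wr own q z z' := by
    intro z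
    obtain ⟨w, hw, ha⟩ := hS (Sum.inl (e z))
    rcases w with y | y
    · exact False.elim ha
    · obtain ⟨z', rfl⟩ := e.surjective y
      have h1 : Bq G σ sA wr own q (e.symm (e z)) (e.symm (e z')) := ha
      rw [e.symm_apply_apply, e.symm_apply_apply] at h1
      exact ⟨z', hw, h1⟩
  have K2 : ∀ z : Z m A N r, ∃ z', Sum.inl (e z') ∈ S ∧ Bq G σ sA wr own q z' z := by
    intro z
    obtain ⟨w, hw, ha⟩ := hS (Sum.inr (e z))
    rcases w with y | y
    · obtain ⟨z', rfl⟩ := e.surjective y
      have h1 : Bq G σ sA wr own q (e.symm (e z')) (e.symm (e z)) := ha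
      rw [e.symm_apply_apply, e.symm_apply_apply] at h1
      exact ⟨z', hw, h1⟩
    · exact False.elim ha
  have S1 : ∀ (u : Fin m), u ≠ q.1 → ∀ a v, Sum.inr (e (Sum.inl (u, a, v))) ∈ S := by
    intro u hu a v
    obtain ⟨z', h1, h2⟩ := K1 (Sum.inl (u, a - sA q, v))
    rcases z' with ⟨u', a', v'⟩ | z'
    · obtain ⟨rfl, h2 | h2⟩ := h2
      · exact absurd h2.1 hu
      · rw [h2.2.1, h2.2.2] at h1
        rwa [sub_add_cancel] at h1
    · exact False.elim h2
  have S2 : ∀ (u : Fin m), u ≠ q.1 → ∀ a v, Sum.inl (e (Sum.inl (u, a, v))) ∈ S := by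
    intro u hu a v
    obtain ⟨z', h1, h2⟩ := K2 (Sum.inl (u, a + sA q, v))
    rcases z' with ⟨u', a', v'⟩ | z'
    · obtain ⟨rfl, h2 | h2⟩ := h2
      · exact absurd h2.1 hu
      · rw [← h2.2.1, ← add_right_cancel h2.2.2] at h1
        exact h1
    · exact False.elim h2
  have S3 : ∀ a : ZMod A, gammaT (G q.2) ≤
      ∑ x : Fin N, (if Sum.inr (e (Sum.inl (q.1, a + σ q.2 x, x))) ∈ S then 1 else 0) := by
    intro a
    rw [← Finset.card_filter]
    apply gammaT_le_card
    intro x
    obtain ⟨z', h1, h2⟩ := K1 (Sum.inl (q.1, a + σ q.2 x, x))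
    rcases z' with ⟨u', a', v'⟩ | z'
    · obtain ⟨rfl, h2 | h2⟩ := h2
      · refine ⟨v', ?_, h2.2.1⟩
        have h3 : a' = a + σ q.2 v' := by
          rw [h2.2.2]
          ring
        rw [h3] at h1
        simpa using h1
      · exact absurd rfl h2.1
    · exact False.elim h2
  have S4 : ∀ a : ZMod A, gammaT (G q.2) ≤
      ∑ x : Fin N, (if Sum.inl (e (Sum.inl (q.1, a + σ q.2 x, x))) ∈ S then 1 else 0) := by
    intro a
    rw [← Finset.card_filter]
    apply gammaT_le_card
    intro x
    obtain ⟨z', h1, h2⟩ := K2 (Sum.inl (q.1, a + σ q.2 x, x))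
    rcases z' with ⟨u', a', v'⟩ | z'
    · obtain ⟨h0, h2 | h2⟩ := h2
      · refine ⟨v', ?_, h2.2.1.symm⟩
        have h3 : a' = a + σ q.2 v' := by
          have h4 := h2.2.2
          linear_combination -h4
        rw [h3, h2.1] at h1
        simpa using h1
      · exact absurd h0.symm h2.1
    · exact False.elim h2
  have hre : ∀ F : ZMod A → Fin N → ℕ, ∑ a, ∑ x, F a x = ∑ a, ∑ x, F (a + σ q.2 x) x := by
    intro F
    rw [Finset.sum_comm, Finset.sum_comm (f := fun a x => F (a + σ q.2 x) x)]
    apply Finset.sum_congr rfl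
    intro x _
    exact (Equiv.sum_comp (Equiv.addRight (σ q.2 x)) (fun a => F a x)).symm
  have hAg : ∀ F : ZMod A → Fin N → ℕ, (∀ a, gammaT (G q.2) ≤ ∑ x, F (a + σ q.2 x) x) →
      A * gammaT (G q.2) ≤ ∑ a, ∑ x, F a x := by
    intro F hF
    rw [hre]
    calc A * gammaT (G q.2) = ∑ _a : ZMod A, gammaT (G q.2) := by simp [ZMod.card]
      _ ≤ _ := Finset.sum_le_sum fun a _ => hF a
  have hcard : S.card = ∑ v : ZMod h ⊕ ZMod h, (if v ∈ S then 1 else 0) := by
    rw [← Finset.card_filter]
    congr 1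
    ext v
    simp
  rw [hcard, Fintype.sum_sum_type, ← e.sum_comp, ← e.sum_comp, Fintype.sum_sum_type,
    Fintype.sum_sum_type]
  have C1 := count' q.1 (gammaT (G q.2))
    (fun u a x => if Sum.inl (e (Sum.inl (u, a, x))) ∈ S then 1 else 0)
    (fun u hu a x => if_pos (S2 u hu a x)) (hAg _ S4)
  have C2 := count' q.1 (gammaT (G q.2))
    (fun u a x => if Sum.inr (e (Sum.inl (u, a, x))) ∈ S then 1 else 0)
    (fun u hu a x => if_pos (S1 u hu a x)) (hAg _ S3)
  simp only [Fintype.sum_prod_type]
  omega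

end big

/-- the family of the vertices `z + (i + 1)`, `i : Fin K` -/
theorem shift_inj {A K : ℕ} (hK : K < A) (i i' : Fin K)
    (h : ((i.val + 1 : ℕ) : ZMod A) = ((i'.val + 1 : ℕ) : ZMod A)) : i = i' := by
  have h1 := i.isLt
  have h2 := i'.isLt
  have h3 := cast_inj (by omega) (by omega) h
  apply Fin.ext
  omega

/-- The lower bound for `n = 2 h`, `h = m A N + r`, from a family of graphs. -/
theorem lowF {m R J N A r : ℕ} (hm : 0 < m) (hJ : 0 < J) (G : Fin J → SimpleGraph (Fin N))
    (hmin : ∀ j v, ∃ w, (G j).Adj v w) (hdeg : ∀ v, ∑ j, dg (G j) v = J + R)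
    (hA : m * J < A) (hA2 : J * N ≤ A) (hr : m * J + R < r) (h : ℕ)
    (hh : h = m * (A * N) + r) :
    (2 * h) ^ (2 * h - (R + 1) - m * J) *
      ∏ q : Fin m × Fin J, (2 * (A * (gammaT (G q.2) + (m - 1) * N))) ≤
      P (2 * h) (2 * h - (R + 1)) := by
  classical
  have : NeZero h := ⟨by omega⟩
  have : NeZero A := ⟨by omega⟩
  have : NeZero r := ⟨by omega⟩
  have hcard : Fintype.card (Z m A N r) = Fintype.card (ZMod h) := by
    simp only [Z, Fintype.card_sum, Fintype.card_prod, Fintype.card_fin, ZMod.card]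
    exact hh.symm
  have e : Z m A N r ≃ ZMod h := Fintype.equivOfCardEq hcard
  obtain ⟨σ, hσd⟩ : ∃ σ : Fin J → Fin N → ZMod A, σ = fun j v => ((j.val * v.val : ℕ) : ZMod A) :=
    ⟨_, rfl⟩
  obtain ⟨sA, hsA⟩ : ∃ sA : Fin m × Fin J → ZMod A,
      sA = fun q => (((finProdFinEquiv q).val + 1 : ℕ) : ZMod A) := ⟨_, rfl⟩
  obtain ⟨wr, hwr⟩ : ∃ wr : Fin (m * J + R) → ZMod r, wr = fun i => ((i.val + 1 : ℕ) : ZMod r) :=
    ⟨_, rfl⟩
  obtain ⟨own, hown0⟩ : ∃ own : Fin (m * J + R) → Fin m × Fin J,
      own = fun i => Fin.addCases (fun i => finProdFinEquiv.symm i) (fun _ => (⟨0, hm⟩, ⟨0, hJ⟩)) i :=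
    ⟨_, rfl⟩
  have hown : ∀ q, ∃ i, own i = q := by
    intro q
    refine ⟨Fin.castAdd R (finProdFinEquiv q), ?_⟩
    rw [hown0]
    simp only [Fin.addCases_left]
    exact finProdFinEquiv.symm_apply_apply q
  have hs : ∀ q q', sA q = sA q' → q = q' := by
    intro q q' hq
    rw [hsA] at hq
    exact finProdFinEquiv.injective (shift_inj hA _ _ hq)
  have hs0 : ∀ q, sA q ≠ 0 := by
    intro q
    rw [hsA]
    have := (finProdFinEquiv q).isLt
    exact cast_ne (by omega) (by omega)
  have hw : ∀ i i', wr i = wr i' → i = i' := by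
    intro i i' hi
    rw [hwr] at hi
    exact shift_inj hr _ _ hi
  have hw0 : ∀ i, wr i ≠ 0 := by
    intro i
    rw [hwr]
    have := i.isLt
    exact cast_ne (by omega) (by omega)
  have hσ : ∀ j j' v v', v ≠ v' → σ j v' - σ j v = σ j' v' - σ j' v → j = j' := by
    intro j j' v v' hv hjj
    rw [hσd] at hjj
    simp only at hjj
    by_contra hne
    have h1 : ((((j.val : ℤ) - j'.val) * ((v'.val : ℤ) - v.val) : ℤ) : ZMod A) = 0 := by
      push_cast at hjj ⊢
      linear_combination hjj
    rw [ZMod.intCast_zmod_eq_zero_iff_dvd] at h1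
    have h2 : ((j.val : ℤ) - j'.val) * ((v'.val : ℤ) - v.val) ≠ 0 := by
      apply mul_ne_zero
      · intro h3
        apply hne
        apply Fin.ext
        omega
      · intro h3
        apply hv
        apply Fin.ext
        omega
    have h3 := Int.le_of_dvd (abs_pos.2 h2) ((dvd_abs _ _).2 h1)
    rw [abs_mul] at h3
    have hj := j.isLt
    have hj' := j'.isLt
    have hv1 := v.isLt
    have hv' := v'.isLt
    have h4 : |(j.val : ℤ) - j'.val| < J := by
      rw [abs_lt]
      constructor <;> omega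
    have h5 : |(v'.val : ℤ) - v.val| < N := by
      rw [abs_lt]
      constructor <;> omega
    have h6 : |(j.val : ℤ) - j'.val| * |(v'.val : ℤ) - v.val| < J * N :=
      mul_lt_mul'' h4 h5 (abs_nonneg _) (abs_nonneg _)
    have h7 : ((J * N : ℕ) : ℤ) ≤ A := by exact_mod_cast hA2
    push_cast at h7
    linarith
  have hdeg' : ∀ v, ∑ j, dg (G j) v + (m - 1) * J = m * J + R := by
    intro v
    rw [hdeg v]
    obtain ⟨m', rfl⟩ : ∃ m', m = m' + 1 := ⟨m - 1, by omega⟩
    have : (m' + 1 - 1) * J = m' * J := by simp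
    rw [this]
    ring
  obtain ⟨U, hU⟩ : ∃ U : ZMod h → ZMod h → Prop,
      U = fun x y => ∃ q, Bq G σ sA wr own q (e.symm x) (e.symm y) := ⟨_, rfl⟩
  have hirr : ∀ x, ¬ U x x := by
    intro x hx
    rw [hU] at hx
    obtain ⟨q, hq⟩ := hx
    exact Bq_irr G σ sA wr own hs0 hw0 q _ hq
  have hrow : ∀ x, ∀ s : Finset (ZMod h), (∀ y, y ∈ s ↔ (x = y ∨ U x y)) →
      s.card = m * J + R + 1 := by
    intro x s hmem
    have h1 : x ∈ s := (hmem x).2 (Or.inl rfl)
    have h2 : (s.erase x).card = m * J + R := by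
      rw [← Finset.card_map e.symm.toEmbedding]
      refine Bq_card G σ sA wr own hσ hs hw hdeg' (e.symm x) _ ?_
      intro z
      simp only [mem_map, mem_erase, Equiv.coe_toEmbedding]
      constructor
      · rintro ⟨y, ⟨hy1, hy2⟩, rfl⟩
        rcases (hmem y).1 hy2 with h3 | h3
        · exact absurd h3.symm hy1
        · rw [hU] at h3
          exact h3
      · rintro ⟨q, hq⟩
        refine ⟨e z, ⟨?_, ?_⟩, by simp⟩
        · rintro rfl
          rw [e.symm_apply_apply] at hq
          exact Bq_irr G σ sA wr own hs0 hw0 q _ hq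
        · rw [hmem, hU]
          exact Or.inr ⟨q, by rwa [e.symm_apply_apply]⟩
    rw [Finset.card_erase_of_mem h1] at h2
    have := Finset.card_pos.2 ⟨x, h1⟩
    omega
  have hcol : ∀ y, ∀ s : Finset (ZMod h), (∀ x, x ∈ s ↔ (x = y ∨ U x y)) →
      s.card = m * J + R + 1 := by
    intro x s hmem
    have h1 : x ∈ s := (hmem x).2 (Or.inl rfl)
    have h2 : (s.erase x).card = m * J + R := by
      rw [← Finset.card_map e.symm.toEmbedding]
      refine Bq_card' G σ sA wr own hσ hs hw hdeg' (e.symm x) _ ?_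
      intro z
      simp only [mem_map, mem_erase, Equiv.coe_toEmbedding]
      constructor
      · rintro ⟨y, ⟨hy1, hy2⟩, rfl⟩
        rcases (hmem y).1 hy2 with h3 | h3
        · exact absurd h3 hy1
        · rw [hU] at h3
          exact h3
      · rintro ⟨q, hq⟩
        refine ⟨e z, ⟨?_, ?_⟩, by simp⟩
        · rintro rfl
          rw [e.symm_apply_apply] at hq
          exact Bq_irr G σ sA wr own hs0 hw0 q _ hq
        · rw [hmem, hU]
          exact Or.inr ⟨q, by rwa [e.symm_apply_apply]⟩
    rw [Finset.card_erase_of_mem h1] at h2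
    have := Finset.card_pos.2 ⟨x, h1⟩
    omega
  obtain ⟨M, hM1, hM2, hM3, hM4⟩ := rest (K := m * J + R) U hrow hcol
  have h1 := asmB M (fun q x y => Bq G σ sA wr own q (e.symm x) (e.symm y)) hM1 hM2
    (fun q x => Bq_irr G σ sA wr own hs0 hw0 q _)
    (fun q q' x y => Bq_dis G σ sA wr own hσ hs hw q q' _ _)
    (fun q i x hB => hM3 i x (by rw [hU]; exact ⟨q, hB⟩))
    (fun q x => by
      obtain ⟨y, hy⟩ := Bq_row G σ sA wr own hmin hown q (e.symm x)
      exact ⟨e y, by rwa [e.symm_apply_apply]⟩)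
    (fun q x => by
      obtain ⟨y, hy⟩ := Bq_col G σ sA wr own hmin hown q (e.symm x)
      exact ⟨e y, by rwa [e.symm_apply_apply]⟩)
    (fun x y hxy => by
      have := hM4 x y hxy
      rw [hU] at this
      exact this)
  have hQ : Fintype.card (Fin m × Fin J) = m * J := by
    rw [Fintype.card_prod, Fintype.card_fin, Fintype.card_fin]
  rw [hQ] at h1
  have e1 : h + (h - 1 - (m * J + R)) = 2 * h - (R + 1) - m * J := by omega
  have e2 : h + (h - 1 - (m * J + R)) + m * J = 2 * h - (R + 1) := by omega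
  rw [e2, e1] at h1
  refine le_trans (Nat.mul_le_mul_left _ ?_) h1
  exact Finset.prod_le_prod' fun q _ => Bq_gamma G σ sA wr own e hmin hown q

end Pool.Agent.Work.MP_1ce445_topR
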