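import Pool.Agent.Work.MP_1ce445_topR.Defs
import Pool.Agent.Work.MP_1ce445_topR.Fam
import Pool.Agent.Work.MP_1ce445_topR.Cor
import Pool.Agent.Work.MP_1ce445_ex.LOS

/-!
MP_1ce445_co: the limit of `P n (n - R) / n ^ (n - R)` for fixed `R`, `n` even (helper23).
-/

namespace Pool.Agent.Work.MP_1ce445_topR

open Finset Pool.Agent.Work.MP_1ce445_co_56 Pool.Agent.Work.MP_1ce445_lin
  Pool.Agent.Work.MP_1ce445_top

theorem Fam.ex {R N J : ℕ} {G : Fin J → SimpleGraph (Fin N)} (hG : Fam R N J G) (v : Fin N) :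
    ∑ j, (dg (G j) v - 1) = R - 1 := hG.exc v

theorem Fam.of {R N J : ℕ} {G : Fin J → SimpleGraph (Fin N)} (h1 : ∀ j v, ∃ w, (G j).Adj v w)
    (h2 : ∀ v, ∑ j, (dg (G j) v - 1) = R - 1) : Fam R N J G := ⟨h1, h2⟩

theorem lossR_nonneg {R N J : ℕ} {G : Fin J → SimpleGraph (Fin N)} (hG : Fam R N J G) :
    0 ≤ lossR G := by
  unfold lossR
  apply div_nonneg _ (by positivity)
  apply Finset.sum_nonneg
  intro j _
  have h1 : gammaT (G j) ≤ N := by simpa using gammaT_le_univ (hG.min j)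
  have h2 : (gammaT (G j) : ℝ) ≤ N := by exact_mod_cast h1
  linarith

theorem Lam_le {R N J : ℕ} {G : Fin J → SimpleGraph (Fin N)} (hN : 0 < N) (hG : Fam R N J G) :
    Lam R ≤ lossR G := by
  apply csInf_le
  · refine ⟨0, ?_⟩
    rintro x ⟨N, J, G, _, hG, rfl⟩
    exact lossR_nonneg hG
  · exact ⟨N, J, G, hN, hG, rfl⟩

theorem dg_pos {V : Type*} [Fintype V] {G : SimpleGraph V} {v : V} (h : ∃ w, G.Adj v w) :
    1 ≤ dg G v := by
  classical
  obtain ⟨w, hw⟩ := h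
  exact Finset.card_pos.2 ⟨w, by simpa using hw⟩

theorem Fam.deg {R N J : ℕ} {G : Fin J → SimpleGraph (Fin N)} (hG : Fam R N J G) (v : Fin N) :
    ∑ j, dg (G j) v = J + (R - 1) := by
  rw [← hG.ex v]
  have h1 : ∑ j, dg (G j) v = ∑ j, (1 + (dg (G j) v - 1)) := by
    apply Finset.sum_congr rfl
    intro j _
    have := dg_pos (hG.min j v)
    omega
  rw [h1, Finset.sum_add_distrib]
  simp

/-- a factorization is a family -/
theorem fam_of_fac {n R : ℕ} (hR : 1 ≤ R) (hn : R < n) {G : Fin (n - R) → SimpleGraph (Fin n)}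
    (hG : IsFactorization G) : Fam R n (n - R) G := by
  refine Fam.of hG.minDeg (fun v => ?_)
  have h4 := sum_degree hG v
  rw [Fintype.card_fin] at h4
  have h6 : ∑ j, ((dg (G j) v - 1) + 1) = n - 1 := by
    rw [← h4]
    apply Finset.sum_congr rfl
    intro j _
    have := dg_pos (hG.minDeg j v)
    show dg (G j) v - 1 + 1 = dg (G j) v
    omega
  rw [Finset.sum_add_distrib] at h6
  simp only [Finset.sum_const, Finset.card_univ, Fintype.card_fin, smul_eq_mul, mul_one] at h6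
  omega

/-- **Upper bound**, for all `n`. -/
theorem P_le_Lam (n R : ℕ) (hR : 1 ≤ R) (hn : R < n) :
    (P n (n - R) : ℝ) ≤ Real.exp (-Lam R) * (n : ℝ) ^ (n - R) := by
  apply up_gen n (n - R) (by omega)
  intro G hG
  have h1 := Lam_le (by omega) (fam_of_fac hR hn hG)
  unfold lossR at h1
  rwa [le_div_iff₀ (by exact_mod_cast (by omega : 0 < n))] at h1

theorem exp_mF {J : ℕ} (θ : Fin J → ℝ) (ε : ℝ) (hε : 0 < ε) :
    ∃ m : ℕ, 2 ≤ m ∧ Real.exp (-∑ j, θ j) - ε ≤ ∏ j, (1 - θ j / (m : ℝ)) ^ m := by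
  have h1 : Filter.Tendsto (fun m : ℕ => ∏ j, (1 + -θ j / (m : ℝ)) ^ m) Filter.atTop
      (nhds (∏ j, Real.exp (-θ j))) :=
    tendsto_finsetProd _ fun j _ => Real.tendsto_one_add_div_pow_exp (-θ j)
  rw [← Real.exp_sum, Finset.sum_neg_distrib] at h1
  have h2 : ∀ᶠ m : ℕ in Filter.atTop,
      Real.exp (-∑ j, θ j) - ε < ∏ j, (1 + -θ j / (m : ℝ)) ^ m :=
    h1.eventually_const_lt (by linarith)
  obtain ⟨m, hm1, hm2⟩ := (h2.and (Filter.eventually_ge_atTop 2)).exists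
  refine ⟨m, hm2, hm1.le.trans (le_of_eq ?_)⟩
  apply Finset.prod_congr rfl
  intro j _
  congr 1
  ring

/-- The real estimate. -/
theorem real_estF {J : ℕ} (θ : Fin J → ℝ) (ε n r p : ℝ) (m k : ℕ) (hε : 0 < ε) (hm : 2 ≤ m)
    (hkm : m * J ≤ k) (hθ0 : ∀ j, 0 ≤ θ j) (hθ1 : ∀ j, θ j ≤ 1)
    (hme : Real.exp (-∑ j, θ j) - ε / 2 ≤ ∏ j, (1 - θ j / (m : ℝ)) ^ m)
    (hn : 0 < n) (hrn : 4 * r * (m * J) ≤ ε * n) (hrn2 : 2 * r ≤ n) 
    (hP : n ^ (k - m * J) * ∏ _t : Fin m, ∏ j, ((n - 2 * r) * (1 - θ j / m)) ≤ p) :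
    (Real.exp (-∑ j, θ j) - ε) * n ^ k ≤ p := by
  refine le_trans ?_ hP
  have hm2 : (2 : ℝ) ≤ m := by exact_mod_cast hm
  have hprod : ∏ _t : Fin m, ∏ j, ((n - 2 * r) * (1 - θ j / m)) =
      n ^ (m * J) * ((1 - 2 * r / n) ^ (m * J) * ∏ j, (1 - θ j / (m : ℝ)) ^ m) := by
    rw [Finset.prod_const, Finset.card_univ, Fintype.card_fin, Finset.prod_mul_distrib,
      Finset.prod_const, Finset.card_univ, Fintype.card_fin, mul_pow, Finset.prod_pow, ← pow_mul,
      mul_comm J m, ← mul_assoc, ← mul_pow]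
    congr 2
    field_simp
  have hkpow : n ^ k = n ^ (k - m * J) * n ^ (m * J) := by
    rw [← pow_add]; congr 1; omega
  obtain ⟨Φ, hΦ⟩ : ∃ Φ : ℝ, Φ = ∏ j, (1 - θ j / (m : ℝ)) ^ m := ⟨_, rfl⟩
  have hj : ∀ j, 0 ≤ 1 - θ j / (m : ℝ) ∧ 1 - θ j / (m : ℝ) ≤ 1 := by
    intro j
    have h3 : θ j / m ≤ 1 := by
      rw [div_le_one (by linarith)]
      have := hθ1 j
      linarith
    have h4 : 0 ≤ θ j / m := div_nonneg (hθ0 j) (by linarith)
    constructor <;> linarith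
  have hΦ0 : 0 ≤ Φ := by
    rw [hΦ]
    exact Finset.prod_nonneg fun j _ => pow_nonneg (hj j).1 _
  have hΦ1 : Φ ≤ 1 := by
    rw [hΦ]
    exact Finset.prod_le_one (fun j _ => pow_nonneg (hj j).1 _)
      (fun j _ => pow_le_one₀ (hj j).1 (hj j).2)
  rw [← hΦ] at hme hprod
  have h1 : (1 + ((m * J : ℕ) : ℝ) * (-(2 * r / n))) ≤ (1 + -(2 * r / n)) ^ (m * J) := by
    apply one_add_mul_le_pow
    have : 2 * r / n ≤ 1 := by rw [div_le_one hn]; exact hrn2
    linarith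
  have h2 : ((m * J : ℕ) : ℝ) * (2 * r / n) ≤ ε / 2 := by
    push_cast
    rw [mul_div_assoc', div_le_iff₀ hn]
    linarith
  have h8 : (1 - ε / 2) ≤ (1 - 2 * r / n) ^ (m * J) := by
    have : (1 + -(2 * r / n)) = 1 - 2 * r / n := by ring
    rw [this] at h1
    linarith
  have h9 : (1 - ε / 2) * Φ ≤ (1 - 2 * r / n) ^ (m * J) * Φ := mul_le_mul_of_nonneg_right h8 hΦ0
  have h7 : Real.exp (-∑ j, θ j) - ε ≤ (1 - 2 * r / n) ^ (m * J) * Φ := by nlinarith
  rw [hkpow, hprod]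
  have h10 := mul_le_mul_of_nonneg_left h7
    (by positivity : (0 : ℝ) ≤ n ^ (k - m * J) * n ^ (m * J))
  nlinarith

/-- **Lower bound** from a family. -/
theorem low_fam {R N J : ℕ} (hN : 0 < N) (hJ : 0 < J) (G : Fin J → SimpleGraph (Fin N))
    (hG : Fam (R + 1) N J G) (ε : ℝ) (hε : 0 < ε) :
    ∃ n0 : ℕ, ∀ n : ℕ, n0 ≤ n → Even n →
      (Real.exp (-lossR G) - ε) * (n : ℝ) ^ (n - (R + 1)) ≤ (P n (n - (R + 1)) : ℝ) := by
  have hN0 : (0 : ℝ) < N := by exact_mod_cast hN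
  obtain ⟨θ, hθ⟩ : ∃ θ : Fin J → ℝ, θ = fun j => 1 - (gammaT (G j) : ℝ) / N := ⟨_, rfl⟩
  have hgb : ∀ j, (gammaT (G j) : ℝ) = N * (1 - θ j) := by
    intro j
    rw [hθ]
    field_simp
    ring
  have hθ0 : ∀ j, 0 ≤ θ j := by
    intro j
    have h1 : gammaT (G j) ≤ N := by simpa using gammaT_le_univ (hG.min j)
    have h2 : (gammaT (G j) : ℝ) ≤ N := by exact_mod_cast h1
    rw [hθ]
    have : (gammaT (G j) : ℝ) / N ≤ 1 := by rw [div_le_one hN0]; exact h2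
    simp only
    linarith
  have hθ1 : ∀ j, θ j ≤ 1 := by
    intro j
    rw [hθ]
    have : 0 ≤ (gammaT (G j) : ℝ) / N := by positivity
    simp only
    linarith
  have hloss : lossR G = ∑ j, θ j := by
    unfold lossR
    rw [Finset.sum_div]
    apply Finset.sum_congr rfl
    intro j _
    rw [hθ]
    field_simp
  rw [hloss]
  obtain ⟨m, hm, hme⟩ := exp_mF θ (ε / 2) (by linarith)
  obtain ⟨n1, hn1⟩ := exists_nat_ge ((4 * (m * J + R + 1 + m * N) * (m * J) : ℝ) / ε)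
  refine ⟨2 * (m * J + R + 1 + (m * J + J * N + 1) * (m * N)) + n1 + 2 * (R + 1 + m * J), ?_⟩
  intro n hn hev
  obtain ⟨h, hh⟩ := hev
  have hn2 : n = 2 * h := by omega
  have hmN : 0 < m * N := by positivity
  obtain ⟨A, hA⟩ : ∃ A, A = (h - (m * J + R + 1)) / (m * N) := ⟨_, rfl⟩
  have hdm := Nat.div_add_mod (h - (m * J + R + 1)) (m * N)
  have hmod := Nat.mod_lt (h - (m * J + R + 1)) hmN
  rw [← hA] at hdm
  obtain ⟨q, hq⟩ : ∃ q, q = (h - (m * J + R + 1)) % (m * N) := ⟨_, rfl⟩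
  rw [← hq] at hdm hmod
  have hA1 : m * J + J * N + 1 ≤ A := by
    rw [hA]
    refine (Nat.le_div_iff_mul_le hmN).2 ?_
    omega
  obtain ⟨r, hr⟩ : ∃ r, r = m * J + R + 1 + q := ⟨_, rfl⟩
  have hhr : h = m * (A * N) + r := by
    have h1 : m * N * A = m * (A * N) := by ring
    rw [h1] at hdm
    omega
  have h1 := lowF (R := R) (by omega) hJ G hG.min (fun v => hG.deg v)
    (by omega : m * J < A) (by omega : J * N ≤ A) (by omega : m * J + R < r) h hhr
  rw [← hn2, Fintype.prod_prod_type] at h1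
  have h2 : (n : ℝ) ^ (n - (R + 1) - m * J) *
      ∏ _t : Fin m, ∏ j, (2 * ((A : ℝ) * ((gammaT (G j) : ℝ) + ((m : ℝ) - 1) * N))) ≤
      (P n (n - (R + 1)) : ℝ) := by
    have h3 : ((m - 1 : ℕ) : ℝ) = (m : ℝ) - 1 := by
      rw [Nat.cast_sub (by omega)]; simp
    have h4 : ((n ^ (n - (R + 1) - m * J) *
      ∏ _t : Fin m, ∏ j, (2 * (A * (gammaT (G j) + (m - 1) * N))) : ℕ) : ℝ) ≤
        (P n (n - (R + 1)) : ℝ) := by
      exact_mod_cast h1
    push_cast at h4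
    rw [h3] at h4
    exact h4
  have hm0 : (0 : ℝ) < m := by exact_mod_cast (by omega : 0 < m)
  have hnr : (n : ℝ) = 2 * (m * (A * N) + r) := by
    rw [hn2, hhr]; push_cast; ring
  have hrb : (r : ℝ) ≤ m * J + R + 1 + m * N := by
    exact_mod_cast (by omega : r ≤ m * J + R + 1 + m * N)
  have hne : (4 * (m * J + R + 1 + m * N) * (m * J) : ℝ) ≤ ε * n := by
    have h4 : (4 * (m * J + R + 1 + m * N) * (m * J) : ℝ) / ε ≤ n :=
      hn1.trans (by exact_mod_cast (by omega : n1 ≤ n))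
    rw [div_le_iff₀ hε] at h4
    linarith
  refine real_estF θ ε n r _ m (n - (R + 1)) hε hm (by omega) hθ0 hθ1 hme
    (by exact_mod_cast (by omega : 0 < n)) ?_ ?_ ?_
  · have : (4 * (r : ℝ) * (m * J)) ≤ 4 * (m * J + R + 1 + m * N) * (m * J) := by
      apply mul_le_mul_of_nonneg_right _ (by positivity)
      linarith
    linarith
  · rw [hnr]
    have : (0 : ℝ) ≤ m * (A * N) := by positivity
    linarith
  · refine le_trans (le_of_eq ?_) h2
    congr 1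
    apply Finset.prod_congr rfl
    intro t _
    apply Finset.prod_congr rfl
    intro j _
    rw [hgb, hnr]
    field_simp
    ring

/-! ### The limit -/

/-- the family of one regular graph -/
theorem fam_reg {R b : ℕ} (hR : 1 ≤ R) (H : SimpleGraph (Fin b)) (hreg : ∀ x, dg H x = R) :
    Fam R b 1 (fun _ => H) := by
  refine Fam.of (fun _ v => ?_) (fun v => ?_)
  · have h1 : 0 < dg H v := by rw [hreg v]; omega
    obtain ⟨w, hw⟩ := Finset.card_pos.1 h1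
    exact ⟨w, by simpa using hw⟩
  · simp [hreg v]

theorem lossR_reg {b : ℕ} (hb : 0 < b) (H : SimpleGraph (Fin b)) :
    lossR (fun _ : Fin 1 => H) = 1 - (gammaT H : ℝ) / b := by
  have hb0 : (0 : ℝ) < b := by exact_mod_cast hb
  unfold lossR
  simp only [Finset.univ_unique, Finset.sum_const, Finset.card_singleton, one_smul]
  field_simp

/-- Every `R`-regular graph gives an upper bound for `Lam R`. -/
theorem Lam_le_reg {R b : ℕ} (hR : 1 ≤ R) (hb : 0 < b) (H : SimpleGraph (Fin b))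
    (hreg : ∀ x, dg H x = R) (g : ℕ) (hg : g ≤ gammaT H) : Lam R ≤ 1 - (g : ℝ) / b := by
  have h1 := Lam_le hb (fam_reg hR H hreg)
  rw [lossR_reg hb] at h1
  have h2 : (g : ℝ) / b ≤ (gammaT H : ℝ) / b := by
    apply div_le_div_of_nonneg_right _ (by positivity)
    exact_mod_cast hg
  linarith

theorem top_dg (r : ℕ) (x : Fin (r + 2)) : dg (⊤ : SimpleGraph (Fin (r + 2))) x = r + 1 := by
  classical
  have h0 : dg (⊤ : SimpleGraph (Fin (r + 2))) x = (univ.erase x).card := by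
    unfold dg
    congr 1
    ext y
    simp [eq_comm]
  rw [h0, Finset.card_erase_of_mem (mem_univ x), Finset.card_univ, Fintype.card_fin]
  omega

theorem top_gamma (r : ℕ) : 2 ≤ gammaT (⊤ : SimpleGraph (Fin (r + 2))) := by
  obtain ⟨S, hS, hc⟩ := exists_tds (G := (⊤ : SimpleGraph (Fin (r + 2)))) (fun v => by
    have h0 : 0 < dg (⊤ : SimpleGraph (Fin (r + 2))) v := by
      rw [top_dg]; omega
    obtain ⟨w, hw⟩ := Finset.card_pos.1 h0
    exact ⟨w, by simpa using hw⟩)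
  rw [← hc]
  obtain ⟨w, hw, _⟩ := hS 0
  obtain ⟨w', hw', ha⟩ := hS w
  have hne : w ≠ w' := ha.ne
  exact Finset.one_lt_card.2 ⟨w, hw, w', hw', hne⟩

/-- the complete graph -/
theorem Lam_le_top (R : ℕ) (hR : 1 ≤ R) : Lam R ≤ ((R : ℝ) - 1) / (R + 1) := by
  obtain ⟨r, rfl⟩ : ∃ r, R = r + 1 := ⟨R - 1, by omega⟩
  have h1 := Lam_le_reg hR (by omega : 0 < r + 2) ⊤ (top_dg r) 2 (top_gamma r)
  have h2 : (1 - ((2 : ℕ) : ℝ) / ((r + 2 : ℕ) : ℝ)) =
      (((r + 1 : ℕ) : ℝ) - 1) / (((r + 1 : ℕ) : ℝ) + 1) := by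
    push_cast
    field_simp
    ring
  rwa [h2] at h1

/-- the bipartite complement of the Heawood graph -/
theorem Lam_four_le : Lam 4 ≤ 4 / 7 := by
  have h1 := Lam_le_reg (R := 4) (by omega) (by omega : 0 < 14) hea (fun x => by
    refine Eq.trans ?_ (hea_reg x)
    unfold dg
    congr) 6 hea_gamma
  have h2 : (1 - ((6 : ℕ) : ℝ) / ((14 : ℕ) : ℝ)) = 4 / 7 := by norm_num
  rwa [h2] at h1

theorem set_nonempty (R : ℕ) (hR : 1 ≤ R) :
    {x : ℝ | ∃ (N J : ℕ) (G : Fin J → SimpleGraph (Fin N)),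
      0 < N ∧ Fam R N J G ∧ x = lossR G}.Nonempty := by
  obtain ⟨r, rfl⟩ : ∃ r, R = r + 1 := ⟨R - 1, by omega⟩
  exact ⟨_, r + 2, 1, _, by omega, fam_reg hR ⊤ (top_dg r), rfl⟩

theorem le_Lam (R : ℕ) (hR : 1 ≤ R) (c : ℝ) (h : ∀ (N J : ℕ) (G : Fin J → SimpleGraph (Fin N)),
    0 < N → Fam R N J G → c * N ≤ ∑ j, ((N : ℝ) - gammaT (G j))) : c ≤ Lam R := by
  apply le_csInf (set_nonempty R hR)
  rintro x ⟨N, J, G, hN, hG, rfl⟩
  unfold lossR
  rw [le_div_iff₀ (by exact_mod_cast hN)]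
  exact h N J G hN hG

/-- **Lower bound**, for all large even `n`. -/
theorem le_P_Lam (R : ℕ) (hR : 2 ≤ R) (ε : ℝ) (hε : 0 < ε) :
    ∃ n0 : ℕ, ∀ n : ℕ, n0 ≤ n → Even n →
      (Real.exp (-Lam R) - ε) * (n : ℝ) ^ (n - R) ≤ (P n (n - R) : ℝ) := by
  obtain ⟨R, rfl⟩ : ∃ R', R = R' + 1 := ⟨R - 1, by omega⟩
  obtain ⟨x, ⟨N, J, G, hN, hG, rfl⟩, hx⟩ := exists_lt_of_csInf_lt (set_nonempty (R + 1) (by omega))
    (show Lam (R + 1) < Lam (R + 1) + ε / 2 by linarith)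
  have hJ : 0 < J := by
    rcases Nat.eq_zero_or_pos J with h0 | h0
    · subst h0
      have := hG.ex ⟨0, hN⟩
      simp at this
      omega
    · exact h0
  obtain ⟨n0, h0⟩ := low_fam hN hJ G hG (ε / 2) (by linarith)
  refine ⟨n0, fun n hn he => le_trans ?_ (h0 n hn he)⟩
  apply mul_le_mul_of_nonneg_right _ (by positivity)
  have hL0 : 0 ≤ Lam (R + 1) := by
    apply Real.sInf_nonneg
    rintro x ⟨N, J, G, _, hG, rfl⟩
    exact lossR_nonneg hG
  have h1 : Real.exp (-Lam (R + 1)) * (1 - ε / 2) ≤ Real.exp (-lossR G) := by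
    have h2 : Real.exp (-(Lam (R + 1) + ε / 2)) ≤ Real.exp (-lossR G) :=
      Real.exp_le_exp.2 (by linarith)
    refine le_trans ?_ h2
    rw [neg_add, Real.exp_add]
    apply mul_le_mul_of_nonneg_left _ (Real.exp_pos _).le
    have := Real.add_one_le_exp (-(ε / 2))
    linarith
  have h2 : Real.exp (-Lam (R + 1)) ≤ 1 := Real.exp_le_one_iff.2 (by linarith)
  nlinarith [Real.exp_pos (-Lam (R + 1))]

/-- **The limit** for `n` even. -/
theorem tendsto_even (R : ℕ) (hR : 2 ≤ R) :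
    Filter.Tendsto (fun h : ℕ => (P (2 * h) (2 * h - R) : ℝ) / ((2 * h : ℕ) : ℝ) ^ (2 * h - R))
      Filter.atTop (nhds (Real.exp (-Lam R))) := by
  rw [Metric.tendsto_atTop]
  intro ε hε
  obtain ⟨n0, h0⟩ := le_P_Lam R hR (ε / 2) (by linarith)
  refine ⟨n0 + R + 1, fun h hh => ?_⟩
  have h1 := h0 (2 * h) (by omega) ⟨h, by ring⟩
  have h2 := P_le_Lam (2 * h) R (by omega) (by omega)
  have hn : (0 : ℝ) < ((2 * h : ℕ) : ℝ) ^ (2 * h - R) := by
    have : (0 : ℝ) < ((2 * h : ℕ) : ℝ) := by exact_mod_cast (by omega : 0 < 2 * h)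
    positivity
  rw [Real.dist_eq, abs_lt]
  constructor
  · have : Real.exp (-Lam R) - ε / 2 ≤
        (P (2 * h) (2 * h - R) : ℝ) / ((2 * h : ℕ) : ℝ) ^ (2 * h - R) := by
      rw [le_div_iff₀ hn]
      exact h1
    linarith
  · have : (P (2 * h) (2 * h - R) : ℝ) / ((2 * h : ℕ) : ℝ) ^ (2 * h - R) ≤
        Real.exp (-Lam R) := by
      rw [div_le_iff₀ hn]
      exact h2
    linarith

/-! ### Bounds for `Lam` -/

theorem Fam.le {R N J : ℕ} {G : Fin J → SimpleGraph (Fin N)} (hR : 1 ≤ R) (hG : Fam R N J G)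
    (j : Fin J) (v : Fin N) : 1 ≤ dg (G j) v ∧ dg (G j) v ≤ R := by
  have h1 := dg_pos (hG.min j v)
  have h2 := hG.ex v
  have h3 := Finset.single_le_sum (f := fun j => dg (G j) v - 1) (fun _ _ => Nat.zero_le _)
    (mem_univ j)
  omega

theorem Fam.total {R N J : ℕ} {G : Fin J → SimpleGraph (Fin N)} (hG : Fam R N J G) :
    ∑ j, ∑ v, (dg (G j) v - 1) = N * (R - 1) := by
  rw [Finset.sum_comm, Finset.sum_congr rfl (fun v _ => hG.ex v)]
  simp

/-- `Lam 2 = 1/3`: triangles. -/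
theorem Lam_two : Lam 2 = 1 / 3 := by
  apply le_antisymm
  · have := Lam_le_top 2 (by omega)
    norm_num at this ⊢
    exact this
  · apply le_Lam 2 (by omega)
    intro N J G hN hG
    have h1 : ∀ j, ((∑ v, (dg (G j) v - 1) : ℕ) : ℝ) ≤ 3 * ((N : ℝ) - gammaT (G j)) := by
      intro j
      have h2 := (Pool.Agent.Work.MP_1ce445_ex.stmt_LOS (G j)
        (fun v => hG.le (by omega) j v)).1
      have h3 : ∑ v, (dg (G j) v - 1) = (univ.filter (fun v => dg (G j) v = 2)).card := by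
        rw [Finset.card_filter]
        apply Finset.sum_congr rfl
        intro v _
        have := hG.le (by omega) j v
        by_cases h4 : dg (G j) v = 2
        · rw [if_pos h4, h4]
        · rw [if_neg h4]
          omega
      rw [← h3, Fintype.card_fin] at h2
      have h5 : ((∑ v, (dg (G j) v - 1) : ℕ) : ℝ) + 3 * (gammaT (G j) : ℝ) ≤ 3 * (N : ℝ) := by
        exact_mod_cast h2
      linarith
    have h2 := Finset.sum_le_sum (fun j (_ : j ∈ univ) => h1 j)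
    rw [← Nat.cast_sum, hG.total, ← Finset.mul_sum] at h2
    push_cast at h2
    linarith

/-- The bounds of the probabilistic method. -/
theorem ran_le_Lam (R q : ℕ) (hq : 1 ≤ q) (hR : 1 ≤ R) :
    (1 - 1 / (q : ℝ)) * (1 - (1 - 1 / (q : ℝ)) ^ (R - 1)) ≤ Lam R := by
  apply le_Lam R hR
  intro n J G hn hG
  obtain ⟨x, hx⟩ : ∃ x : ℝ, x = 1 - 1 / (q : ℝ) := ⟨_, rfl⟩
  have hq0 : (1 : ℝ) ≤ q := by exact_mod_cast hq
  have hx0 : 0 ≤ x := by
    rw [hx]
    have : 1 / (q : ℝ) ≤ 1 := by rw [div_le_one (by linarith)]; exact hq0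
    linarith
  have hx1 : x ≤ 1 := by
    rw [hx]
    have : 0 ≤ 1 / (q : ℝ) := by positivity
    linarith
  have h1 : ∀ j, ∑ v, x * (1 - x ^ (dg (G j) v - 1)) ≤ (n : ℝ) - gammaT (G j) := by
    intro j
    have h2 := stmt_RAN (G j) q hq (hG.min j)
    rw [← hx] at h2
    have h3 : (n : ℝ) = ∑ _v : Fin n, (1 : ℝ) := by simp
    have h4 : ∑ v, x * (1 - x ^ (dg (G j) v - 1)) =
        ∑ v : Fin n, ((1 : ℝ) - (1 / (q : ℝ) + x ^ (dg (G j) v))) := by
      apply Finset.sum_congr rfl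
      intro v _
      have h5 : 1 ≤ dg (G j) v := dg_pos (hG.min j v)
      have h6 : x ^ (dg (G j) v) = x * x ^ (dg (G j) v - 1) := by
        rw [← pow_succ']
        congr 1
        omega
      have h7 : 1 / (q : ℝ) = 1 - x := by rw [hx]; ring
      rw [h6, h7]
      ring
    rw [h4, Finset.sum_sub_distrib, ← h3]
    linarith
  have h2 : ∀ v : Fin n, 1 - x ^ (R - 1) ≤ ∑ j, (1 - x ^ (dg (G j) v - 1)) := by
    intro v
    rw [← hG.ex v]
    exact stmt_SUB univ (fun j => dg (G j) v - 1) x hx0 hx1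
  rw [← hx]
  calc x * (1 - x ^ (R - 1)) * n = ∑ _v : Fin n, x * (1 - x ^ (R - 1)) := by simp; ring
    _ ≤ ∑ v : Fin n, ∑ j, x * (1 - x ^ (dg (G j) v - 1)) := by
        apply Finset.sum_le_sum
        intro v _
        rw [← Finset.mul_sum]
        exact mul_le_mul_of_nonneg_left (h2 v) hx0
    _ = ∑ j, ∑ v, x * (1 - x ^ (dg (G j) v - 1)) := Finset.sum_comm
    _ ≤ _ := Finset.sum_le_sum fun j _ => h1 j

/-- `Lam 3 = 1/2`: complete graphs on four vertices. -/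
theorem Lam_three (hLO3 : ∀ {V : Type} [Fintype V] [DecidableEq V] (G : SimpleGraph V),
    (∀ v, 1 ≤ dg G v ∧ dg G v ≤ 3) →
    ∑ v, (dg G v - 1) + 4 * gammaT G ≤ 4 * Fintype.card V) : Lam 3 = 1 / 2 := by
  apply le_antisymm
  · have := Lam_le_top 3 (by omega)
    norm_num at this ⊢
    exact this
  · apply le_Lam 3 (by omega)
    intro N J G hN hG
    have h1 : ∀ j, ((∑ v, (dg (G j) v - 1) : ℕ) : ℝ) ≤ 4 * ((N : ℝ) - gammaT (G j)) := by
      intro j
      have h2 := hLO3 (G j) (fun v => hG.le (by omega) j v)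
      rw [Fintype.card_fin] at h2
      have h5 : ((∑ v, (dg (G j) v - 1) : ℕ) : ℝ) + 4 * (gammaT (G j) : ℝ) ≤ 4 * (N : ℝ) := by
        exact_mod_cast h2
      linarith
    have h2 := Finset.sum_le_sum (fun j (_ : j ∈ univ) => h1 j)
    rw [← Nat.cast_sum, hG.total, ← Finset.mul_sum] at h2
    push_cast at h2
    linarith

end Pool.Agent.Work.MP_1ce445_topR
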