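import Pool.Agent.Work.MP_1ce445_top.TAE
import Pool.Agent.Work.MP_1ce445_top.TDA
import Pool.Agent.Work.MP_1ce445_top.TCL
import Pool.Agent.Work.MP_1ce445_lin.KOE

/-!
MP_1ce445_co: lower bounds for `P n (n - R)`, `R` fixed, `n` even, from regular graphs (helper23).
-/

namespace Pool.Agent.Work.MP_1ce445_topR

open Finset Pool.Agent.Work.MP_1ce445_co_56 Pool.Agent.Work.MP_1ce445_lin
  Pool.Agent.Work.MP_1ce445_top

/-- assembly with a common lower bound for the big factors -/
theorem asm {V I : Type} [Fintype V] [Fintype I] {m : ℕ} (μ : I → V → V) (W : V → V → Prop)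
    (cl : V → Fin m) (bg : Fin m → I) (h : Td μ W cl bg) (X : ℕ)
    (hX : ∀ t, X ≤ gammaT (TAE_g h (bg t))) :
    Fintype.card V ^ (Fintype.card I - m) * X ^ m ≤ P (Fintype.card V) (Fintype.card I) := by
  classical
  have h1 := le_P (V := V) (ι := I) (n := Fintype.card V) (k := Fintype.card I) rfl rfl
    (TAE_fac h)
  refine le_trans ?_ h1
  obtain ⟨R, hR⟩ : ∃ R : Finset I, R = univ.image bg := ⟨_, rfl⟩
  have hRc : R.card = m := by
    rw [hR, card_image_of_injective _ h.bg_inj, card_univ, Fintype.card_fin]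
  have h2 : ∏ i : I, (if i ∈ R then X else Fintype.card V) =
      Fintype.card V ^ (Fintype.card I - m) * X ^ m := by
    rw [prod_ite, prod_const, prod_const, filter_univ_mem, hRc, mul_comm]
    congr 2
    have e : univ.filter (fun i => i ∉ R) = Rᶜ := by
      ext i
      simp
    rw [e, card_compl, hRc]
  rw [← h2]
  refine Finset.prod_le_prod' fun i _ => ?_
  by_cases hi : i ∈ R
  · rw [if_pos hi]
    rw [hR, mem_image] at hi
    obtain ⟨t, -, rfl⟩ := hi
    exact hX t
  · rw [if_neg hi]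
    refine TAE_small h i fun t ht => hi ?_
    rw [hR, mem_image]
    exact ⟨t, mem_univ t, ht⟩

open Classical in
/-- the adjacency relation of a regular graph contains disjoint bijections -/
theorem konig {b R : ℕ} (H : SimpleGraph (Fin b))
    (hreg : ∀ x, (univ.filter (fun y => H.Adj x y)).card = R) :
    ∃ π : Fin R → (Fin b ≃ Fin b), (∀ i x, H.Adj x (π i x)) ∧
      (∀ i j x, π i x = π j x → i = j) := by
  have hK := Pool.Agent.Work.MP_1ce445_lin.stmt_KOE
  obtain ⟨π, hπ⟩ := hK (Fin b) (Fin b) R (fun x y => if H.Adj x y then 1 else 0) rfl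
    (fun x => by rw [← Finset.card_filter]; exact hreg x)
    (fun y => by
      rw [← Finset.card_filter, ← hreg y]
      congr 1
      ext x
      simp [H.adj_comm])
  have hadj : ∀ i x, H.Adj x (π i x) := by
    intro i x
    by_contra hn
    have h1 := hπ x (π i x)
    rw [if_neg hn] at h1
    have h2 := Finset.card_eq_zero.1 h1.symm
    have h3 : i ∈ univ.filter (fun z => π z x = π i x) := by simp
    rw [h2] at h3
    simp at h3
  refine ⟨π, hadj, ?_⟩
  intro i j x hij
  have h1 := hπ x (π i x)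
  rw [if_pos (hadj i x)] at h1
  obtain ⟨a, ha⟩ := Finset.card_eq_one.1 h1.symm
  have h2 : i ∈ univ.filter (fun z => π z x = π i x) := by simp
  have h3 : j ∈ univ.filter (fun z => π z x = π i x) := by simp [hij]
  rw [ha, Finset.mem_singleton] at h2 h3
  rw [h2, h3]

/-! ### One side of the vertex set -/

/-- one side of the vertex set: `m` clusters, each of `A` blocks of size `b`, and `r` other vertices -/
abbrev Z (m A b r : ℕ) : Type := (Fin m × (ZMod A × Fin b)) ⊕ ZMod r

/-- the cluster -/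
def cz {m A b r : ℕ} (hm : 0 < m) : Z m A b r → Fin m
  | Sum.inl p => p.1
  | Sum.inr _ => ⟨0, hm⟩

/-- the bijections of the other pairs -/
def Fp {R m A b r : ℕ} (π : Fin (R + 1) → (Fin b ≃ Fin b)) (i : Fin R) : Z m A b r ≃ Z m A b r :=
  Equiv.sumCongr (Equiv.prodCongr (Equiv.refl _) (Equiv.prodCongr (Equiv.refl _) (π i.castSucc)))
    (Equiv.addRight ((i.val + 1 : ℕ) : ZMod r))

/-- the matching of the big factor `t` -/
def Np {R m A b r : ℕ} (π : Fin (R + 1) → (Fin b ≃ Fin b)) (t : Fin m) : Z m A b r ≃ Z m A b r :=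
  Equiv.sumCongr (Equiv.prodShear (Equiv.refl _) (fun u =>
      if u = t then Equiv.prodCongr (Equiv.refl _) (π (Fin.last R))
      else Equiv.prodCongr (Equiv.addRight ((t.val + 1 : ℕ) : ZMod A)) (Equiv.refl _)))
    (Equiv.addRight ((R + t.val + 1 : ℕ) : ZMod r))

section side

variable {R m A b r : ℕ} (π : Fin (R + 1) → (Fin b ≃ Fin b))

theorem Fp_inl (i : Fin R) (u : Fin m) (a : ZMod A) (x : Fin b) :
    (Fp π i : Z m A b r ≃ Z m A b r) (Sum.inl (u, a, x)) = Sum.inl (u, a, π i.castSucc x) := rfl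

theorem Fp_inr (i : Fin R) (z : ZMod r) :
    (Fp π i : Z m A b r ≃ Z m A b r) (Sum.inr z) = Sum.inr (z + ((i.val + 1 : ℕ) : ZMod r)) := rfl

theorem Np_eq (t : Fin m) (a : ZMod A) (x : Fin b) :
    (Np π t : Z m A b r ≃ Z m A b r) (Sum.inl (t, a, x)) = Sum.inl (t, a, π (Fin.last R) x) := by
  simp [Np]

theorem Np_ne (t u : Fin m) (h : u ≠ t) (a : ZMod A) (x : Fin b) :
    (Np π t : Z m A b r ≃ Z m A b r) (Sum.inl (u, a, x)) =
      Sum.inl (u, a + ((t.val + 1 : ℕ) : ZMod A), x) := by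
  simp [Np, h]

theorem Np_inr (t : Fin m) (z : ZMod r) :
    (Np π t : Z m A b r ≃ Z m A b r) (Sum.inr z) =
      Sum.inr (z + ((R + t.val + 1 : ℕ) : ZMod r)) := rfl

theorem cast_ne {A c : ℕ} (h0 : 0 < c) (h1 : c < A) : ((c : ℕ) : ZMod A) ≠ 0 := by
  intro h
  rw [ZMod.natCast_eq_zero_iff] at h
  exact absurd (Nat.le_of_dvd h0 h) (by omega)

theorem cast_inj {A c d : ℕ} (h0 : c < A) (h1 : d < A) (h : ((c : ℕ) : ZMod A) = (d : ℕ)) :
    c = d := by
  rw [ZMod.natCast_eq_natCast_iff'] at h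
  rwa [Nat.mod_eq_of_lt h0, Nat.mod_eq_of_lt h1] at h

theorem Fp_cl (hm : 0 < m) (i : Fin R) (z : Z m A b r) : cz hm (Fp π i z) = cz hm z := by
  rcases z with ⟨u, a, x⟩ | z
  · rfl
  · rfl

theorem Np_cl (hm : 0 < m) (t : Fin m) (z : Z m A b r) : cz hm (Np π t z) = cz hm z := by
  rcases z with ⟨u, a, x⟩ | z
  · by_cases h : u = t
    · subst h
      rw [Np_eq]
      rfl
    · rw [Np_ne π t u h]
      rfl
  · rfl

theorem Fp_ne (hπ : ∀ i x, π i x ≠ x) (hr : R + m < r) (i : Fin R) (z : Z m A b r) :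
    Fp π i z ≠ z := by
  rcases z with ⟨u, a, x⟩ | z
  · rw [Fp_inl]
    intro h
    simp only [Sum.inl.injEq, Prod.mk.injEq, true_and] at h
    exact hπ _ _ h
  · rw [Fp_inr]
    intro h
    simp only [Sum.inr.injEq, add_eq_left] at h
    have := i.isLt
    exact cast_ne (by omega) (by omega) h

theorem Np_ne_self (hπ : ∀ i x, π i x ≠ x) (hA : m < A) (hr : R + m < r) (t : Fin m)
    (z : Z m A b r) : Np π t z ≠ z := by
  have ht := t.isLt
  rcases z with ⟨u, a, x⟩ | z
  · by_cases h : u = t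
    · subst h
      rw [Np_eq]
      intro h
      simp only [Sum.inl.injEq, Prod.mk.injEq, true_and] at h
      exact hπ _ _ h
    · rw [Np_ne π t u h]
      intro h
      simp only [Sum.inl.injEq, Prod.mk.injEq, true_and, and_true, add_eq_left] at h
      exact cast_ne (by omega) (by omega) h
  · rw [Np_inr]
    intro h
    simp only [Sum.inr.injEq, add_eq_left] at h
    exact cast_ne (by omega) (by omega) h

theorem Fp_inj (hπ : ∀ i j x, π i x = π j x → i = j) (hr : R + m < r) (i j : Fin R)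
    (z : Z m A b r) (h : Fp π i z = Fp π j z) : i = j := by
  rcases z with ⟨u, a, x⟩ | z
  · rw [Fp_inl, Fp_inl] at h
    simp only [Sum.inl.injEq, Prod.mk.injEq, true_and] at h
    exact Fin.castSucc_injective _ (hπ _ _ _ h)
  · rw [Fp_inr, Fp_inr] at h
    simp only [Sum.inr.injEq] at h
    have h1 := i.isLt
    have h2 := j.isLt
    have h3 := cast_inj (by omega) (by omega) (add_left_cancel h)
    apply Fin.ext
    omega

theorem Np_inj (hπ : ∀ i x, π i x ≠ x) (hA : m < A) (hr : R + m < r) (t t' : Fin m)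
    (z : Z m A b r) (h : Np π t z = Np π t' z) : t = t' := by
  have ht := t.isLt
  have ht' := t'.isLt
  rcases z with ⟨u, a, x⟩ | z
  · by_cases h1 : u = t
    · by_cases h2 : u = t'
      · exact h1.symm.trans h2
      · subst h1
        rw [Np_eq, Np_ne π t' u h2] at h
        simp only [Sum.inl.injEq, Prod.mk.injEq, true_and] at h
        exact absurd h.2 (hπ _ _)
    · by_cases h2 : u = t'
      · subst h2
        rw [Np_eq, Np_ne π t u h1] at h
        simp only [Sum.inl.injEq, Prod.mk.injEq, true_and] at h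
        exact absurd h.2.symm (hπ _ _)
      · rw [Np_ne π t u h1, Np_ne π t' u h2] at h
        simp only [Sum.inl.injEq, Prod.mk.injEq, true_and, and_true] at h
        have h3 := cast_inj (by omega) (by omega) (add_left_cancel h)
        apply Fin.ext
        omega
  · rw [Np_inr, Np_inr] at h
    simp only [Sum.inr.injEq] at h
    have h3 := cast_inj (by omega) (by omega) (add_left_cancel h)
    apply Fin.ext
    omega

theorem Fp_ne_Np (hπ : ∀ i j x, π i x = π j x → i = j) (hA : m < A) (hr : R + m < r)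
    (i : Fin R) (t : Fin m) (z : Z m A b r) : Fp π i z ≠ Np π t z := by
  have ht := t.isLt
  have hi := i.isLt
  rcases z with ⟨u, a, x⟩ | z
  · by_cases h1 : u = t
    · subst h1
      rw [Fp_inl, Np_eq]
      intro h
      simp only [Sum.inl.injEq, Prod.mk.injEq, true_and] at h
      have h2 := hπ _ _ _ h
      have h3 := congrArg Fin.val h2
      simp at h3
      omega
    · rw [Fp_inl, Np_ne π t u h1]
      intro h
      simp only [Sum.inl.injEq, Prod.mk.injEq, true_and] at h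
      exact cast_ne (by omega) (by omega) (add_eq_left.1 h.1.symm)
  · rw [Fp_inr, Np_inr]
    intro h
    simp only [Sum.inr.injEq] at h
    have h3 := cast_inj (by omega) (by omega) (add_left_cancel h)
    omega

end side

/-! ### The factorization -/

/-- completion of a family of disjoint matchings without fixed points -/
theorem fam {h m R : ℕ} [NeZero h] (F : Fin R → (ZMod h ≃ ZMod h)) (N : Fin m → (ZMod h ≃ ZMod h))
    (hF : ∀ i x, F i x ≠ x) (hN : ∀ t x, N t x ≠ x) (hFF : ∀ i j x, F i x = F j x → i = j)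
    (hNN : ∀ i j x, N i x = N j x → i = j) (hFN : ∀ i t x, F i x ≠ N t x) :
    ∃ M : Fin (m + (h - 1 - (R + m))) → (ZMod h ≃ ZMod h),
      (∀ t : Fin m, M (finSumFinEquiv (Sum.inl t)) = N t) ∧
      (∀ i x, M i x ≠ x) ∧ (∀ i j x, M i x = M j x → i = j) ∧ (∀ i j x, F i x ≠ M j x) ∧
      (∀ x y, x ≠ y → (∃ i, F i x = y) ∨ ∃ i, M i x = y) := by
  obtain ⟨M', h1, h2, h3, h4⟩ := TCL_match Pool.Agent.Work.MP_1ce445_lin.stmt_KOE h (R + m)
    (fun q => Sum.elim F N (finSumFinEquiv.symm q))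
    (by
      intro q x
      obtain ⟨q, rfl⟩ := finSumFinEquiv.surjective q
      rcases q with q | q
      · simpa using hF q x
      · simpa using hN q x)
    (by
      intro q q' x hq
      obtain ⟨q, rfl⟩ := finSumFinEquiv.surjective q
      obtain ⟨q', rfl⟩ := finSumFinEquiv.surjective q'
      rcases q with q | q <;> rcases q' with q' | q' <;>
        simp only [Equiv.symm_apply_apply, Sum.elim_inl, Sum.elim_inr] at hq
      · rw [hFF _ _ _ hq]
      · exact absurd hq (hFN _ _ _)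
      · exact absurd hq.symm (hFN _ _ _)
      · rw [hNN _ _ _ hq])
  have hFM : ∀ i j x, F i x ≠ M' j x := by
    intro i j x
    have := h3 (finSumFinEquiv (Sum.inl i)) j x
    simpa using this
  have hNM : ∀ i j x, N i x ≠ M' j x := by
    intro i j x
    have := h3 (finSumFinEquiv (Sum.inr i)) j x
    simpa using this
  refine ⟨fun q => Sum.elim N M' (finSumFinEquiv.symm q), ?_, ?_, ?_, ?_, ?_⟩
  · intro t
    simp
  · intro q x
    obtain ⟨q, rfl⟩ := finSumFinEquiv.surjective q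
    rcases q with q | q
    · simpa using hN q x
    · simpa using h1 q x
  · intro q q' x hq
    obtain ⟨q, rfl⟩ := finSumFinEquiv.surjective q
    obtain ⟨q', rfl⟩ := finSumFinEquiv.surjective q'
    rcases q with q | q <;> rcases q' with q' | q' <;>
      simp only [Equiv.symm_apply_apply, Sum.elim_inl, Sum.elim_inr] at hq
    · rw [hNN _ _ _ hq]
    · exact absurd hq (hNM _ _ _)
    · exact absurd hq.symm (hNM _ _ _)
    · rw [h2 _ _ _ hq]
  · intro i q x
    obtain ⟨q, rfl⟩ := finSumFinEquiv.surjective q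
    rcases q with q | q
    · simpa using hFN i q x
    · simpa using hFM i q x
  · intro x y hxy
    rcases h4 x y hxy with ⟨q, hq⟩ | ⟨i, hi⟩
    · obtain ⟨q, rfl⟩ := finSumFinEquiv.surjective q
      rcases q with q | q
      · left
        exact ⟨q, by simpa using hq⟩
      · right
        exact ⟨finSumFinEquiv (Sum.inl q), by simpa using hq⟩
    · right
      exact ⟨finSumFinEquiv (Sum.inr i), by simpa using hi⟩

/-- conjugation -/
def cj {α β : Type} (e : α ≃ β) (f : α ≃ α) : β ≃ β := e.symm.trans (f.trans e)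

theorem cj_apply {α β : Type} (e : α ≃ β) (f : α ≃ α) (z : α) : cj e f (e z) = e (f z) := by
  simp [cj]

theorem cj_symm_apply {α β : Type} (e : α ≃ β) (f : α ≃ α) (z : α) :
    (cj e f).symm (e z) = e (f.symm z) := by
  simp [cj]

/-- The factors and their properties. -/
theorem facs {h m R A b r : ℕ} [NeZero h] (e : Z m A b r ≃ ZMod h) (hm : 0 < m)
    (hA : m < A) (hr : R + m < r) (hmh : m ≤ h) (π : Fin (R + 1) → (Fin b ≃ Fin b))
    (hπ : ∀ i x, π i x ≠ x) (hπ2 : ∀ i j x, π i x = π j x → i = j) :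
    ∃ (M : Fin (m + (h - 1 - (R + m))) → (ZMod h ≃ ZMod h))
      (_ : Td (TDA_mu M) (TDA_W (fun i : Fin R => cj e (Fp π i)))
        (Sum.elim (fun x => cz hm (e.symm x)) (fun x => cz hm (e.symm x)))
        (fun t => Sum.inr (finSumFinEquiv (Sum.inl t)))),
      ∀ t : Fin m, M (finSumFinEquiv (Sum.inl t)) = cj e (Np π t) := by
  obtain ⟨M, h1, h2, h3, h4, h5⟩ := fam (fun i : Fin R => cj e (Fp π i))
    (fun t : Fin m => cj e (Np π t))
    (by
      intro i x
      obtain ⟨z, rfl⟩ := e.surjective x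
      rw [cj_apply]
      exact fun h => Fp_ne π hπ hr i z (e.injective h))
    (by
      intro i x
      obtain ⟨z, rfl⟩ := e.surjective x
      rw [cj_apply]
      exact fun h => Np_ne_self π hπ hA hr i z (e.injective h))
    (by
      intro i j x h
      obtain ⟨z, rfl⟩ := e.surjective x
      rw [cj_apply, cj_apply] at h
      exact Fp_inj π hπ2 hr i j z (e.injective h))
    (by
      intro i j x h
      obtain ⟨z, rfl⟩ := e.surjective x
      rw [cj_apply, cj_apply] at h
      exact Np_inj π hπ hA hr i j z (e.injective h))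
    (by
      intro i j x
      obtain ⟨z, rfl⟩ := e.surjective x
      rw [cj_apply, cj_apply]
      exact fun h => Fp_ne_Np π hπ2 hA hr i j z (e.injective h))
  have hT := TDA_td hmh (fun x => cz hm (e.symm x)) (fun i : Fin R => cj e (Fp π i)) M
    (by
      intro i x
      obtain ⟨z, rfl⟩ := e.surjective x
      rw [cj_apply, e.symm_apply_apply, e.symm_apply_apply]
      exact Fp_cl π hm i z)
    (by
      intro i x
      obtain ⟨z, rfl⟩ := e.surjective x
      rw [cj_apply]
      exact fun h => Fp_ne π hπ hr i z (e.injective h))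
    h2 h3 h4 h5
  refine ⟨M, ⟨hT.inv, hT.ne, hT.dis, hT.w_symm, hT.w_irr, hT.w_mu, hT.cov, hT.w_cl, ?_⟩, h1⟩
  intro s t hst
  have h6 := Sum.inr_injective hst
  have h7 := finSumFinEquiv.injective h6
  exact Sum.inl_injective h7

/-- the sum over the blocks -/
theorem count {m A b : ℕ} [NeZero A] (t : Fin m) (g : ℕ) (f : Fin m → ZMod A → Fin b → ℕ)
    (h1 : ∀ u, u ≠ t → ∀ a x, f u a x = 1) (h2 : ∀ a, g ≤ ∑ x, f t a x) :
    A * (g + (m - 1) * b) ≤ ∑ u, ∑ a, ∑ x, f u a x := by
  rw [← Finset.add_sum_erase univ _ (mem_univ t)]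
  have h3 : A * g ≤ ∑ a, ∑ x, f t a x := by
    calc A * g = ∑ _a : ZMod A, g := by simp [ZMod.card]
      _ ≤ _ := Finset.sum_le_sum fun a _ => h2 a
  have h4 : ∑ u ∈ univ.erase t, ∑ a, ∑ x, f u a x = A * ((m - 1) * b) := by
    have h5 : ∀ u ∈ univ.erase t, ∑ a, ∑ x, f u a x = A * b := by
      intro u hu
      have hu' := Finset.ne_of_mem_erase hu
      calc ∑ a, ∑ x, f u a x = ∑ _a : ZMod A, ∑ _x : Fin b, 1 :=
            Finset.sum_congr rfl fun a _ => Finset.sum_congr rfl fun x _ => h1 u hu' a x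
        _ = A * b := by simp [ZMod.card]
    rw [Finset.sum_congr rfl h5, Finset.sum_const, Finset.card_erase_of_mem (mem_univ t),
      Finset.card_univ, Fintype.card_fin, smul_eq_mul]
    ring
  rw [h4, mul_add]
  exact Nat.add_le_add_right h3 _

/-- The total domination number of the big factor `t`. -/
theorem big {h m R A b r : ℕ} [NeZero h] [NeZero A] [NeZero r] (e : Z m A b r ≃ ZMod h)
    (hm : 0 < m) (π : Fin (R + 1) → (Fin b ≃ Fin b)) (H : SimpleGraph (Fin b))
    (hH : ∀ i x, H.Adj x (π i x)) (M : Fin (m + (h - 1 - (R + m))) → (ZMod h ≃ ZMod h))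
    (hT : Td (TDA_mu M) (TDA_W (fun i : Fin R => cj e (Fp π i)))
        (Sum.elim (fun x => cz hm (e.symm x)) (fun x => cz hm (e.symm x)))
        (fun t => Sum.inr (finSumFinEquiv (Sum.inl t))))
    (hM : ∀ t : Fin m, M (finSumFinEquiv (Sum.inl t)) = cj e (Np π t)) (t : Fin m) :
    2 * (A * (gammaT H + (m - 1) * b)) ≤
      gammaT (TAE_g hT (Sum.inr (finSumFinEquiv (Sum.inl t)))) := by
  classical
  obtain ⟨S, hS, hc⟩ := exists_tds (TAE_min hT (Sum.inr (finSumFinEquiv (Sum.inl t))))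
  rw [← hc]
  have K1 : ∀ z : Z m A b r, ∃ z', Sum.inr (e z') ∈ S ∧
      (z' = Np π t z ∨ ((∃ i : Fin R, Fp π i z = z') ∧ cz hm z = t)) := by
    intro z
    obtain ⟨w, hw, ha⟩ := hS (Sum.inl (e z))
    rw [TAE_adj] at ha
    rcases ha with ha | ⟨ha, hb⟩
    · simp only [TDA_mu, hM, cj_apply] at ha
      rw [← ha] at hw
      exact ⟨_, hw, Or.inl rfl⟩
    · rcases w with y | y
      · exact False.elim ha
      · obtain ⟨i, hi⟩ := ha
        simp only [cj_apply] at hi
        rw [← hi] at hw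
        refine ⟨_, hw, Or.inr ⟨⟨i, rfl⟩, ?_⟩⟩
        have h6 := hT.bg_inj hb
        simpa using h6
  have K2 : ∀ z : Z m A b r, ∃ z', Sum.inl (e z') ∈ S ∧
      (z = Np π t z' ∨ ((∃ i : Fin R, Fp π i z' = z) ∧ cz hm z = t)) := by
    intro z
    obtain ⟨w, hw, ha⟩ := hS (Sum.inr (e z))
    rw [TAE_adj] at ha
    rcases ha with ha | ⟨ha, hb⟩
    · simp only [TDA_mu, hM, cj_symm_apply] at ha
      rw [← ha] at hw
      exact ⟨_, hw, Or.inl (by simp)⟩
    · rcases w with y | y
      · obtain ⟨i, hi⟩ := ha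
        obtain ⟨z', rfl⟩ := e.surjective y
        simp only [cj_apply] at hi
        refine ⟨_, hw, Or.inr ⟨⟨i, e.injective hi⟩, ?_⟩⟩
        have h6 := hT.bg_inj hb
        simpa using h6
      · exact False.elim ha
  have S1 : ∀ z : Z m A b r, cz hm z ≠ t → Sum.inr (e z) ∈ S := by
    intro z hz
    obtain ⟨z', h1, h2⟩ := K1 ((Np π t).symm z)
    have h3 : cz hm ((Np π t).symm z) = cz hm z := by
      have := Np_cl π hm t ((Np π t).symm z)
      rw [Equiv.apply_symm_apply] at this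
      exact this.symm
    rcases h2 with h2 | ⟨_, h2⟩
    · rw [Equiv.apply_symm_apply] at h2
      rwa [h2] at h1
    · rw [h3] at h2
      exact absurd h2 hz
  have S2 : ∀ z : Z m A b r, cz hm z ≠ t → Sum.inl (e z) ∈ S := by
    intro z hz
    obtain ⟨z', h1, h2⟩ := K2 (Np π t z)
    rw [Np_cl π hm t z] at h2
    rcases h2 with h2 | ⟨_, h2⟩
    · rw [(Np π t).injective h2]
      exact h1
    · exact absurd h2 hz
  have S3 : ∀ a : ZMod A, gammaT H ≤
      ∑ x : Fin b, (if Sum.inr (e (Sum.inl (t, a, x))) ∈ S then 1 else 0) := by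
    intro a
    rw [← Finset.card_filter]
    apply gammaT_le_card
    intro x
    obtain ⟨z', h1, h2⟩ := K1 (Sum.inl (t, a, x))
    rcases h2 with h2 | ⟨⟨i, h2⟩, _⟩
    · rw [Np_eq] at h2
      rw [h2] at h1
      exact ⟨_, by simpa using h1, hH _ _⟩
    · rw [Fp_inl] at h2
      rw [← h2] at h1
      exact ⟨_, by simpa using h1, hH _ _⟩
  have S4 : ∀ a : ZMod A, gammaT H ≤
      ∑ x : Fin b, (if Sum.inl (e (Sum.inl (t, a, x))) ∈ S then 1 else 0) := by
    intro a
    rw [← Finset.card_filter]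
    apply gammaT_le_card
    intro x
    obtain ⟨z', h1, h2⟩ := K2 (Sum.inl (t, a, x))
    rcases h2 with h2 | ⟨⟨i, h2⟩, _⟩
    · rcases z' with ⟨u, a', x'⟩ | z'
      · by_cases hu : u = t
        · subst hu
          rw [Np_eq] at h2
          simp only [Sum.inl.injEq, Prod.mk.injEq, true_and] at h2
          obtain ⟨rfl, h2⟩ := h2
          refine ⟨x', by simpa using h1, ?_⟩
          rw [h2]
          exact (hH _ _).symm
        · rw [Np_ne π t u hu] at h2
          simp only [Sum.inl.injEq, Prod.mk.injEq] at h2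
          exact absurd h2.1.symm hu
      · rw [Np_inr] at h2
        exact absurd h2 (by simp)
    · rcases z' with ⟨u, a', x'⟩ | z'
      · rw [Fp_inl] at h2
        simp only [Sum.inl.injEq, Prod.mk.injEq] at h2
        obtain ⟨rfl, rfl, h2⟩ := h2
        refine ⟨x', by simpa using h1, ?_⟩
        rw [← h2]
        exact (hH _ _).symm
      · rw [Fp_inr] at h2
        exact absurd h2 (by simp)
  have hcard : S.card = ∑ v : ZMod h ⊕ ZMod h, (if v ∈ S then 1 else 0) := by
    rw [← Finset.card_filter]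
    congr 1
    ext v
    simp
  rw [hcard, Fintype.sum_sum_type, ← e.sum_comp, ← e.sum_comp, Fintype.sum_sum_type,
    Fintype.sum_sum_type]
  have C1 := count t (gammaT H)
    (fun u a x => if Sum.inl (e (Sum.inl (u, a, x))) ∈ S then 1 else 0)
    (fun u hu a x => if_pos (S2 (Sum.inl (u, a, x)) hu)) S4
  have C2 := count t (gammaT H)
    (fun u a x => if Sum.inr (e (Sum.inl (u, a, x))) ∈ S then 1 else 0)
    (fun u hu a x => if_pos (S1 (Sum.inl (u, a, x)) hu)) S3
  rw [Fintype.sum_prod_type, Fintype.sum_prod_type]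
  simp only [Fintype.sum_prod_type]
  omega

open Classical in
/-- The lower bound for `n = 2 h`, `h = m A b + r`. -/
theorem low {m R A b r : ℕ} (hm : 0 < m) (hA : m < A) (hr : R + m < r) (H : SimpleGraph (Fin b))
    (hreg : ∀ x, (univ.filter (fun y => H.Adj x y)).card = R + 1) (h : ℕ)
    (hh : h = m * (A * b) + r) :
    (2 * h) ^ (2 * h - (R + 1) - m) * (2 * (A * (gammaT H + (m - 1) * b))) ^ m ≤
      P (2 * h) (2 * h - (R + 1)) := by
  have : NeZero h := ⟨by omega⟩
  have : NeZero A := ⟨by omega⟩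
  have : NeZero r := ⟨by omega⟩
  obtain ⟨π, hH, hπ2⟩ := konig H hreg
  have hcard : Fintype.card (Z m A b r) = Fintype.card (ZMod h) := by
    simp only [Z, Fintype.card_sum, Fintype.card_prod, Fintype.card_fin, ZMod.card]
    exact hh.symm
  have e : Z m A b r ≃ ZMod h := Fintype.equivOfCardEq hcard
  have hπ : ∀ i x, π i x ≠ x := by
    intro i x hx
    have h1 := hH i x
    rw [hx] at h1
    exact H.loopless.irrefl _ h1
  obtain ⟨M, hT, hM⟩ := facs e hm hA hr (by omega) π hπ hπ2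
  have h1 := asm _ _ _ _ hT _ (fun t => big e hm π H hH M hT hM t)
  have hV : Fintype.card (ZMod h ⊕ ZMod h) = 2 * h := by
    rw [Fintype.card_sum, ZMod.card]; ring
  have hI : Fintype.card (ZMod h ⊕ Fin (m + (h - 1 - (R + m)))) = 2 * h - (R + 1) := by
    rw [Fintype.card_sum, ZMod.card, Fintype.card_fin]; omega
  rw [hV, hI] at h1
  exact h1

/-! ### The limit -/

theorem exp_m (θ ε : ℝ) (hε : 0 < ε) :
    ∃ m : ℕ, 2 ≤ m ∧ Real.exp (-θ) - ε ≤ (1 - θ / (m : ℝ)) ^ m := by
  have h1 := Real.tendsto_one_add_div_pow_exp (-θ)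
  have h2 : ∀ᶠ m : ℕ in Filter.atTop, Real.exp (-θ) - ε < (1 + -θ / (m : ℝ)) ^ m :=
    h1.eventually_const_lt (by linarith)
  obtain ⟨m, hm1, hm2⟩ := (h2.and (Filter.eventually_ge_atTop 2)).exists
  refine ⟨m, hm2, ?_⟩
  have h3 : (1 + -θ / (m : ℝ)) = 1 - θ / (m : ℝ) := by ring
  rw [h3] at hm1
  exact hm1.le

/-- The real estimate. -/
theorem real_est (θ ε n r X p : ℝ) (m k : ℕ) (hε : 0 < ε) (hm : 2 ≤ m) (hkm : m ≤ k)
    (hθ0 : 0 ≤ θ) (hθ1 : θ ≤ 1) (hme : Real.exp (-θ) - ε / 2 ≤ (1 - θ / (m : ℝ)) ^ m)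
    (hn : 0 < n) (hrn : 4 * r * m ≤ ε * n) (hrn2 : 2 * r ≤ n)
    (hX : X = (n - 2 * r) * (1 - θ / m)) (hP : n ^ (k - m) * X ^ m ≤ p) :
    (Real.exp (-θ) - ε) * n ^ k ≤ p := by
  refine le_trans ?_ hP
  have hm2 : (2 : ℝ) ≤ m := by exact_mod_cast hm
  have hkpow : n ^ k = n ^ (k - m) * n ^ m := by
    rw [← pow_add]; congr 1; omega
  have hX2 : X = n * ((1 - 2 * r / n) * (1 - θ / m)) := by
    rw [hX]; field_simp
  have h1 : (1 + (m : ℝ) * (-(2 * r / n))) ≤ (1 + -(2 * r / n)) ^ m := by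
    apply one_add_mul_le_pow
    have : 2 * r / n ≤ 1 := by rw [div_le_one hn]; exact hrn2
    linarith
  have h2 : (m : ℝ) * (2 * r / n) ≤ ε / 2 := by
    rw [mul_div_assoc', div_le_iff₀ hn]
    linarith
  have h3 : θ / m ≤ 1 := by
    rw [div_le_one (by linarith)]; linarith
  have h4 : 0 ≤ θ / m := by positivity
  have h5 : 0 ≤ (1 - θ / (m : ℝ)) ^ m := pow_nonneg (by linarith) _
  have h6 : (1 - θ / (m : ℝ)) ^ m ≤ 1 := pow_le_one₀ (by linarith) (by linarith)
  have h7 : Real.exp (-θ) - ε ≤ ((1 - 2 * r / n) * (1 - θ / m)) ^ m := by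
    rw [mul_pow]
    have h8 : (1 - ε / 2) ≤ (1 - 2 * r / n) ^ m := by
      have : (1 + -(2 * r / n)) = 1 - 2 * r / n := by ring
      rw [this] at h1
      linarith
    have h9 : (1 - ε / 2) * (1 - θ / (m : ℝ)) ^ m ≤
        (1 - 2 * r / n) ^ m * (1 - θ / (m : ℝ)) ^ m := mul_le_mul_of_nonneg_right h8 h5
    nlinarith
  rw [hkpow, hX2, mul_pow]
  have h10 := mul_le_mul_of_nonneg_left h7 (by positivity : (0 : ℝ) ≤ n ^ (k - m) * n ^ m)
  nlinarith

open Classical in
/-- **Lower bound.** For an `(R + 1)`-regular graph `H` with `b` vertices, `P n (n - (R + 1))` is at least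
`(exp (-(1 - gammaT H / b)) - ε) n ^ (n - (R + 1))` for all large even `n`. -/
theorem topR {R b : ℕ} (hb : 0 < b) (H : SimpleGraph (Fin b))
    (hreg : ∀ x, (univ.filter (fun y => H.Adj x y)).card = R + 1) (ε : ℝ) (hε : 0 < ε) :
    ∃ n0 : ℕ, ∀ n : ℕ, n0 ≤ n → Even n →
      (Real.exp (-(1 - (gammaT H : ℝ) / b)) - ε) * (n : ℝ) ^ (n - (R + 1)) ≤
        (P n (n - (R + 1)) : ℝ) := by
  have hHmin : ∀ v, ∃ w, H.Adj v w := by
    intro v
    have h1 : 0 < (univ.filter (fun y => H.Adj v y)).card := by rw [hreg v]; omega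
    obtain ⟨w, hw⟩ := Finset.card_pos.1 h1
    exact ⟨w, (Finset.mem_filter.1 hw).2⟩
  have hg : gammaT H ≤ b := by simpa using gammaT_le_univ hHmin
  have hb0 : (0 : ℝ) < b := by exact_mod_cast hb
  have hg0 : (gammaT H : ℝ) ≤ b := by exact_mod_cast hg
  obtain ⟨θ, hθ⟩ : ∃ θ : ℝ, θ = 1 - (gammaT H : ℝ) / b := ⟨_, rfl⟩
  have hθ0 : 0 ≤ θ := by
    rw [hθ]
    have : (gammaT H : ℝ) / b ≤ 1 := by rw [div_le_one hb0]; exact hg0
    linarith
  have hθ1 : θ ≤ 1 := by
    rw [hθ]
    have : 0 ≤ (gammaT H : ℝ) / b := by positivity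
    linarith
  rw [← hθ]
  obtain ⟨m, hm, hme⟩ := exp_m θ (ε / 2) (by linarith)
  obtain ⟨n1, hn1⟩ := exists_nat_ge ((4 * (R + m + 1 + m * b) * m : ℝ) / ε)
  refine ⟨2 * (R + m + 1 + (m + 1) * (m * b)) + n1 + 2 * (R + 1 + m), ?_⟩
  intro n hn hev
  obtain ⟨h, hh⟩ := hev
  have hn2 : n = 2 * h := by omega
  have hmb : 0 < m * b := by positivity
  obtain ⟨A, hA⟩ : ∃ A, A = (h - (R + m + 1)) / (m * b) := ⟨_, rfl⟩
  have hdm := Nat.div_add_mod (h - (R + m + 1)) (m * b)
  have hmod := Nat.mod_lt (h - (R + m + 1)) hmb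
  rw [← hA] at hdm
  obtain ⟨q, hq⟩ : ∃ q, q = (h - (R + m + 1)) % (m * b) := ⟨_, rfl⟩
  rw [← hq] at hdm hmod
  have hA1 : m < A := by
    rw [hA]
    refine (Nat.le_div_iff_mul_le hmb).2 ?_
    rw [Nat.succ_eq_add_one]
    omega
  obtain ⟨r, hr⟩ : ∃ r, r = R + m + 1 + q := ⟨_, rfl⟩
  have hhr : h = m * (A * b) + r := by
    have h1 : m * b * A = m * (A * b) := by ring
    rw [h1] at hdm
    omega
  have h1 := low (R := R) (by omega) hA1 (by omega) H hreg h hhr
  rw [← hn2] at h1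
  have h2 : (n : ℝ) ^ (n - (R + 1) - m) *
      (2 * ((A : ℝ) * ((gammaT H : ℝ) + ((m : ℝ) - 1) * b))) ^ m ≤
      (P n (n - (R + 1)) : ℝ) := by
    have h3 : ((m - 1 : ℕ) : ℝ) = (m : ℝ) - 1 := by
      rw [Nat.cast_sub (by omega)]; simp
    have h4 : ((n ^ (n - (R + 1) - m) *
      (2 * (A * (gammaT H + (m - 1) * b))) ^ m : ℕ) : ℝ) ≤ (P n (n - (R + 1)) : ℝ) := by
      exact_mod_cast h1
    push_cast at h4
    rw [h3] at h4
    exact h4
  have hm0 : (0 : ℝ) < m := by exact_mod_cast (by omega : 0 < m)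
  have hgb : (gammaT H : ℝ) = b * (1 - θ) := by
    rw [hθ]; field_simp; ring
  have hnr : (n : ℝ) = 2 * (m * (A * b) + r) := by
    rw [hn2, hhr]; push_cast; ring
  have hrb : (r : ℝ) ≤ R + m + 1 + m * b := by
    exact_mod_cast (by omega : r ≤ R + m + 1 + m * b)
  have hne : (4 * (R + m + 1 + m * b) * m : ℝ) ≤ ε * n := by
    have h4 : (4 * (R + m + 1 + m * b) * m : ℝ) / ε ≤ n :=
      hn1.trans (by exact_mod_cast (by omega : n1 ≤ n))
    rw [div_le_iff₀ hε] at h4
    linarith
  refine real_est θ ε n r _ _ m (n - (R + 1)) hε hm (by omega) hθ0 hθ1 hme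
    (by exact_mod_cast (by omega : 0 < n)) ?_ ?_ ?_ h2
  · have : (4 * (r : ℝ) * m) ≤ 4 * (R + m + 1 + m * b) * m := by
      apply mul_le_mul_of_nonneg_right _ hm0.le
      linarith
    linarith
  · rw [hnr]
    have : (0 : ℝ) ≤ m * (A * b) := by positivity
    linarith
  · rw [hgb, hnr]
    field_simp
    ring

end Pool.Agent.Work.MP_1ce445_topR
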