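import Pool.Agent.Work.MP_1ce445_topR.Lim

/-!
MP_1ce445_co: regular graphs with large total domination number (helper23): the counting argument.
-/

namespace Pool.Agent.Work.MP_1ce445_topR

open Finset Pool.Agent.Work.MP_1ce445_co_56 Pool.Agent.Work.MP_1ce445_lin
  Pool.Agent.Work.MP_1ce445_top

section counting

variable {α : Type} [Fintype α] [DecidableEq α]

theorem sum_prod_fun {K : ℕ} (h : α → Fin K → ℝ) :
    ∑ f : α → Fin K, ∏ y, h y (f y) = ∏ y, ∑ a, h y a := by
  rw [Finset.prod_univ_sum, Fintype.piFinset_univ]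

/-- the number of functions which do not vanish on `T` -/
theorem sum_avoid (k : ℕ) (T : Finset α) :
    ∑ f : α → Fin (k + 1), ∏ y ∈ T, (if f y = 0 then (0 : ℝ) else 1) =
      ((k : ℝ) + 1) ^ Fintype.card α * ((k : ℝ) / (k + 1)) ^ T.card := by
  have hk : ((k : ℝ) + 1) ≠ 0 := by positivity
  have h1 : ∀ f : α → Fin (k + 1), ∏ y ∈ T, (if f y = 0 then (0 : ℝ) else 1) =
      ∏ y, (fun (y : α) (a : Fin (k + 1)) => if y ∈ T then (if a = 0 then (0 : ℝ) else 1) else 1)
        y (f y) := by
    intro f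
    rw [← Finset.prod_subset (Finset.subset_univ T)]
    · apply Finset.prod_congr rfl
      intro y hy
      simp only [if_pos hy]
    · intro y _ hy
      simp only [if_neg hy]
  rw [Finset.sum_congr rfl (fun f _ => h1 f), sum_prod_fun
    (fun (y : α) (a : Fin (k + 1)) => if y ∈ T then (if a = 0 then (0 : ℝ) else 1) else 1)]
  have h2 : ∀ y : α, ∑ a : Fin (k + 1), (if y ∈ T then (if a = 0 then (0 : ℝ) else 1) else 1) =
      ((k : ℝ) + 1) * (if y ∈ T then (k : ℝ) / (k + 1) else 1) := by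
    intro y
    by_cases hy : y ∈ T
    · simp only [if_pos hy]
      rw [Fin.sum_univ_succ]
      simp
      field_simp
    · simp only [if_neg hy]
      simp
  rw [Finset.prod_congr rfl (fun y _ => h2 y), Finset.prod_mul_distrib, Finset.prod_const,
    Finset.card_univ]
  congr 1
  rw [Finset.prod_ite]
  simp [div_pow]

/-- the functions which vanish somewhere on each of the disjoint sets `T x`, `x ∈ X` -/
theorem sum_hit {ι : Type} [DecidableEq ι] (k g : ℕ) (X : Finset ι) (T : ι → Finset α)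
    (hT : ∀ x ∈ X, ∀ x' ∈ X, x ≠ x' → Disjoint (T x) (T x')) (hg : ∀ x ∈ X, (T x).card = g) :
    ∑ f : α → Fin (k + 1), ∏ x ∈ X, (1 - ∏ y ∈ T x, (if f y = 0 then (0 : ℝ) else 1)) =
      ((k : ℝ) + 1) ^ Fintype.card α * (1 - ((k : ℝ) / (k + 1)) ^ g) ^ X.card := by
  have h1 : ∀ P : ι → ℝ, ∏ x ∈ X, (1 - P x) = ∑ I ∈ X.powerset, (-1) ^ I.card * ∏ x ∈ I, P x := by
    intro P
    have h2 : ∏ x ∈ X, (1 - P x) = ∏ x ∈ X, ((-P x) + 1) := by
      apply Finset.prod_congr rfl
      intro x _
      ring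
    rw [h2, Finset.prod_add]
    apply Finset.sum_congr rfl
    intro I _
    rw [Finset.prod_const_one, mul_one, Finset.prod_neg]
  have h3 : ∀ f : α → Fin (k + 1),
      ∏ x ∈ X, (1 - ∏ y ∈ T x, (if f y = 0 then (0 : ℝ) else 1)) =
      ∑ I ∈ X.powerset, (-1) ^ I.card * ∏ y ∈ I.biUnion T, (if f y = 0 then (0 : ℝ) else 1) := by
    intro f
    rw [h1]
    apply Finset.sum_congr rfl
    intro I hI
    rw [Finset.mem_powerset] at hI
    rw [Finset.prod_biUnion]
    intro x hx x' hx' hxx
    exact hT x (hI hx) x' (hI hx') hxx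
  rw [Finset.sum_congr rfl (fun f _ => h3 f), Finset.sum_comm]
  have h4 : ∀ I ∈ X.powerset, ∑ f : α → Fin (k + 1), (-1) ^ I.card *
      ∏ y ∈ I.biUnion T, (if f y = 0 then (0 : ℝ) else 1) =
      ((k : ℝ) + 1) ^ Fintype.card α * ((-1) ^ I.card * ∏ _x ∈ I, ((k : ℝ) / (k + 1)) ^ g) := by
    intro I hI
    rw [Finset.mem_powerset] at hI
    rw [← Finset.mul_sum, sum_avoid, Finset.card_biUnion]
    · rw [Finset.sum_congr rfl (fun x hx => hg x (hI hx)), Finset.sum_const, smul_eq_mul,
        Finset.prod_const, ← pow_mul, mul_comm I.card g]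
      ring
    · intro x hx x' hx' hxx
      exact hT x (hI hx) x' (hI hx') hxx
  rw [Finset.sum_congr rfl h4, ← Finset.mul_sum, ← h1, Finset.prod_const]

/-- the number of functions which vanish somewhere on each of the sets -/
theorem card_hit {ι : Type} [DecidableEq ι] (k g : ℕ) (X : Finset ι) (T : ι → Finset α)
    (hT : ∀ x ∈ X, ∀ x' ∈ X, x ≠ x' → Disjoint (T x) (T x')) (hg : ∀ x ∈ X, (T x).card = g)
    (s : Finset (α → Fin (k + 1))) (hs : ∀ f ∈ s, ∀ x ∈ X, ∃ y ∈ T x, f y = 0) :
    (s.card : ℝ) ≤ ((k : ℝ) + 1) ^ Fintype.card α * (1 - ((k : ℝ) / (k + 1)) ^ g) ^ X.card := by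
  rw [← sum_hit k g X T hT hg]
  have h0 : ∀ f : α → Fin (k + 1), 0 ≤
      ∏ x ∈ X, (1 - ∏ y ∈ T x, (if f y = 0 then (0 : ℝ) else 1)) := by
    intro f
    apply Finset.prod_nonneg
    intro x _
    have : ∏ y ∈ T x, (if f y = 0 then (0 : ℝ) else 1) ≤ 1 := by
      apply Finset.prod_le_one
      · intro y _
        split_ifs <;> norm_num
      · intro y _
        split_ifs <;> norm_num
    linarith
  have h1 : ∀ f ∈ s, ∏ x ∈ X, (1 - ∏ y ∈ T x, (if f y = 0 then (0 : ℝ) else 1)) = 1 := by
    intro f hf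
    apply Finset.prod_eq_one
    intro x hx
    obtain ⟨y, hy, hfy⟩ := hs f hf x hx
    rw [Finset.prod_eq_zero hy (by rw [if_pos hfy]), sub_zero]
  calc (s.card : ℝ) = ∑ f ∈ s, (1 : ℝ) := by simp
    _ = ∑ f ∈ s, ∏ x ∈ X, (1 - ∏ y ∈ T x, (if f y = 0 then (0 : ℝ) else 1)) :=
        Finset.sum_congr rfl fun f hf => (h1 f hf).symm
    _ ≤ _ := Finset.sum_le_sum_of_subset_of_nonneg (Finset.subset_univ s) (fun f _ _ => h0 f)

/-- the number of functions with few zeros -/
theorem card_few (k R : ℕ) (z : ℝ) (hz0 : 0 < z) (hz1 : z ≤ 1) (s : Finset (α → Fin (k + 1)))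
    (hs : ∀ f ∈ s, (univ.filter (fun y => f y = 0)).card ≤ R) :
    (s.card : ℝ) * z ^ R ≤ ((k : ℝ) + z) ^ Fintype.card α := by
  have h1 : ∀ f : α → Fin (k + 1), z ^ (univ.filter (fun y => f y = 0)).card =
      ∏ y, (fun (_ : α) (a : Fin (k + 1)) => if a = 0 then z else 1) y (f y) := by
    intro f
    rw [Finset.prod_ite]
    simp
  have h2 : ∑ f : α → Fin (k + 1), z ^ (univ.filter (fun y => f y = 0)).card =
      ((k : ℝ) + z) ^ Fintype.card α := by
    rw [Finset.sum_congr rfl (fun f _ => h1 f), sum_prod_fun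
      (fun (_ : α) (a : Fin (k + 1)) => if a = 0 then z else 1)]
    rw [Finset.prod_const, Finset.card_univ]
    congr 1
    rw [Fin.sum_univ_succ]
    simp
    ring
  rw [← h2]
  calc (s.card : ℝ) * z ^ R = ∑ _f ∈ s, z ^ R := by simp
    _ ≤ ∑ f ∈ s, z ^ (univ.filter (fun y => f y = 0)).card :=
        Finset.sum_le_sum fun f hf => pow_le_pow_of_le_one hz0.le hz1 (hs f hf)
    _ ≤ _ := Finset.sum_le_sum_of_subset_of_nonneg (Finset.subset_univ s)
        (fun f _ _ => by positivity)

end counting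

/-- disjoint translates -/
theorem translates {A : Type} [AddCommGroup A] [Fintype A] [DecidableEq A] (Y : Finset A)
    (g : ℕ) (hY : Y.card = g) (hg : 1 ≤ g) :
    ∃ X : Finset A, (∀ x ∈ X, ∀ x' ∈ X, x ≠ x' →
      Disjoint (Y.image (fun y => y - x)) (Y.image (fun y => y - x'))) ∧
      Fintype.card A ≤ X.card * (g * g) := by
  obtain ⟨X, hX⟩ := Finset.exists_maximal (s := univ.filter (fun X : Finset A =>
    ∀ x ∈ X, ∀ x' ∈ X, x ≠ x' →
      Disjoint (Y.image (fun y => y - x)) (Y.image (fun y => y - x')))) ⟨∅, by simp⟩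
  have hX1 := (Finset.mem_filter.1 hX.prop).2
  refine ⟨X, hX1, ?_⟩
  have hcov : ∀ x : A, ∃ x' ∈ X, ∃ y ∈ Y, ∃ y' ∈ Y, x = x' + (y - y') := by
    intro x
    by_cases hx : x ∈ X
    · obtain ⟨y, hy⟩ := Finset.card_pos.1 (by omega : 0 < Y.card)
      exact ⟨x, hx, y, hy, y, hy, by simp⟩
    · by_contra hn
      push Not at hn
      have h1 : insert x X ∈ univ.filter (fun X : Finset A =>
          ∀ x ∈ X, ∀ x' ∈ X, x ≠ x' →
          Disjoint (Y.image (fun y => y - x)) (Y.image (fun y => y - x'))) := by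
        rw [Finset.mem_filter]
        refine ⟨mem_univ _, ?_⟩
        have key : ∀ x' ∈ X,
            Disjoint (Y.image (fun y => y - x)) (Y.image (fun y => y - x')) := by
          intro x' hx'
          rw [Finset.disjoint_left]
          intro a ha ha'
          obtain ⟨y, hy, rfl⟩ := Finset.mem_image.1 ha
          obtain ⟨y', hy', h2⟩ := Finset.mem_image.1 ha'
          apply hn x' hx' y hy y' hy'
          have h3 : y' - x' = y - x := h2
          have h4 : x = x' + (y - y') := by
            calc x = x' + (y - y') + ((y' - x') - (y - x)) := by abel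
              _ = x' + (y - y') := by rw [h3]; abel
          exact h4
        intro a ha a' ha' haa
        rcases Finset.mem_insert.1 ha with rfl | hb <;>
          rcases Finset.mem_insert.1 ha' with rfl | hb'
        · exact absurd rfl haa
        · exact key a' hb'
        · exact (key a hb).symm
        · exact hX1 a hb a' hb' haa
      have h2 := hX.le_of_ge h1 (Finset.subset_insert x X)
      exact hx (h2 (Finset.mem_insert_self x X))
  have h3 : (univ : Finset A) ⊆ (X ×ˢ (Y ×ˢ Y)).image (fun q => q.1 + (q.2.1 - q.2.2)) := by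
    intro x _
    obtain ⟨x', hx', y, hy, y', hy', rfl⟩ := hcov x
    exact Finset.mem_image.2 ⟨(x', (y, y')), by simp [hx', hy, hy'], rfl⟩
  have h4 := (Finset.card_le_card h3).trans Finset.card_image_le
  rw [Finset.card_univ, Finset.card_product, Finset.card_product, hY] at h4
  exact h4

/-- a set `S` of `R` elements such that no set of at most `g` elements meets all its translates -/
theorem exists_set (k R g b : ℕ) [NeZero b] (z : ℝ) (hz0 : 0 < z) (hz1 : z ≤ 1) (hg : 1 ≤ g)
    (hgb : g ≤ b) (h1 : 2 * ((k : ℝ) + z) ^ b < z ^ R * ((k : ℝ) + 1) ^ b)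
    (h2 : 2 * (b : ℝ) ^ g * (1 - ((k : ℝ) / (k + 1)) ^ g) ^ (b / (g * g)) ≤ 1) :
    ∃ S : Finset (ZMod b), S.card = R ∧ ∀ Y : Finset (ZMod b), Y.card ≤ g →
      ∃ x, ∀ s ∈ S, x + s ∉ Y := by
  classical
  have hK : (0 : ℝ) < ((k : ℝ) + 1) ^ b := by positivity
  obtain ⟨B0, hB0⟩ : ∃ B0 : Finset (ZMod b → Fin (k + 1)),
      B0 = univ.filter (fun f => (univ.filter (fun y => f y = 0)).card ≤ R) := ⟨_, rfl⟩
  obtain ⟨BY, hBY⟩ : ∃ BY : Finset (ZMod b) → Finset (ZMod b → Fin (k + 1)),
      BY = fun Y => univ.filter (fun f => ∀ x, ∃ y ∈ Y, f (y - x) = 0) := ⟨_, rfl⟩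
  have hp0 : (0 : ℝ) ≤ 1 - ((k : ℝ) / (k + 1)) ^ g := by
    have : ((k : ℝ) / (k + 1)) ^ g ≤ 1 := by
      apply pow_le_one₀ (by positivity)
      rw [div_le_one (by positivity)]
      linarith
    linarith
  have hp1 : (1 : ℝ) - ((k : ℝ) / (k + 1)) ^ g ≤ 1 := by
    have : (0 : ℝ) ≤ ((k : ℝ) / (k + 1)) ^ g := by positivity
    linarith
  have c0 : 2 * (B0.card : ℝ) < ((k : ℝ) + 1) ^ b := by
    have h3 := card_few k R z hz0 hz1 B0 (fun f hf => by
      rw [hB0] at hf
      exact (Finset.mem_filter.1 hf).2)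
    rw [ZMod.card] at h3
    have hzR : 0 < z ^ R := by positivity
    by_contra hn
    push Not at hn
    have h4 : z ^ R * ((k : ℝ) + 1) ^ b ≤ z ^ R * (2 * B0.card) :=
      mul_le_mul_of_nonneg_left hn hzR.le
    linarith
  have cY : ∀ Y ∈ powersetCard g (univ : Finset (ZMod b)), ((BY Y).card : ℝ) ≤
      ((k : ℝ) + 1) ^ b * (1 - ((k : ℝ) / (k + 1)) ^ g) ^ (b / (g * g)) := by
    intro Y hY
    have hYc := (Finset.mem_powersetCard.1 hY).2
    obtain ⟨X, hX1, hX2⟩ := translates Y g hYc hg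
    have h3 := card_hit k g X (fun x => Y.image (fun y => y - x)) hX1 (fun x _ => by
      rw [Finset.card_image_of_injective _ (sub_left_injective), hYc]) (BY Y) (by
      intro f hf x _
      rw [hBY] at hf
      obtain ⟨y, hy, hfy⟩ := (Finset.mem_filter.1 hf).2 x
      exact ⟨y - x, Finset.mem_image_of_mem _ hy, hfy⟩)
    rw [ZMod.card] at h3 hX2
    refine h3.trans (mul_le_mul_of_nonneg_left ?_ hK.le)
    apply pow_le_pow_of_le_one hp0 hp1
    have hgg : 0 < g * g := Nat.mul_pos hg hg
    exact (Nat.div_le_iff_le_mul_add_pred hgg).2 (by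
      have : X.card * (g * g) = g * g * X.card := by ring
      omega)
  have csum : 2 * (((powersetCard g (univ : Finset (ZMod b))).biUnion BY).card : ℝ) ≤
      ((k : ℝ) + 1) ^ b := by
    have h3 : ((((powersetCard g (univ : Finset (ZMod b))).biUnion BY).card : ℕ) : ℝ) ≤
        ∑ Y ∈ powersetCard g (univ : Finset (ZMod b)), ((BY Y).card : ℝ) := by
      exact_mod_cast Finset.card_biUnion_le
    have h4 := Finset.sum_le_sum cY
    rw [Finset.sum_const, Finset.card_powersetCard, Finset.card_univ, ZMod.card,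
      nsmul_eq_mul] at h4
    have h5 : ((b.choose g : ℕ) : ℝ) ≤ (b : ℝ) ^ g := by
      exact_mod_cast Nat.choose_le_pow b g
    have h6 : (0 : ℝ) ≤ ((k : ℝ) + 1) ^ b * (1 - ((k : ℝ) / (k + 1)) ^ g) ^ (b / (g * g)) :=
      mul_nonneg hK.le (pow_nonneg hp0 _)
    have h7 := mul_le_mul_of_nonneg_right h5 h6
    have h8 : 2 * ((b : ℝ) ^ g * (((k : ℝ) + 1) ^ b *
        (1 - ((k : ℝ) / (k + 1)) ^ g) ^ (b / (g * g)))) ≤ ((k : ℝ) + 1) ^ b := by
      have h9 := mul_le_mul_of_nonneg_left h2 hK.le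
      linarith
    linarith
  have hne : ∃ f : ZMod b → Fin (k + 1),
      f ∉ B0 ∪ (powersetCard g (univ : Finset (ZMod b))).biUnion BY := by
    by_contra hn
    push Not at hn
    have h3 : (univ : Finset (ZMod b → Fin (k + 1))) ⊆
        B0 ∪ (powersetCard g (univ : Finset (ZMod b))).biUnion BY := fun f _ => hn f
    have h4 := (Finset.card_le_card h3).trans (Finset.card_union_le _ _)
    rw [Finset.card_univ, Fintype.card_fun, Fintype.card_fin, ZMod.card] at h4
    have h5 : (((k + 1) ^ b : ℕ) : ℝ) ≤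
        ((B0.card + ((powersetCard g (univ : Finset (ZMod b))).biUnion BY).card : ℕ) : ℝ) := by
      exact_mod_cast h4
    push_cast at h5
    linarith
  obtain ⟨f, hf⟩ := hne
  rw [Finset.mem_union, not_or] at hf
  have hz : R ≤ (univ.filter (fun y => f y = 0)).card := by
    by_contra hn
    apply hf.1
    rw [hB0]
    exact Finset.mem_filter.2 ⟨mem_univ _, by omega⟩
  obtain ⟨S, hS1, hS2⟩ := Finset.exists_subset_card_eq hz
  refine ⟨S, hS2, fun Y hY => ?_⟩
  obtain ⟨Y', hY1, hY2⟩ := Finset.exists_superset_card_eq hY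
    (by rw [ZMod.card]; exact hgb)
  have h3 : f ∉ BY Y' := by
    intro h4
    apply hf.2
    rw [Finset.mem_biUnion]
    exact ⟨Y', Finset.mem_powersetCard.2 ⟨Finset.subset_univ _, hY2⟩, h4⟩
  rw [hBY] at h3
  simp only [mem_filter, mem_univ, true_and, not_forall, not_exists, not_and] at h3
  obtain ⟨x, hx⟩ := h3
  refine ⟨x, fun s hs hsY => ?_⟩
  have h4 := hx (x + s) (hY1 hsY)
  rw [add_sub_cancel_left] at h4
  exact h4 (Finset.mem_filter.1 (hS1 hs)).2

/-- `Lam R` and regular graphs on any finite type -/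
theorem Lam_le_type {R n : ℕ} (hR : 1 ≤ R) {V : Type} [Fintype V] (hn : 0 < n)
    (hV : Fintype.card V = n) (H : SimpleGraph V) (hreg : ∀ x, dg H x = R) (g : ℕ)
    (hg : ∀ S : Finset V, IsTDS H S → g ≤ S.card) : Lam R ≤ 1 - (g : ℝ) / n := by
  classical
  obtain ⟨e⟩ : Nonempty (Fin n ≃ V) := ⟨(Fintype.equivFinOfCardEq hV).symm⟩
  have hreg' : ∀ x, dg (H.comap e) x = R := by
    intro x
    rw [← hreg (e x)]
    unfold dg
    rw [← Finset.card_map e.toEmbedding]
    congr 1
    ext w
    simp only [mem_map, mem_filter, mem_univ, true_and, SimpleGraph.comap_adj,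
      Equiv.coe_toEmbedding]
    constructor
    · rintro ⟨a, ha, rfl⟩
      exact ha
    · intro hw
      exact ⟨e.symm w, by simpa using hw, by simp⟩
  refine Lam_le_reg hR hn (H.comap e) hreg' g ?_
  obtain ⟨S, hS, hc⟩ := exists_tds (G := H.comap e) (fun v => by
    have h0 : 0 < dg (H.comap e) v := by rw [hreg' v]; omega
    obtain ⟨w, hw⟩ := Finset.card_pos.1 h0
    exact ⟨w, (Finset.mem_filter.1 hw).2⟩)
  rw [← hc, ← Finset.card_map e.toEmbedding]
  apply hg
  intro v
  obtain ⟨w, hw, ha⟩ := hS (e.symm v)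
  exact ⟨e w, by simpa using hw, by simpa using ha⟩

/-- `Lam R` from a set with few covering translates -/
theorem Lam_le_set {R g b : ℕ} (hR : 1 ≤ R) [NeZero b] (S : Finset (ZMod b)) (hS : S.card = R)
    (h : ∀ Y : Finset (ZMod b), Y.card ≤ g → ∃ x, ∀ s ∈ S, x + s ∉ Y) :
    Lam R ≤ 1 - ((g : ℝ) + 1) / b := by
  classical
  have hb : 0 < b := Nat.pos_of_ne_zero (NeZero.ne b)
  have hV : Fintype.card (ZMod b ⊕ ZMod b) = 2 * b := by
    rw [Fintype.card_sum, ZMod.card]; ring
  have h1 := Lam_le_type hR (by omega : 0 < 2 * b) hV (cross (fun x y => y - x ∈ S)) ?_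
    (2 * (g + 1)) ?_
  · have h2 : (((2 * (g + 1) : ℕ) : ℝ) / ((2 * b : ℕ) : ℝ)) = ((g : ℝ) + 1) / b := by
      push_cast
      rw [mul_div_mul_left _ _ (by norm_num : (2 : ℝ) ≠ 0)]
    rwa [h2] at h1
  · rintro (x | x)
    · have h3 : dg (cross (fun x y => y - x ∈ S)) (Sum.inl x) =
          (S.image (fun s => (Sum.inr (x + s) : ZMod b ⊕ ZMod b))).card := by
        unfold dg
        congr 1
        ext w
        simp only [mem_filter, mem_univ, true_and, mem_image]
        constructor
        · intro hw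
          rcases w with y | y
          · exact False.elim hw
          · exact ⟨y - x, hw, by simp⟩
        · rintro ⟨s, hs, rfl⟩
          show x + s - x ∈ S
          rwa [add_sub_cancel_left]
      rw [h3, Finset.card_image_of_injective _ (fun s s' hss => by simpa using hss), hS]
    · have h3 : dg (cross (fun x y => y - x ∈ S)) (Sum.inr x) =
          (S.image (fun s => (Sum.inl (x - s) : ZMod b ⊕ ZMod b))).card := by
        unfold dg
        congr 1
        ext w
        simp only [mem_filter, mem_univ, true_and, mem_image]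
        constructor
        · intro hw
          rcases w with y | y
          · exact ⟨x - y, hw, by simp⟩
          · exact False.elim hw
        · rintro ⟨s, hs, rfl⟩
          show x - (x - s) ∈ S
          rwa [sub_sub_cancel]
      rw [h3, Finset.card_image_of_injective _ (fun s s' hss => by simpa using hss), hS]
  · intro T hT
    have hr : g + 1 ≤ (univ.filter (fun y => Sum.inr y ∈ T)).card := by
      by_contra hn
      obtain ⟨x, hx⟩ := h (univ.filter (fun y => Sum.inr y ∈ T)) (by omega)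
      obtain ⟨w, hw, ha⟩ := hT (Sum.inl x)
      rcases w with y | y
      · exact False.elim ha
      · have h3 : y - x ∈ S := ha
        apply hx _ h3
        rw [add_sub_cancel]
        simpa using hw
    have hl : g + 1 ≤ (univ.filter (fun y => Sum.inl y ∈ T)).card := by
      by_contra hn
      obtain ⟨x, hx⟩ := h ((univ.filter (fun y => Sum.inl y ∈ T)).image (fun y => -y))
        (Finset.card_image_le.trans (by omega))
      obtain ⟨w, hw, ha⟩ := hT (Sum.inr (-x))
      rcases w with y | y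
      · have h3 : -x - y ∈ S := ha
        apply hx _ h3
        rw [Finset.mem_image]
        exact ⟨y, by simpa using hw, by ring⟩
      · exact False.elim ha
    have hcard : T.card = ∑ v : ZMod b ⊕ ZMod b, (if v ∈ T then 1 else 0) := by
      rw [← Finset.card_filter]
      congr 1
      ext v
      simp
    rw [hcard, Fintype.sum_sum_type, ← Finset.card_filter, ← Finset.card_filter]
    omega

end Pool.Agent.Work.MP_1ce445_topR
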