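import Pool.Agent.Work.MP_1ce445_topR.Asy
import Pool.Agent.Work.MP_1ce445_oddR.Interface

/-!
MP_1ce445_co: one more vertex, and `LamO R ≤ Lam (R - 1)` (helper23).
-/

namespace Pool.Agent.Work.MP_1ce445_topR

open Finset Pool.Agent.Work.MP_1ce445_co_56 Pool.Agent.Work.MP_1ce445_lin
  Pool.Agent.Work.MP_1ce445_top Pool.Agent.Work.MP_1ce445_oddR

/-- adjacency after adding a vertex `none`, adjacent in the factor `j` to the vertices `v` with `φ v = j` -/
def addR {n k : ℕ} (G : Fin k → SimpleGraph (Fin n)) (φ : Fin n → Fin k) (j : Fin k) :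
    Option (Fin n) → Option (Fin n) → Prop
  | some v, some w => (G j).Adj v w
  | some v, none => φ v = j
  | none, some v => φ v = j
  | none, none => False

/-- the factors with one more vertex -/
def addG {n k : ℕ} (G : Fin k → SimpleGraph (Fin n)) (φ : Fin n → Fin k) (j : Fin k) :
    SimpleGraph (Option (Fin n)) where
  Adj := addR G φ j
  symm := ⟨by
    rintro (_ | v) (_ | w) h
    · exact h
    · exact h
    · exact h
    · exact (G j).symm.symm _ _ h⟩
  loopless := ⟨by
    rintro (_ | v) h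
    · exact h
    · exact (G j).loopless.irrefl v h⟩

theorem addG_fac {n k : ℕ} {G : Fin k → SimpleGraph (Fin n)} (hG : IsFactorization G)
    (φ : Fin n → Fin k) (hφ : Function.Surjective φ) : IsFactorization (addG G φ) := by
  apply IsFactorization.of_adj
  · rintro i j (_ | v) (_ | w) h1 h2
    · exact False.elim h1
    · exact (show φ w = i from h1).symm.trans h2
    · exact (show φ v = i from h1).symm.trans h2
    · exact hG.unique (show (G i).Adj v w from h1) h2
  · rintro (_ | v) (_ | w) h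
    · exact absurd rfl h
    · exact ⟨φ w, rfl⟩
    · exact ⟨φ v, rfl⟩
    · obtain ⟨i, hi⟩ := hG.cover v w (fun h' => h (by rw [h']))
      exact ⟨i, hi⟩
  · rintro i (_ | v)
    · obtain ⟨v, hv⟩ := hφ i
      exact ⟨some v, hv⟩
    · obtain ⟨w, hw⟩ := hG.minDeg i v
      exact ⟨some w, hw⟩

theorem addG_gamma {n k : ℕ} {G : Fin k → SimpleGraph (Fin n)} (hG : IsFactorization G)
    (φ : Fin n → Fin k) (hφ : Function.Surjective φ) (j : Fin k) :
    gammaT (G j) + 1 ≤ gammaT (addG G φ j) + (univ.filter (fun v => φ v = j)).card := by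
  classical
  obtain ⟨S, hS, hc⟩ := exists_tds ((addG_fac hG φ hφ).minDeg j)
  rw [← hc]
  obtain ⟨T, hT⟩ : ∃ T : Finset (Fin n), T = univ.filter (fun v => some v ∈ S) := ⟨_, rfl⟩
  have hTS : T.card + (if none ∈ S then 1 else 0) ≤ S.card := by
    have h1 : T.map Function.Embedding.some ⊆ S.erase none := by
      intro a ha
      obtain ⟨v, hv, rfl⟩ := Finset.mem_map.1 ha
      rw [hT] at hv
      exact Finset.mem_erase.2 ⟨by simp, (Finset.mem_filter.1 hv).2⟩
    have h2 := Finset.card_le_card h1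
    rw [Finset.card_map] at h2
    split_ifs with h3
    · rw [Finset.card_erase_of_mem h3] at h2
      have := Finset.card_pos.2 ⟨none, h3⟩
      omega
    · rw [Finset.erase_eq_of_notMem h3] at h2
      omega
  have hpos : 0 < (univ.filter (fun v => φ v = j)).card := by
    obtain ⟨v, hv⟩ := hφ j
    exact Finset.card_pos.2 ⟨v, by simpa using hv⟩
  by_cases h0 : none ∈ S
  · rw [if_pos h0] at hTS
    choose w hw using hG.minDeg j
    have h1 : gammaT (G j) ≤ (T ∪ (univ.filter (fun v => φ v = j)).image w).card := by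
      apply gammaT_le_card
      intro v
      by_cases hv : φ v = j
      · exact ⟨w v, mem_union_right _ (mem_image_of_mem _ (by simpa using hv)), hw v⟩
      · obtain ⟨a, ha, hadj⟩ := hS (some v)
        rcases a with _ | a
        · exact absurd hadj hv
        · exact ⟨a, mem_union_left _ (by rw [hT]; simpa using ha), hadj⟩
    have h2 := Finset.card_union_le T ((univ.filter (fun v => φ v = j)).image w)
    have h3 : ((univ.filter (fun v => φ v = j)).image w).card ≤ _ := Finset.card_image_le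
    omega
  · rw [if_neg h0] at hTS
    have h1 : gammaT (G j) ≤ T.card := by
      apply gammaT_le_card
      intro v
      obtain ⟨a, ha, hadj⟩ := hS (some v)
      rcases a with _ | a
      · exact absurd ha h0
      · exact ⟨a, by rw [hT]; simpa using ha, hadj⟩
    omega

/-- one more vertex -/
theorem P_succ {n k : ℕ} (hk : 1 ≤ k) (hkn : k ≤ n) (c : ℝ) (hc : 0 < c)
    (h : c * (n : ℝ) ^ k ≤ (P n k : ℝ)) (hn : ((n : ℝ) - k) ≤ c * n) :
    (1 - ((n : ℝ) - k) / (c * n)) * (P n k : ℝ) ≤ (P (n + 1) k : ℝ) := by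
  classical
  have hn1 : 1 ≤ n := hk.trans hkn
  have hn0 : (0 : ℝ) < n := by exact_mod_cast hn1
  rcases P_attained n k with h0 | ⟨G, hG, hPG⟩
  · rw [h0]
    push_cast
    rw [mul_zero]
    positivity
  obtain ⟨φ, hφd⟩ : ∃ φ : Fin n → Fin k,
      φ = fun v => if h : v.val < k then ⟨v.val, h⟩ else ⟨0, by omega⟩ := ⟨_, rfl⟩
  have hφ : Function.Surjective φ := by
    intro j
    refine ⟨⟨j.val, by omega⟩, ?_⟩
    rw [hφd]
    simp
  have hfib : ∀ j : Fin k, (univ.filter (fun v => φ v = j)).card ≤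
      1 + (if j.val = 0 then n - k else 0) := by
    intro j
    have h1 : univ.filter (fun v => φ v = j) ⊆
        {(⟨j.val, by omega⟩ : Fin n)} ∪ (if j.val = 0 then
          univ.filter (fun v : Fin n => ¬ v.val < k) else ∅) := by
      intro v hv
      rw [Finset.mem_filter] at hv
      have h2 := hv.2
      rw [hφd] at h2
      simp only at h2
      split_ifs at h2 with h3
      · apply Finset.mem_union_left
        rw [Finset.mem_singleton]
        apply Fin.ext
        have h4 := congrArg (fun a : Fin k => a.val) h2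
        simpa using h4
      · apply Finset.mem_union_right
        have h4 : j.val = 0 := (congrArg Fin.val h2).symm
        rw [if_pos h4]
        simpa using h3
    refine (Finset.card_le_card h1).trans ((Finset.card_union_le _ _).trans ?_)
    rw [Finset.card_singleton]
    apply Nat.add_le_add_left
    split_ifs with h4
    · have h5 := Finset.card_filter_add_card_filter_not (s := (univ : Finset (Fin n)))
        (fun v => v.val < k)
      rw [Finset.card_univ, Fintype.card_fin] at h5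
      have h6 : (univ.filter (fun v : Fin n => v.val < k)).card = k := by
        rw [Fin.card_filter_val_lt]
        omega
      omega
    · simp
  have hmain : ∏ j, gammaT (addG G φ j) ≤ P (n + 1) k :=
    le_P (by simp) (by simp) (addG_fac hG φ hφ)
  have hγ0 : ∀ j, (gammaT (G j) : ℝ) ≤ n := by
    intro j
    have : gammaT (G j) ≤ n := by simpa using gammaT_le_univ (hG.minDeg j)
    exact_mod_cast this
  -- the factor number 0
  obtain ⟨j0, hj0⟩ : ∃ j0 : Fin k, j0.val = 0 := ⟨⟨0, by omega⟩, rfl⟩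
  have hPr : (P n k : ℝ) = gammaT (G j0) * ∏ j ∈ univ.erase j0, (gammaT (G j) : ℝ) := by
    rw [hPG, Finset.mul_prod_erase univ (fun j => (gammaT (G j) : ℝ)) (mem_univ j0)]
    push_cast
    rfl
  have hQ : ∏ j ∈ univ.erase j0, (gammaT (G j) : ℝ) ≤ (n : ℝ) ^ (k - 1) := by
    calc ∏ j ∈ univ.erase j0, (gammaT (G j) : ℝ) ≤ ∏ _j ∈ univ.erase j0, (n : ℝ) :=
          Finset.prod_le_prod (fun j _ => by positivity) (fun j _ => hγ0 j)
      _ = (n : ℝ) ^ (k - 1) := by
          rw [Finset.prod_const, Finset.card_erase_of_mem (mem_univ j0), Finset.card_univ,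
            Fintype.card_fin]
  have hγj0 : c * n ≤ gammaT (G j0) := by
    by_contra hcon
    push Not at hcon
    have h1 : (P n k : ℝ) < c * n * (n : ℝ) ^ (k - 1) := by
      rw [hPr]
      calc (gammaT (G j0) : ℝ) * ∏ j ∈ univ.erase j0, (gammaT (G j) : ℝ)
          ≤ (gammaT (G j0) : ℝ) * (n : ℝ) ^ (k - 1) :=
            mul_le_mul_of_nonneg_left hQ (by positivity)
        _ < c * n * (n : ℝ) ^ (k - 1) := mul_lt_mul_of_pos_right hcon (by positivity)
    have h2 : c * n * (n : ℝ) ^ (k - 1) = c * (n : ℝ) ^ k := by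
      rw [mul_assoc, ← pow_succ']
      congr 2
      omega
    linarith
  have hnew0 : (gammaT (G j0) : ℝ) - (n - k) ≤ gammaT (addG G φ j0) := by
    have h1 := addG_gamma hG φ hφ j0
    have h2 := hfib j0
    rw [if_pos hj0] at h2
    have h3 : gammaT (G j0) + k ≤ gammaT (addG G φ j0) + n := by omega
    have h4 : (gammaT (G j0) : ℝ) + k ≤ gammaT (addG G φ j0) + n := by exact_mod_cast h3
    linarith
  have hnew : ∀ j ∈ univ.erase j0, (gammaT (G j) : ℝ) ≤ gammaT (addG G φ j) := by
    intro j hj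
    have h1 := addG_gamma hG φ hφ j
    have h2 := hfib j
    have h5 : j.val ≠ 0 := by
      intro h6
      exact (Finset.ne_of_mem_erase hj) (Fin.ext (by rw [h6, hj0]))
    rw [if_neg h5] at h2
    have h3 : gammaT (G j) ≤ gammaT (addG G φ j) := by omega
    exact_mod_cast h3
  have hcn : 0 < c * n := by positivity
  calc (1 - ((n : ℝ) - k) / (c * n)) * (P n k : ℝ)
      = ((1 - ((n : ℝ) - k) / (c * n)) * gammaT (G j0)) *
        ∏ j ∈ univ.erase j0, (gammaT (G j) : ℝ) := by rw [hPr]; ring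
    _ ≤ (gammaT (addG G φ j0) : ℝ) * ∏ j ∈ univ.erase j0, (gammaT (addG G φ j) : ℝ) := by
        apply mul_le_mul
        · have hnk : (0 : ℝ) ≤ (n : ℝ) - k := by
            have : (k : ℝ) ≤ n := by exact_mod_cast hkn
            linarith
          have h1 : ((n : ℝ) - k) ≤ ((n : ℝ) - k) / (c * n) * gammaT (G j0) := by
            rw [div_mul_eq_mul_div, le_div_iff₀ hcn]
            exact mul_le_mul_of_nonneg_left hγj0 hnk
          linarith
        · exact Finset.prod_le_prod (fun j _ => by positivity) hnew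
        · positivity
        · positivity
    _ = ((∏ j, gammaT (addG G φ j) : ℕ) : ℝ) := by
        rw [Finset.mul_prod_erase univ (fun j => (gammaT (addG G φ j) : ℝ)) (mem_univ j0)]
        push_cast
        rfl
    _ ≤ (P (n + 1) k : ℝ) := by exact_mod_cast hmain

/-- lower bound for odd `n` -/
theorem odd_low (r : ℕ) (hr : 2 ≤ r) (ε : ℝ) (hε : 0 < ε) : ∃ h0 : ℕ, ∀ h : ℕ, h0 ≤ h →
    (Real.exp (-Lam r) - ε) * ((2 * h : ℕ) : ℝ) ^ (2 * h - r) ≤
      (P (2 * h + 1) (2 * h - r) : ℝ) := by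
  obtain ⟨e, he⟩ : ∃ e : ℝ, e = Real.exp (-Lam r) := ⟨_, rfl⟩
  have he0 : 0 < e := by rw [he]; exact Real.exp_pos _
  have hL0 : 0 ≤ Lam r := by
    apply Real.sInf_nonneg
    rintro x ⟨N, J, G, _, hG, rfl⟩
    exact lossR_nonneg hG
  have he1 : e ≤ 1 := by rw [he]; exact Real.exp_le_one_iff.2 (by linarith)
  obtain ⟨n1, hn1⟩ := le_P_Lam r hr (min (ε / 2) (e / 2)) (by positivity)
  obtain ⟨n2, hn2⟩ := exists_nat_ge ((r : ℝ) / (e / 2) / min (ε / 2) 1)
  refine ⟨n1 + n2 + r + 1, fun h hh => ?_⟩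
  have h1 := hn1 (2 * h) (by omega) ⟨h, by ring⟩
  rw [← he] at h1 ⊢
  have hm1 : min (ε / 2) (e / 2) ≤ ε / 2 := min_le_left _ _
  have hm2 : min (ε / 2) (e / 2) ≤ e / 2 := min_le_right _ _
  have hn0 : (0 : ℝ) < ((2 * h : ℕ) : ℝ) := by exact_mod_cast (by omega : 0 < 2 * h)
  have hpow : (0 : ℝ) < ((2 * h : ℕ) : ℝ) ^ (2 * h - r) := pow_pos hn0 _
  have hk : (((2 * h : ℕ) : ℝ) - ((2 * h - r : ℕ) : ℝ)) = r := by
    rw [Nat.cast_sub (by omega)]
    ring
  have h2 : (e / 2) * ((2 * h : ℕ) : ℝ) ^ (2 * h - r) ≤ (P (2 * h) (2 * h - r) : ℝ) := by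
    refine le_trans ?_ h1
    apply mul_le_mul_of_nonneg_right _ hpow.le
    linarith
  have hh2 : (n2 : ℝ) ≤ ((2 * h : ℕ) : ℝ) := by exact_mod_cast (by omega : n2 ≤ 2 * h)
  have h3 : (r : ℝ) / (e / 2) ≤ ((2 * h : ℕ) : ℝ) * min (ε / 2) 1 := by
    rw [div_le_iff₀ (by positivity)] at hn2
    exact hn2.trans (mul_le_mul_of_nonneg_right hh2 (by positivity))
  have hmε : min (ε / 2) 1 ≤ ε / 2 := min_le_left _ _
  have hm1' : min (ε / 2) 1 ≤ 1 := min_le_right _ _
  have h4 : (r : ℝ) ≤ (e / 2) * ((2 * h : ℕ) : ℝ) := by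
    have : (r : ℝ) / (e / 2) ≤ ((2 * h : ℕ) : ℝ) :=
      h3.trans (by
        have := mul_le_mul_of_nonneg_left hm1' hn0.le
        linarith)
    rw [div_le_iff₀ (by positivity)] at this
    linarith
  have h5 := P_succ (by omega : 1 ≤ 2 * h - r) (by omega : 2 * h - r ≤ 2 * h) (e / 2)
    (by positivity) h2 (by rw [hk]; exact h4)
  rw [hk] at h5
  have h6 : (r : ℝ) / (e / 2 * ((2 * h : ℕ) : ℝ)) ≤ ε / 2 := by
    rw [← div_div, div_le_iff₀ hn0]
    have := mul_le_mul_of_nonneg_left hmε hn0.le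
    linarith
  refine le_trans ?_ h5
  have h7 : 0 ≤ (r : ℝ) / (e / 2 * ((2 * h : ℕ) : ℝ)) := by positivity
  have h8 : (r : ℝ) / (e / 2 * ((2 * h : ℕ) : ℝ)) ≤ 1 := by
    rw [div_le_one (by positivity)]
    exact h4
  have h9 : (e - ε / 2) * ((2 * h : ℕ) : ℝ) ^ (2 * h - r) ≤ (P (2 * h) (2 * h - r) : ℝ) :=
    le_trans (mul_le_mul_of_nonneg_right (by linarith) hpow.le) h1
  have hP1 : (P (2 * h) (2 * h - r) : ℝ) ≤ ((2 * h : ℕ) : ℝ) ^ (2 * h - r) := by
    have := P_le_Lam (2 * h) r (by omega) (by omega)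
    rw [← he] at this
    refine this.trans ?_
    have := mul_le_mul_of_nonneg_right he1 hpow.le
    linarith
  have h10 : (r : ℝ) / (e / 2 * ((2 * h : ℕ) : ℝ)) * (P (2 * h) (2 * h - r) : ℝ) ≤
      ε / 2 * ((2 * h : ℕ) : ℝ) ^ (2 * h - r) :=
    mul_le_mul h6 hP1 (by positivity) (by positivity)
  linarith

/-- `LamO (r + 1) ≤ Lam r`. -/
theorem LamO_le (hO : Stmt_TND) (r : ℕ) (hr : 2 ≤ r) : LamO (r + 1) ≤ Lam r := by
  have h1 := hO (r + 1) (by omega)
  have h2 : ∀ ε : ℝ, 0 < ε → Real.exp (-Lam r) - ε ≤ Real.exp (-LamO (r + 1)) := by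
    intro ε hε
    obtain ⟨h0, hh0⟩ := odd_low r hr ε hε
    refine ge_of_tendsto h1 (Filter.eventually_atTop.2 ⟨h0 + 1, fun h hh => ?_⟩)
    have h3 := hh0 h (by omega)
    have h4 : 2 * h + 1 - (r + 1) = 2 * h - r := by omega
    have hn0 : (0 : ℝ) < ((2 * h : ℕ) : ℝ) := by exact_mod_cast (by omega : 0 < 2 * h)
    rw [h4, le_div_iff₀ (pow_pos hn0 _)]
    exact h3
  have h3 : Real.exp (-Lam r) ≤ Real.exp (-LamO (r + 1)) := by
    apply le_of_forall_pos_le_add
    intro ε hε
    have := h2 ε hε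
    linarith
  have h4 := Real.exp_le_exp.1 h3
  linarith

end Pool.Agent.Work.MP_1ce445_topR
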