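import Pool.Agent.Work.MP_1ce445_topR.Uni
import Pool.Agent.Work.MP_1ce445_oddR.Interface

/-!
MP_1ce445_co: the leading term of `P n k` for all `n` and all `k` (helper23).
-/

namespace Pool.Agent.Work.MP_1ce445_topR

open Finset Pool.Agent.Work.MP_1ce445_co_56 Pool.Agent.Work.MP_1ce445_lin
  Pool.Agent.Work.MP_1ce445_top Pool.Agent.Work.MP_1ce445_fin Pool.Agent.Work.MP_1ce445_oddR

/-- `F ((n - r) / n)` tends to `1/e`. -/
theorem F_lim (r : ℕ) (hr : 2 ≤ r) (u : ℕ → ℕ) (hu : ∀ h, h ≤ u h) :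
    Filter.Tendsto (fun h : ℕ => F (((u h - r : ℕ) : ℝ) / ((u h : ℕ) : ℝ)))
      Filter.atTop (nhds (Real.exp (-1))) := by
  rw [Metric.tendsto_atTop]
  intro δ hδ
  obtain ⟨c0, hc0, h0⟩ := F_tendsto (δ / 2) (by linarith)
  obtain ⟨n1, hn1⟩ := exists_nat_ge ((r : ℝ) / (1 - c0))
  refine ⟨n1 + r + 1, fun h hh => ?_⟩
  have huh := hu h
  have hn : (0 : ℝ) < ((u h : ℕ) : ℝ) := by exact_mod_cast (by omega : 0 < u h)
  have hcast : ((u h - r : ℕ) : ℝ) = ((u h : ℕ) : ℝ) - r := by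
    rw [Nat.cast_sub (by omega)]
  have hr0 : (0 : ℝ) < r := by exact_mod_cast (by omega : 0 < r)
  have h1 := h0 (((u h - r : ℕ) : ℝ) / ((u h : ℕ) : ℝ)) (by
    rw [le_div_iff₀ hn, hcast]
    have h2 : (n1 : ℝ) ≤ ((u h : ℕ) : ℝ) := by exact_mod_cast (by omega : n1 ≤ u h)
    rw [div_le_iff₀ (by linarith)] at hn1
    have h3 : (n1 : ℝ) * (1 - c0) ≤ ((u h : ℕ) : ℝ) * (1 - c0) :=
      mul_le_mul_of_nonneg_right h2 (by linarith)
    linarith) (by
    rw [div_lt_one hn, hcast]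
    linarith)
  rw [Real.dist_eq, abs_lt]
  constructor <;> linarith [h1.1, h1.2]

theorem fix_gen (r : ℕ) (hr : 2 ≤ r) (L : ℝ) (u : ℕ → ℕ) (hu : ∀ h, h ≤ u h)
    (hT : Filter.Tendsto (fun h : ℕ => (P (u h) (u h - r) : ℝ) /
      ((2 * (u h / 2) : ℕ) : ℝ) ^ (u h - r)) Filter.atTop (nhds (Real.exp (-L)))) :
    Filter.Tendsto (fun h : ℕ => (P (u h) (u h - r) : ℝ) /
      (F (((u h - r : ℕ) : ℝ) / (u h : ℕ)) * Real.exp (1 - L) *
        ((2 * (u h / 2) : ℕ) : ℝ) ^ (u h - r))) Filter.atTop (nhds 1) := by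
  have hQ := hT.div ((F_lim r hr u hu).mul_const (Real.exp (1 - L))) (by positivity)
  have hone : Real.exp (-L) / (Real.exp (-1) * Real.exp (1 - L)) = 1 := by
    rw [← Real.exp_add]
    have : -1 + (1 - L) = -L := by ring
    rw [this]
    exact div_self (Real.exp_pos _).ne'
  rw [hone] at hQ
  refine hQ.congr ?_
  intro h
  simp only [Pi.div_apply]
  rw [div_div, mul_comm (((2 * (u h / 2) : ℕ) : ℝ) ^ (u h - r))]

/-- the quotient without the factor `exp (1 - L)` -/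
theorem fix_gen' (r : ℕ) (hr : 2 ≤ r) (L : ℝ) (u : ℕ → ℕ) (hu : ∀ h, h ≤ u h)
    (hT : Filter.Tendsto (fun h : ℕ => (P (u h) (u h - r) : ℝ) /
      ((2 * (u h / 2) : ℕ) : ℝ) ^ (u h - r)) Filter.atTop (nhds (Real.exp (-L)))) :
    Filter.Tendsto (fun h : ℕ => (P (u h) (u h - r) : ℝ) /
      (F (((u h - r : ℕ) : ℝ) / (u h : ℕ)) * ((2 * (u h / 2) : ℕ) : ℝ) ^ (u h - r)))
        Filter.atTop (nhds (Real.exp (1 - L))) := by
  have hQ := hT.div (F_lim r hr u hu) (by positivity)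
  have hone : Real.exp (-L) / Real.exp (-1) = Real.exp (1 - L) := by
    rw [← Real.exp_sub]
    congr 1
    ring
  rw [hone] at hQ
  refine hQ.congr ?_
  intro h
  simp only [Pi.div_apply]
  rw [div_div, mul_comm (((2 * (u h / 2) : ℕ) : ℝ) ^ (u h - r))]

theorem even_lim (r : ℕ) (hr : 2 ≤ r) :
    Filter.Tendsto (fun h : ℕ => (P (2 * h) (2 * h - r) : ℝ) /
      ((2 * (2 * h / 2) : ℕ) : ℝ) ^ (2 * h - r)) Filter.atTop (nhds (Real.exp (-Lam r))) := by
  refine (tendsto_even r hr).congr ?_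
  intro h
  have : 2 * (2 * h / 2) = 2 * h := by omega
  rw [this]

theorem odd_lim (hO : Stmt_TND) (r : ℕ) (hr : 2 ≤ r) :
    Filter.Tendsto (fun h : ℕ => (P (2 * h + 1) (2 * h + 1 - r) : ℝ) /
      ((2 * ((2 * h + 1) / 2) : ℕ) : ℝ) ^ (2 * h + 1 - r)) Filter.atTop
        (nhds (Real.exp (-LamO r))) := by
  refine (hO r hr).congr ?_
  intro h
  have : 2 * ((2 * h + 1) / 2) = 2 * h := by omega
  rw [this]

/-- the constant of `P n (n - r)`, `r` fixed: `Lam` for even `n`, `LamO` for odd `n` -/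
noncomputable def LL (n r : ℕ) : ℝ := if Even n then Lam r else LamO r

/-- a value which is a limit along `n` of one parity -/
theorem close (hfin : Stmt_final) (ε : ℝ) (hε : 0 < ε) : ∃ R : ℕ, ∀ (r : ℕ) (L : ℝ) (u : ℕ → ℕ),
    R ≤ r → (∀ h, h ≤ u h) → Filter.Tendsto (fun h : ℕ => (P (u h) (u h - r) : ℝ) /
      ((2 * (u h / 2) : ℕ) : ℝ) ^ (u h - r)) Filter.atTop (nhds (Real.exp (-L))) →
    |Real.exp (1 - L) - 1| ≤ ε := by
  obtain ⟨R1, n1, h1⟩ := hfin ε hε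
  refine ⟨R1 + 2, fun r L u hr hu hT => ?_⟩
  have h2 := fix_gen' r (by omega) L u hu hT
  have h3 : Filter.Tendsto (fun h : ℕ => |(P (u h) (u h - r) : ℝ) /
      (F (((u h - r : ℕ) : ℝ) / (u h : ℕ)) * ((2 * (u h / 2) : ℕ) : ℝ) ^ (u h - r)) - 1|)
        Filter.atTop (nhds |Real.exp (1 - L) - 1|) := (h2.sub_const 1).abs
  refine le_of_tendsto h3 (Filter.eventually_atTop.2 ⟨n1 + r + 3, fun h hh => ?_⟩)
  have := hu h
  exact h1 (u h) (u h - r) (by omega) (by omega) (by omega)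

/-- **All `n` and all `k`.** -/
theorem uniform_all (hfin : Stmt_final) (hO : Stmt_TND) (ε : ℝ) (hε : 0 < ε) :
    ∃ n0 : ℕ, ∀ n k : ℕ, n0 ≤ n → 3 ≤ k → k + 2 ≤ n →
      |(P n k : ℝ) / (F ((k : ℝ) / n) * Real.exp (1 - LL n (n - k)) *
        ((2 * (n / 2) : ℕ) : ℝ) ^ k) - 1| ≤ ε := by
  obtain ⟨δ, hδ⟩ : ∃ δ : ℝ, δ = min (ε / 4) (1 / 2) := ⟨_, rfl⟩
  have hδ0 : 0 < δ := by rw [hδ]; positivity
  have hδ1 : δ ≤ 1 / 2 := by rw [hδ]; exact min_le_right _ _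
  have hδε : 4 * δ ≤ ε := by
    have : δ ≤ ε / 4 := by rw [hδ]; exact min_le_left _ _
    linarith
  obtain ⟨R1, n1, h1⟩ := hfin δ hδ0
  obtain ⟨R2, hR2⟩ := close hfin δ hδ0
  obtain ⟨R, hRd⟩ : ∃ R, R = R1 + R2 + 2 := ⟨_, rfl⟩
  -- the constants for large `r`
  have hLL : ∀ n r : ℕ, R ≤ r → |Real.exp (1 - LL n r) - 1| ≤ δ := by
    intro n r hr
    unfold LL
    split_ifs
    · exact hR2 r (Lam r) (fun h => 2 * h) (by omega) (fun h => by omega) (even_lim r (by omega))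
    · exact hR2 r (LamO r) (fun h => 2 * h + 1) (by omega) (fun h => by omega)
        (odd_lim hO r (by omega))
  -- fixed `r`
  have hfix : ∀ r : ℕ, 2 ≤ r → ∃ n0 : ℕ, ∀ n : ℕ, n0 ≤ n →
      |(P n (n - r) : ℝ) / (F (((n - r : ℕ) : ℝ) / n) * Real.exp (1 - LL n r) *
        ((2 * (n / 2) : ℕ) : ℝ) ^ (n - r)) - 1| ≤ ε := by
    intro r hr
    have hE := fix_gen r hr (Lam r) (fun h => 2 * h) (fun h => by omega) (even_lim r hr)
    have hD := fix_gen r hr (LamO r) (fun h => 2 * h + 1) (fun h => by omega) (odd_lim hO r hr)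
    rw [Metric.tendsto_atTop] at hE hD
    obtain ⟨a, ha⟩ := hE ε hε
    obtain ⟨b, hb⟩ := hD ε hε
    refine ⟨2 * a + 2 * b + 1, fun n hn => ?_⟩
    rcases Nat.even_or_odd' n with ⟨h, hh | hh⟩
    · have h2 := ha h (by omega)
      rw [Real.dist_eq] at h2
      have h3 : Even n := ⟨h, by omega⟩
      unfold LL
      rw [if_pos h3]
      rw [← hh] at h2
      exact h2.le
    · have h2 := hb h (by omega)
      rw [Real.dist_eq] at h2
      have h3 : ¬ Even n := by rw [Nat.not_even_iff_odd]; exact ⟨h, hh⟩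
      unfold LL
      rw [if_neg h3]
      rw [← hh] at h2
      exact h2.le
  choose! f hf using hfix
  refine ⟨n1 + ∑ r ∈ range (R + 1), f r, fun n k hn hk hk2 => ?_⟩
  by_cases hkR : k + R ≤ n
  · have h2 := h1 n k (by omega) hk (by omega)
    have h3 := hLL n (n - k) (by omega)
    obtain ⟨x, hx⟩ : ∃ x : ℝ, x = (P n k : ℝ) / (F ((k : ℝ) / n) * ((2 * (n / 2) : ℕ) : ℝ) ^ k) :=
      ⟨_, rfl⟩
    obtain ⟨y, hy⟩ : ∃ y : ℝ, y = Real.exp (1 - LL n (n - k)) := ⟨_, rfl⟩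
    rw [← hx] at h2
    rw [← hy] at h3
    have h4 := abs_le.1 h2
    have h5 := abs_le.1 h3
    have hy1 : 1 / 2 ≤ y := by linarith
    have h6 : (P n k : ℝ) / (F ((k : ℝ) / n) * Real.exp (1 - LL n (n - k)) *
        ((2 * (n / 2) : ℕ) : ℝ) ^ k) = x / y := by
      rw [hx, hy, div_div]
      congr 1
      ring
    rw [h6]
    have h7 : x / y - 1 = (x - y) / y := by
      have : y ≠ 0 := by linarith
      field_simp
    rw [h7, abs_div, abs_of_pos (by linarith : 0 < y), div_le_iff₀ (by linarith)]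
    have h8 : |x - y| ≤ 2 * δ := by
      rw [abs_le]
      constructor <;> linarith
    nlinarith
  · have h2 : f (n - k) ≤ ∑ r ∈ range (R + 1), f r :=
      Finset.single_le_sum (f := f) (fun _ _ => Nat.zero_le _)
        (Finset.mem_range.2 (by omega))
    have h3 := hf (n - k) (by omega) n (by omega)
    have h4 : n - (n - k) = k := by omega
    rw [h4] at h3
    exact h3

end Pool.Agent.Work.MP_1ce445_topR
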