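import Pool.Agent.Work.MP_1ce445_topR.Uni
import Pool.Agent.Work.MP_1ce445_topR.Asy
import Pool.Agent.Work.MP_1ce445_n3.LO3
import Pool.Agent.Work.MP_1ce445_n3.CMA
import Pool.Agent.Work.MP_1ce445_n3.CMB
import Pool.Agent.Work.MP_1ce445_n3.CST
import Pool.Agent.Work.MP_1ce445_fin.End

/-!
MP_1ce445_co: the leading term of `P n k` for all `k`, `n` even; the values of `Lam` (helper23).
-/

namespace Pool.Agent.Work.MP_1ce445_topR

open Finset Pool.Agent.Work.MP_1ce445_co_56 Pool.Agent.Work.MP_1ce445_fin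

theorem Lam_three_eq : Lam 3 = 1 / 2 :=
  Lam_three (Pool.Agent.Work.MP_1ce445_n3.stmt_LO3
    (Pool.Agent.Work.MP_1ce445_n3.stmt_CMA Pool.Agent.Work.MP_1ce445_n3.stmt_CST
      (Pool.Agent.Work.MP_1ce445_n3.stmt_CMB Pool.Agent.Work.MP_1ce445_n3.stmt_CST)))

/-- **All `k`.** -/
theorem uniform_final (ε : ℝ) (hε : 0 < ε) :
    ∃ R n0 : ℕ, ∀ n k : ℕ, n0 ≤ n → 3 ≤ k → k + 2 ≤ n → (Even n ∨ k + R ≤ n) →
      |(P n k : ℝ) / (F ((k : ℝ) / n) * Real.exp (1 - Lam (n - k)) *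
        ((2 * (n / 2) : ℕ) : ℝ) ^ k) - 1| ≤ ε :=
  uniform final ε hε

end Pool.Agent.Work.MP_1ce445_topR
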